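import Pool.Agent.Y229.N4W1
import Pool.Agent.Y231.N4.F3
import Pool.Agent.TH216.ND.Nd4

/-!
# The monodromy conjecture at the origin for nondegenerate polynomials in four variables
-/

set_option autoImplicit false

namespace Pool.Agent.Y229.N4W

open MvPolynomial Pool.Agent.H628R4.TP Pool.Agent.W425.MM Pool.Agent.Y231.N4
open Pool.Agent.W425.ND (spa Nondeg prodb prodb_eval parts)
open Pool.Agent.W426.SM (gord IsRay face)
open Pool.Agent.W425.BF (B1)
open Pool.Agent.W425.SV (RelV Kil1)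
open Pool.Agent.W425.SG (UnitEq)
open Pool.Agent.TH216.HD (Spans Nondegenerate)
open Pool.Agent.TH216.MF (RelG KilU KRelJ RecJ krelJ_phi SimR aJ)
open Pool.Agent.TH216.MC (pos_of_ray)
open Pool.Agent.TH216.LX (InN aJ_phiN Vert)
open Pool.Agent.TH216.ND
open Pool.Agent.W428.MOT (Pt Constr ratRing sp Lu MK)
open Pool.Agent.W375.MG (zetaG Good)

variable {r N : ℕ}

/-- the vertices of the Newton polyhedron -/
theorem exists_vert (v : Fin r → Fin N → ℕ) :
    ∃ V : Finset (Fin r), Spans v V ∧ Vert (vV v V) := by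
  classical
  have h0 : ∃ n : ℕ, ∃ V : Finset (Fin r), V.card = n ∧ Spans v V := by
    refine ⟨_, Finset.univ, rfl, fun j => ⟨Pi.single j 1, fun k => ?_,
      fun k hk => absurd (Finset.mem_univ k) hk, by simp, fun i => ?_⟩⟩
    · by_cases h : k = j
      · rw [h, Pi.single_eq_same]
        exact zero_le_one
      · rw [Pi.single_eq_of_ne h]
    · rw [Finset.sum_eq_single j]
      · rw [Pi.single_eq_same, one_mul]
      · intro k _ hk
        rw [Pi.single_eq_of_ne hk, zero_mul]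
      · exact fun h => absurd (Finset.mem_univ _) h
  obtain ⟨V, hVn, hV⟩ := Nat.find_spec h0
  refine ⟨V, hV, fun x hx => ?_⟩
  obtain ⟨l, h1, h2, h3, h4⟩ := hx
  set L : Fin r → ℝ := Function.extend (iV V) l 0 with hL
  have hLi : ∀ i, L (iV V i) = l i := fun i => (iV_inj V).extend_apply _ _ _
  have hLo : ∀ k, k ∉ V → L k = 0 := fun k hk =>
    Function.extend_apply' _ _ _ fun ⟨i, hi⟩ => hk (hi ▸ iV_mem V i)
  have hL0 : ∀ k, 0 ≤ L k := by
    intro k
    by_cases hk : k ∈ V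
    · obtain ⟨i, rfl⟩ := iV_surj V hk
      rw [hLi]
      exact h1 i
    · rw [hLo k hk]
  have hLs : ∀ f : Fin r → ℝ, ∑ k, L k * f k = ∑ i, l i * f (iV V i) := by
    intro f
    rw [← sum_vV V L hLo f]
    exact Finset.sum_congr rfl fun i _ => by rw [hLi]
  set x0 := iV V x with hx0
  have hx0V : x0 ∈ V := iV_mem V x
  have hLx : L x0 = 0 := by rw [hx0, hLi, h2]
  have hspan : Spans v (V.erase x0) := by
    intro j
    obtain ⟨m, m1, m2, m3, m4⟩ := hV j
    have hsplit : ∀ f : Fin r → ℝ, ∑ k, m k * f k =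
        ∑ k, (if k = x0 then 0 else m k) * f k + m x0 * f x0 := by
      intro f
      have h5 : ∀ k, m k * f k = (if k = x0 then 0 else m k) * f k +
          (if k = x0 then m x0 * f x0 else 0) := by
        intro k
        by_cases hk : k = x0
        · rw [hk, if_pos rfl, if_pos rfl]
          ring
        · rw [if_neg hk, if_neg hk, add_zero]
      rw [Finset.sum_congr rfl fun k _ => h5 k, Finset.sum_add_distrib]
      simp
    refine ⟨fun k => (if k = x0 then 0 else m k) + m x0 * L k, fun k => ?_, fun k hk => ?_, ?_,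
      fun i => ?_⟩
    · refine add_nonneg ?_ (mul_nonneg (m1 x0) (hL0 k))
      split_ifs
      · exact le_rfl
      · exact m1 k
    · beta_reduce
      by_cases hk' : k = x0
      · rw [if_pos hk', hk', hLx, mul_zero, add_zero]
      · have hkV : k ∉ V := fun h => hk (Finset.mem_erase.2 ⟨hk', h⟩)
        rw [if_neg hk', m2 k hkV, hLo k hkV, mul_zero, add_zero]
    · have e1 := hsplit fun _ => 1
      have e2 := hLs fun _ => 1
      simp only [mul_one] at e1 e2
      rw [Finset.sum_add_distrib, ← Finset.mul_sum, e2, h3]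
      linarith
    · have e1 := hsplit fun k => (v k i : ℝ)
      have e2 := hLs fun k => (v k i : ℝ)
      have e3 : ∑ i_1, l i_1 * (v (iV V i_1) i : ℝ) ≤ (v x0 i : ℝ) := h4 i
      have e4 : ∑ k, ((if k = x0 then 0 else m k) + m x0 * L k) * (v k i : ℝ) =
          ∑ k, (if k = x0 then 0 else m k) * (v k i : ℝ) + m x0 * ∑ k, L k * (v k i : ℝ) := by
        rw [Finset.mul_sum, ← Finset.sum_add_distrib]
        exact Finset.sum_congr rfl fun k _ => by ring
      beta_reduce
      rw [e4, e2]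
      have e5 := mul_le_mul_of_nonneg_left e3 (m1 x0)
      have e6 := m4 i
      linarith
  have hmin := Nat.find_min' h0 ⟨_, rfl, hspan⟩
  rw [← hVn, Finset.card_erase_of_mem hx0V] at hmin
  have := Finset.card_pos.2 ⟨x0, hx0V⟩
  omega

/-- the vertices are a subfamily -/
theorem sub_vV (v : Fin r → Fin N → ℕ) (V : Finset (Fin r)) (hV : Spans v V) :
    Sub v (vV v V) (iV V) := by
  refine ⟨iV_inj V, fun i => rfl, fun j => ?_⟩
  obtain ⟨l, h1, h2, h3, h4⟩ := hV j
  refine ⟨fun i => l (iV V i), fun i => h1 _, ?_, fun x => ?_⟩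
  · have h6 := sum_vV V l h2 fun _ => 1
    simp only [mul_one] at h6
    rw [h6, h3]
  · have h6 := sum_vV V l h2 fun k => (v k x : ℝ)
    have h7 := h4 x
    rw [← h6] at h7
    exact h7

/-- the recurrences at the bad levels -/
theorem hb_nd4 (hr : 0 < r) (v : Fin r → Fin 4 → ℕ) (hv : Function.Injective v)
    (V : Finset (Fin r)) (hV : Spans v V) (P : ℚ → Prop)
    (hP : ∀ α, ¬ P α → ∃ (θ : Fin V.card → ℤ) (p : Polynomial ℂ),
      RelG (vV v V) (Kil1 (vV v V)) (KilU (vV v V) θ) p ∧ p.eval (α : ℂ) ≠ 0)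
    (q : ℕ) (hq : 2 ≤ q) (e : Finset (Fin r) → ℂ)
    (he : KRelJ q v Finset.univ e) (he' : KRelB q v e) (T0 : ℂ) (hT0 : T0 ≠ 0) (σ : ℚ)
    (hσ : HypS4 (vV v V) (σ : ℝ) ∧ ¬ P (-σ))
    (hlog : Real.log ‖T0‖ / Real.log q = (σ : ℝ)) : RecJ q v e Finset.univ T0 := by
  classical
  have hcard := (gord_vV hr v V hV 0).1
  obtain ⟨hL, hPσ⟩ := hσ
  obtain ⟨θ, p, hrel, hp⟩ := hP _ hPσ
  have hma : ∀ j', ∃ j, v j = vV v V j' := fun j' => ⟨iV V j', rfl⟩
  have hmb : ∀ j, InN (vV v V) Finset.univ (v j) := fun j =>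
    inN_vV v V Finset.univ Finset.univ (spansD_univ hV) (Finset.Subset.refl _) j
  have he1 := krelJ_phi v (vV v V) hv hma q Finset.univ e he
  have he2 := krelB_phi v (vV v V) hr hcard hma hmb q e he'
  have h1 : ((-Real.log ‖T0‖ / Real.log q : ℝ) : ℂ) = ((-σ : ℚ) : ℂ) := by
    rw [neg_div, hlog]
    push_cast
    rfl
  obtain ⟨Q, hQ, hrec⟩ := recJ4 q hq (vV v V) p θ hrel _ he1 he2 T0 hT0
    (by rw [h1]; exact hp) (by rw [hlog]; exact hL)
  refine ⟨Q, hQ, ?_⟩
  filter_upwards [hrec] with t ht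
  rw [← ht]
  refine Finset.sum_congr rfl fun m _ => ?_
  rw [aJ_phiN v (vV v V) Finset.univ hr hcard hma hmb]

/-- a root of `b` modulo integers, from a certificate -/
lemma root_of (v : Fin r → Fin N → ℕ) (b : Polynomial ℂ) (K : ℕ)
    (hK : ∀ θ : Fin r → ℝ, LinearIndependent ℚ θ → RelV v θ True (prodb b K)) (a : Fin N → ℕ)
    (h : ∃ θ : Fin r → ℝ, LinearIndependent ℚ θ ∧
      ∀ p : Polynomial ℂ, RelV v θ True p →
        p.eval (-(((∑ i, a i : ℕ) : ℂ) / gord v a)) = 0) :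
    ∃ i : ℤ, b.eval (-(((∑ i, a i : ℕ) : ℂ) / gord v a) - i) = 0 := by
  obtain ⟨θ, hθ, h1⟩ := h
  have h2 := h1 _ (hK θ hθ)
  rw [prodb_eval, Finset.prod_eq_zero_iff] at h2
  obtain ⟨i, -, hi⟩ := h2
  exact ⟨i, by exact_mod_cast hi⟩

/-- **Nondegenerate polynomials in four variables, at the origin.** -/
theorem nd_four {k : Type} [Field k] [Algebra k ℂ] (hr : 0 < r)
    (v : Fin r → Fin 4 → ℕ) (hv : Function.Injective v) (c : Fin r → k) (hc : ∀ j, c j ≠ 0)
    (hnd : Nondegenerate v (fun j => algebraMap k ℂ (c j))) :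
    ∃ S : Finset (ℤ × ℤ),
      (∀ p ∈ S, p.1 < 0 ∧ 0 < p.2 ∧ ∀ b : Polynomial ℂ, b.eval (-1) = 0 →
        UnitEq True (spa v (fun j => algebraMap k ℂ (c j))) b →
          ∃ i : ℤ, b.eval ((p.1 : ℂ) / p.2 - i) = 0) ∧
      (∀ (K : Type) [Field K] [Algebra k K] (W : Set (Pt K (Fin 4)))
        (E : Set (AlgebraicClosure K)), Constr W → Good E → (∀ z ∈ W, ∀ i, z i = 0) →
        zetaG (spa v (fun j => algebraMap k K (c j))) W E ∈ ratRing K S) := by
  classical
  have hne : NeZero r := ⟨by omega⟩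
  have hkc : CharZero k := RingHom.charZero (algebraMap k ℂ)
  have hnd' : Nondeg v (fun j => algebraMap k ℂ (c j)) := hnd
  obtain ⟨V, hV, hVert⟩ := exists_vert v
  have hcard := (gord_vV hr v V hV 0).1
  have hSub := sub_vV v V hV
  set P : ℚ → Prop := PW True (spa v (fun j => algebraMap k ℂ (c j))) with hPdef
  have hP : ∀ α, ¬ P α → ∃ (θ : Fin V.card → ℤ) (p : Polynomial ℂ),
      RelG (vV v V) (Kil1 (vV v V)) (KilU (vV v V) θ) p ∧ p.eval (α : ℂ) ≠ 0 := by
    intro α hα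
    rw [hPdef] at hα
    unfold PW at hα
    push Not at hα
    obtain ⟨b, hb1, hb, hroot⟩ := hα
    obtain ⟨K, hK⟩ := relAll parts True v _ hv hnd' b hb
    obtain ⟨θ, hθ⟩ := rel_vV v V hV True (prodb b K) hK
    refine ⟨θ, prodb b K, hθ, ?_⟩
    rw [prodb_eval, Finset.prod_ne_zero_iff]
    intro i _
    exact_mod_cast hroot (i : ℤ)
  obtain ⟨S, hS, hz1⟩ := fin4 v hv hr (fun σ => HypS4 (vV v V) (σ : ℝ) ∧ ¬ P (-σ))
    (fun q hq e he he' T0 hT0 σ hσ hlog => hb_nd4 hr v hv V hV P hP q hq e he he' T0 hT0 σ hσ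
      hlog)
  have hspa : ∀ {K : Type} [Field K] (c' : Fin r → K), spa v c' = sp 0 v c' 1 := by
    intro K _ c'
    unfold sp spa
    simp
  refine ⟨insert (-1, 1) S, fun p hp => ?_, fun K _ _ W E hW hE hWD => ?_⟩
  · rcases Finset.mem_insert.1 hp with rfl | hp
    · refine ⟨by norm_num, by norm_num, fun b hb _ => ⟨0, ?_⟩⟩
      have h1 : (((-1 : ℤ) : ℂ) / ((1 : ℤ) : ℂ) - ((0 : ℤ) : ℂ)) = -1 := by
        push_cast
        ring
      rw [h1, hb]
    obtain ⟨a, ha, hg, hn, rfl⟩ := hS p hp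
    refine ⟨pos_of_ray ha, Int.natCast_pos.2 hg, fun b hb hU => ?_⟩
    have hgC : ((gord v a : ℕ) : ℂ) ≠ 0 := by exact_mod_cast hg.ne'
    have hgQ : ((gord v a : ℕ) : ℚ) ≠ 0 := by exact_mod_cast hg.ne'
    set σ : ℚ := ((∑ i, a i : ℕ) : ℚ) / gord v a with hσ
    have e : ((-((∑ i, a i : ℕ) : ℤ) : ℤ) : ℂ) / ((gord v a : ℤ) : ℂ) = ((-σ : ℚ) : ℂ) := by
      rw [hσ]
      push_cast
      ring
    rw [e]
    -- integers
    have hint : ∀ t : ℕ, σ = t → ∃ i : ℤ, b.eval (((-σ : ℚ) : ℂ) - i) = 0 := by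
      intro t ht
      refine ⟨-(t : ℤ) + 1, ?_⟩
      have h1 : (((-σ : ℚ) : ℂ) - ((-(t : ℤ) + 1 : ℤ) : ℂ)) = -1 := by
        rw [ht]
        push_cast
        ring
      rw [h1, hb]
    obtain ⟨K, hK⟩ := relAll parts True v _ hv hnd' b hU
    have hR1 := fun (a : Fin 4 → ℕ) => stR1 v a
    by_cases hσ1 : σ = 1
    · exact hint 1 (by rw [hσ1, Nat.cast_one])
    by_cases hσ2 : σ = 2
    · exact hint 2 (by rw [hσ2]; norm_num)
    by_contra hcon
    -- the certificates
    have hcert : ∀ a' : Fin 4 → ℕ, 0 < gord v a' → ((∑ i, a' i : ℕ) : ℚ) / gord v a' = σ →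
        ¬ ∃ i : ℤ, b.eval (-(((∑ i, a' i : ℕ) : ℂ) / gord v a') - i) = 0 := by
      rintro a' hg' hl ⟨i, hi⟩
      apply hcon
      refine ⟨i, ?_⟩
      rw [← hi, ← hl]
      congr 1
      push_cast
      ring
    have hyp : HypS4 (vV v V) (σ : ℝ) := by
      refine AZ.main (vV v V) hcard hVert (σ : ℝ) (by exact_mod_cast hσ1) (by exact_mod_cast hσ2)
        fun a' ha' hg' hl => ?_
      have hgg : gord (vV v V) a' = gord v a' := (gord_vV hr v V hV a').2
      have hgq' : ((gord (vV v V) a' : ℕ) : ℚ) ≠ 0 := by exact_mod_cast hg'.ne'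
      have hl' : ((∑ i, a' i : ℕ) : ℚ) / gord (vV v V) a' = σ := by
        apply Rat.cast_injective (α := ℝ)
        push_cast
        push_cast at hl
        exact hl
      have h3 : ∑ i, a' i ≠ gord (vV v V) a' := by
        intro h3
        apply hσ1
        rw [← hl', h3, div_self hgq']
      have h4 : ∑ i, a' i ≠ 2 * gord (vV v V) a' := by
        intro h4
        apply hσ2
        rw [← hl', h4]
        push_cast
        rw [mul_div_assoc, div_self hgq', mul_one]
      have hc' := hcert a' (hgg ▸ hg') (hgg ▸ hl')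
      rcases fac (vV v V) hcard hVert a' ha' hg' h3 h4 with h5 | h5 | h5 | h5
      · exfalso
        apply hc'
        have h6 := a5 v True (prodb b K) hK a' (hgg ▸ hg') (nonB_sub hcard hSub h5)
        rw [prodb_eval, Finset.prod_eq_zero_iff] at h6
        obtain ⟨i, -, hi⟩ := h6
        exact ⟨i, by exact_mod_cast hi⟩
      · exfalso
        apply hc'
        exact root_of v b K hK a' (stR1 v a' (hgg ▸ hg') (circ_sub hcard hSub h5))
      · exfalso
        apply hc'
        exact root_of v b K hK a' (stR2 v a' (hgg ▸ hg') (pnt_sub hcard hSub h5))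
      · exact h5
    have h1 : P (-σ) := by
      by_contra hcon2
      exact hn ⟨hyp, hcon2⟩
    exact hcon (h1 b hb hU)
  · have hK : CharZero K := charZero_of_injective_algebraMap (algebraMap k K).injective
    rw [hspa]
    exact Pool.Agent.TH216.LX.mem_insert_ring S _ (hz1 K _
      (nonG_of Pool.Agent.W67.MM.taskB1 k K v c hr hnd')
      (fun j => (map_ne_zero _).2 (hc j)) W E hW hE hWD)

end Pool.Agent.Y229.N4W
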