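import Pool.Agent.TH216.ND.Nd4

set_option autoImplicit false

/-! Nondegenerate ideals at the origin, weak form: conditions on the exponents `m j`, `j ∈ V`,
only. -/

namespace Pool.Agent.Y229

open MvPolynomial Pool.Agent.W425.MM
open Pool.Agent.W428.MOT Pool.Agent.W749.JI
open Pool.Agent.W425.ND (spa Nondeg prodb prodb_eval parts)
open Pool.Agent.W425.SG (UnitEq)
open Pool.Agent.W426.SM (gord face)
open Pool.Agent.W425.SV (Kil1)
open Pool.Agent.TH216.MF (RelG KilU)
open Pool.Agent.TH216.MC (pos_of_ray)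
open Pool.Agent.W375.MG (good_one)
open Pool.Agent.TH216.ND
open Pool.Agent.TH216.ID
open Pool.Agent.TH216.HD
open Pool.Agent.TH216.HDNL
open Pool.Agent.W423.NI (NondegI)

variable {ℓ r n : ℕ}

/-- The Newton polyhedron `conv {m j, π j = i} + ℝ_{≥ 0} ^ n` of each of the `f_i` is equal to
`conv {m j, π j = i, j ∈ V} + ℝ_{≥ 0} ^ n`. -/
def SpansI (π : Fin ℓ → Fin r) (m : Fin ℓ → Fin n → ℕ) (V : Finset (Fin ℓ)) : Prop :=
  ∀ j, ∃ l : Fin ℓ → ℝ, (∀ k, 0 ≤ l k) ∧ (∀ k, ¬ (k ∈ V ∧ π k = π j) → l k = 0) ∧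
    ∑ k, l k = 1 ∧ ∀ x, ∑ k, l k * (m k x : ℝ) ≤ (m j x : ℝ)

lemma spansD_of (π : Fin ℓ → Fin r) (m : Fin ℓ → Fin n → ℕ) (V : Finset (Fin ℓ))
    (hV : SpansI π m V) : SpansD (cay π m) V (Dx n r) := by
  intro j
  obtain ⟨l, h1, h2, h3, h4⟩ := hV j
  have hy : ∀ x : Fin r, ∑ k, l k * (cay π m k (Fin.natAdd n x) : ℝ) =
      (cay π m j (Fin.natAdd n x) : ℝ) := by
    intro x
    rw [RootG.cay_right]
    by_cases hx : π j = x
    · rw [if_pos hx, Nat.cast_one, ← h3]
      refine Finset.sum_congr rfl fun k _ => ?_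
      by_cases hk : k ∈ V ∧ π k = π j
      · rw [RootG.cay_right, if_pos (hk.2.trans hx), Nat.cast_one, mul_one]
      · rw [h2 k hk, zero_mul]
    · rw [if_neg hx, Nat.cast_zero]
      refine Finset.sum_eq_zero fun k _ => ?_
      by_cases hk : k ∈ V ∧ π k = π j
      · rw [RootG.cay_right, if_neg (fun h => hx (hk.2.symm.trans h)), Nat.cast_zero, mul_zero]
      · rw [h2 k hk, zero_mul]
  refine ⟨l, h1, fun k hk => h2 k fun h => hk h.1, h3, fun i => ?_, fun i hi => ?_⟩
  · induction i using Fin.addCases with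
    | left x =>
      have := h4 x
      simpa only [RootG.cay_left] using this
    | right x => exact (hy x).le
  · induction i using Fin.addCases with
    | left x => exact absurd (by unfold Dx; simp) hi
    | right x => exact hy x

lemma locVY_of (v : Fin ℓ → Fin (n + r) → ℕ) (V : Finset (Fin ℓ)) (σ : ℚ)
    (h : LocVIL v V σ) : LocVY v V (Dy n r) σ := by
  intro j1 hj1
  refine (h j1 hj1).imp id fun h1 a h2 h3 h4 h5 => (h1 a h2 h3 h4 h5).imp id ?_
  rintro ⟨i, hi⟩
  exact ⟨_, (mem_Dy _).2 ⟨i, rfl⟩, hi⟩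

/-- all the rays -/
lemma hypVIL_all {k : ℕ} {v : Fin k → Fin (n + r) → ℕ} {V : Finset (Fin k)} (hL : HypVIL v V)
    (a : Fin (n + r) → ℕ) (_ha : IsRay v a) (_hg : 0 < ordA v a) :
    (∃ z : ℤ, lev v a = z) ∨ (∃ a' : Fin (n + r) → ℕ, 0 < ordA v a' ∧ NonB1 v True a' ∧ ∃ z : ℤ,
      lev v a = lev v a' + z) ∨ LocVIL v V (lev v a) := by
  by_cases hex : ∃ a' : Fin (n + r) → ℕ, IsRay v a' ∧ 0 < ordA v a' ∧ lev v a' = lev v a ∧
      ¬ YApexVL v V a'
  · obtain ⟨a', h1, h2, h3, h4⟩ := hex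
    rcases hL a' h1 h2 with h5 | ⟨t, ht⟩ | h5 | h5
    · exact absurd h5 h4
    · left
      refine ⟨t, ?_⟩
      rw [← h3]
      unfold lev
      rw [ht]
      have : ((ordA v a' : ℕ) : ℚ) ≠ 0 := by exact_mod_cast h2.ne'
      push_cast
      field_simp
    · right
      left
      rw [h3] at h5
      exact h5
    · right
      right
      rw [h3] at h5
      exact h5
  · push Not at hex
    refine Or.inr (Or.inr fun j1 _ => Or.inr fun a' h1 h2 _ h4 => Or.inr ?_)
    exact hex a' h1 h2 h4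

theorem rel_ndX {N k : ℕ} (hr : 0 < k) (v : Fin k → Fin N → ℕ) (hv : Function.Injective v)
    (a : Fin k → ℂ) (hnd : Nondeg v a) (V : Finset (Fin k)) (hV : Spans v V) (α : ℚ)
    (hα : ¬ PWI (spa v a) α) :
    ∃ (θ : Fin V.card → ℤ) (p : Polynomial ℂ),
      RelG (vV v V) (Kil1 (vV v V)) (KilU (vV v V) θ) p ∧ p.eval (α : ℂ) ≠ 0 := by
  have hne : NeZero k := ⟨by omega⟩
  unfold PWI at hα
  push Not at hα
  obtain ⟨hint, b, hb, hroot⟩ := hα
  obtain ⟨K, hK⟩ := relAll parts True v a hv hnd _ hb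
  obtain ⟨θ, hθ⟩ := rel_vV v V hV True (prodb _ K) hK
  refine ⟨θ, prodb _ K, hθ, ?_⟩
  rw [prodb_eval, Finset.prod_ne_zero_iff]
  intro i _
  rw [Polynomial.eval_mul]
  refine mul_ne_zero ?_ (by exact_mod_cast hroot (i : ℤ))
  intro h0
  apply hint ((i : ℤ) - 1)
  have h1 : ((α - ((i : ℤ) - 1 : ℤ) : ℚ) : ℂ) = ((0 : ℚ) : ℂ) := by
    simp only [Polynomial.eval_add, Polynomial.eval_X, Polynomial.eval_one] at h0
    push_cast
    linear_combination h0
  have h2 : α - ((i : ℤ) - 1 : ℤ) = 0 := by exact_mod_cast h1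
  linarith

/-- **Nondegenerate ideals, at the origin: conditions on the vertices.** -/
theorem nd_idealX {k : Type} [Field k] [Algebra k ℂ] (hℓ : 0 < ℓ) (π : Fin ℓ → Fin r)
    (m : Fin ℓ → Fin n → ℕ) (hinj : ∀ j j', π j = π j' → m j = m j' → j = j')
    (c : Fin ℓ → k) (hc : ∀ j, c j ≠ 0)
    (hnd : NondegI π m (fun j => algebraMap k ℂ (c j))) (V : Finset (Fin ℓ))
    (hV : SpansI π m V) (hL : HypVIL (cay π m) V) :
    ∃ S : Finset (ℤ × ℤ),
      (∀ p ∈ S, p.1 < 0 ∧ 0 < p.2 ∧ (p.2 ∣ p.1 ∨ ∀ b : Polynomial ℂ,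
        IsLocalBIdeal (fam π m (fun j => algebraMap k ℂ (c j))) b →
          ∃ i : ℤ, b.eval ((p.1 : ℂ) / p.2 - i) = 0)) ∧
      ∀ (K : Type) [Field K] [Algebra k K],
        zetaI (fam π m (fun j => algebraMap k K (c j))) ∈ ratRing K S := by
  classical
  have hne : NeZero ℓ := ⟨by omega⟩
  have hkc : CharZero k := RingHom.charZero (algebraMap k ℂ)
  have hnd' : Nondeg (cay π m) (fun j => algebraMap k ℂ (c j)) :=
    Pool.Agent.W150.NI.cay π m _ hℓ hnd
  have hv := cay_inj π m hinj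
  have hVD := spansD_of π m V hV
  set f : MvPolynomial (Fin (n + r)) ℂ := spa (cay π m) (fun j => algebraMap k ℂ (c j)) with hf
  have hU : ∀ b, IsLocalBIdeal (fam π m (fun j => algebraMap k ℂ (c j))) b →
      UnitEq True f ((Polynomial.X + 1) * b) := fun b hb => Pool.Agent.W423.NI.Root.unitEq π m _ b hb
  obtain ⟨S, hS, hz1⟩ := fin_W (cay π m) hℓ (fun σ => LocVY (cay π m) V (Dy n r) σ ∧ ¬ PWI f (-σ))
    (Dx n r)
    (fun J hJ q hq e he T0 hT0 σ hσ hlog => hb_ndX hℓ (cay π m) hv (Dy n r) (Dx n r) (yok_cay π m)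
      V hVD (PWI f) (fun α hα => rel_ndX hℓ (cay π m) hv _ hnd' V hVD.spans α hα) J hJ q hq e he T0
      hT0 σ hσ hlog)
  have hspa : ∀ {K : Type} [Field K] (c' : Fin ℓ → K), spa (cay π m) c' = sp 0 (cay π m) c' 1 := by
    intro K _ c'
    unfold sp spa
    simp
  refine ⟨S, fun p hp => ?_, ?_⟩
  · obtain ⟨a, ha, hg, hn, rfl⟩ := hS p hp
    refine ⟨pos_of_ray ha, Int.natCast_pos.2 hg, ?_⟩
    by_cases hdiv : ∃ z : ℤ, lev (cay π m) a = z
    · left
      obtain ⟨z, hz⟩ := hdiv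
      refine ⟨-z, ?_⟩
      have h1 : ((∑ i, a i : ℕ) : ℚ) = z * gord (cay π m) a := by
        have h2 : ((∑ i, a i : ℕ) : ℚ) / gord (cay π m) a = z := hz
        rwa [div_eq_iff (by exact_mod_cast hg.ne')] at h2
      have h2 : ((∑ i, a i : ℕ) : ℤ) = z * gord (cay π m) a := by exact_mod_cast h1
      show -((∑ i, a i : ℕ) : ℤ) = (gord (cay π m) a : ℤ) * -z
      rw [h2]
      ring
    · right
      intro b hb
      have hgC : ((gord (cay π m) a : ℕ) : ℂ) ≠ 0 := by exact_mod_cast hg.ne'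
      rcases hypVIL_all hL a ha hg with h1 | ⟨a', hg', hN, z, hz⟩ | hloc
      · exact absurd h1 hdiv
      · obtain ⟨K, hK⟩ := relAll parts True (cay π m) _ hv hnd' _ (hU b hb)
        have h1 := a5 (cay π m) True (prodb _ K) hK a' hg' hN
        rw [prodb_eval, Finset.prod_eq_zero_iff] at h1
        obtain ⟨i, -, hi⟩ := h1
        rw [Polynomial.eval_mul] at hi
        rcases mul_eq_zero.1 hi with hi | hi
        · exfalso
          apply hdiv
          simp only [Polynomial.eval_add, Polynomial.eval_X, Polynomial.eval_one] at hi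
          refine ⟨z + 1 - i, ?_⟩
          have h3 : ((lev (cay π m) a' - (1 - (i : ℚ)) : ℚ) : ℂ) = ((0 : ℚ) : ℂ) := by
            have h4 : ((lev (cay π m) a' : ℚ) : ℂ) = ((∑ i, a' i : ℕ) : ℂ) / gord (cay π m) a' := by
              unfold lev
              push_cast
              rfl
            push_cast at h4 ⊢
            rw [h4]
            push_cast at hi
            linear_combination (-1) * hi
          have h5 : lev (cay π m) a' - (1 - (i : ℚ)) = 0 := by exact_mod_cast h3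
          rw [hz]
          push_cast
          linarith
        · refine ⟨(i : ℤ) - z, ?_⟩
          have h2 : ((∑ i, a i : ℕ) : ℂ) / gord (cay π m) a =
              ((∑ i, a' i : ℕ) : ℂ) / gord (cay π m) a' + z := by
            have := congrArg (fun q : ℚ => (q : ℂ)) hz
            unfold lev at this
            push_cast at this ⊢
            exact this
          have h3 : ((-((∑ i, a i : ℕ) : ℤ) : ℤ) : ℂ) / ((gord (cay π m) a : ℤ) : ℂ) -
              (((i : ℤ) - z : ℤ) : ℂ) = -(((∑ i, a' i : ℕ) : ℂ) / gord (cay π m) a') - i := by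
            push_cast at h2 ⊢
            rw [neg_div, h2]
            ring
          rw [h3]
          exact hi
      · have h1 : PWI f (-(((∑ i, a i : ℕ) : ℚ) / gord (cay π m) a)) := by
          by_contra hcon
          exact hn ⟨locVY_of _ V _ hloc, hcon⟩
        rcases h1 with ⟨z, hz⟩ | h1
        · exfalso
          apply hdiv
          refine ⟨-z, ?_⟩
          have h2 : lev (cay π m) a = ((∑ i, a i : ℕ) : ℚ) / gord (cay π m) a := rfl
          rw [h2]
          push_cast at hz ⊢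
          linarith
        · obtain ⟨i, hi⟩ := h1 b (hU b hb)
          refine ⟨i, ?_⟩
          have e : ((-((∑ i, a i : ℕ) : ℤ) : ℤ) : ℂ) / ((gord (cay π m) a : ℤ) : ℂ) =
              ((-(((∑ i, a i : ℕ) : ℚ) / gord (cay π m) a) : ℚ) : ℂ) := by
            push_cast
            ring
          rw [e]
          exact hi
  · intro K _ _
    have hK : CharZero K := charZero_of_injective_algebraMap (algebraMap k K).injective
    refine zetaI_mem _ _ ?_
    rw [gp_eq, hspa]
    exact hz1 K _ (nonG_of Pool.Agent.W67.MM.taskB1 k K (cay π m) c hℓ hnd')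
      (fun j => (map_ne_zero _).2 (hc j)) _ _ constr_W0 good_one (fun z hz => W0_Dx z hz)

end Pool.Agent.Y229
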