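import Pool.Agent.W574.RO.Defs
import Pool.Agent.W574.CN.Defs

set_option autoImplicit false

/-! # Topological zeta functions of sums and products of ideals in disjoint variables

Let `I` be an ideal with the log resolution `h`, with the exceptional and other divisors `E_i` and
the numerical data `(N_i, ν_i)`. The local topological zeta function of `I` at the origin is
`Z(s) = ∑_S χ(E_S° ∩ h⁻¹(0)) ∏_{i ∈ S} 1 / (N_i s + ν_i)`.

It is the limit for `L → 1` of the motivic zeta function `∑_e (V_e - V_(e + 1)) L^(-e s)`, where `V_e`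
is the volume of the set of the arcs `φ`, `φ(0) = 0`, with `ord φ^* I ≥ e`, divided by the volume of
the set of all the arcs with `φ(0) = 0`. Let
`V(t) = ∑_S χ(E_S° ∩ h⁻¹(0)) ∫ exp(- ∑_i ν_i x_i) dx`, the integrals over the `x ∈ ℝ_{>0}^S` with
`∑_i N_i x_i ≥ t`; this is the limit of `V_e` for `L → 1` and `e = t / (L - 1)`. It is a linear
combination of functions `t^k exp(- α t)`, and
`1 - Z(s) = s ∫_0^∞ V(t) exp(- s t) dt`.

The same is true for the global topological zeta function `∑_S χ(E_S°) ∏_{i ∈ S} 1 / (N_i s + ν_i)` of
an ideal of a polynomial ring, with all arcs and `χ(E_S°)`, `S ≠ ∅`, in the definition of `V`; here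
`Z(0) = 1` is the Euler characteristic of the affine space.

If `I` and `J` are ideals in disjoint sets of variables, then the set `ord ≥ e` for `I + J` is the
product of the sets for `I` and `J`, and hence the function `V` of `I + J` is the product of the
functions `V` of `I` and `J`. -/

namespace Pool.Agent.Y229

open MvPolynomial Pool.Agent.W574.SM Pool.Agent.W574.CN Pool.Agent.W574.RO

/-- The Laplace transform `∫_0^∞ t^k exp(- α t) exp(- s t) dt = k! / (s + α)^(k + 1)` of the function
`t^k exp(- α t)`. -/
noncomputable def lterm (α : ℂ) (k : ℕ) : RatFunc ℂ :=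
  RatFunc.C (k.factorial : ℂ) * ((RatFunc.X + RatFunc.C α) ^ (k + 1))⁻¹

/-- The Laplace transform of the exponential polynomial `V(t) = ∑_(α, k) v(α, k) t^k exp(- α t)`. -/
noncomputable def lap (v : ℂ × ℕ →₀ ℂ) : RatFunc ℂ :=
  v.sum fun p c => RatFunc.C c * lterm p.1 p.2

/-- The Laplace transform of the product `V(t) W(t)` of two exponential polynomials: the product of
`t^k exp(- α t)` and `t^l exp(- β t)` is `t^(k + l) exp(- (α + β) t)`. -/
noncomputable def lap2 (v w : ℂ × ℕ →₀ ℂ) : RatFunc ℂ :=
  v.sum fun p c => w.sum fun q d => RatFunc.C (c * d) * lterm (p.1 + q.1) (p.2 + q.2)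

/-- `TopSP At A Z`: the ideal generated by the family `A` is obtained by sums and products in
disjoint sets of variables from ideals in the class `At`, a class of ideals together with their
topological zeta functions, and `Z` is its topological zeta function. -/
inductive TopSP (At : Fam → RatFunc ℂ → Prop) : Fam → RatFunc ℂ → Prop
  /-- the ideals of the given class -/
  | atom (A : Fam) (Z : RatFunc ℂ) (h : At A Z) : TopSP At A Z
  /-- the sum of two ideals in disjoint sets of variables: if `1 - Z = s ∫ V(t) exp(- s t) dt` and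
  `1 - W = s ∫ W'(t) exp(- s t) dt`, where no constant function occurs in the exponential
  polynomials `V`, `W'` (given by `v` and `w`), then the topological zeta function of the sum is
  `1 - s ∫ V(t) W'(t) exp(- s t) dt` -/
  | sum (A B : Fam) (Z W : RatFunc ℂ) (v w : ℂ × ℕ →₀ ℂ) (hv : 1 - Z = RatFunc.X * lap v)
      (hw : 1 - W = RatFunc.X * lap w) (hv0 : ∀ p ∈ v.support, p.1 ≠ 0)
      (hw0 : ∀ p ∈ w.support, p.1 ≠ 0) (hA : TopSP At A Z) (hB : TopSP At B W) :
      TopSP At (A.sum B) (1 - RatFunc.X * lap2 v w)
  /-- the product of two ideals in disjoint sets of variables -/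
  | mul (A B : Fam) (Z W : RatFunc ℂ) (hA : TopSP At A Z) (hB : TopSP At B W) :
      TopSP At (A.mul B) (Z * W)
  /-- the variables and the generators may be indexed differently -/
  | equiv (A B : Fam) (i : A.σ ≃ B.σ) (k : A.ι ≃ B.ι) (h : ∀ j, B.f (k j) = rename i (A.f j))
      (Z : RatFunc ℂ) (hA : TopSP At A Z) : TopSP At B Z

end Pool.Agent.Y229
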