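import Pool.Agent.Y229.SP5
import Pool.Agent.Y229.LPDefs

set_option autoImplicit false
set_option linter.unusedSectionVars false
set_option linter.unusedVariables false

/-! # The poles of the topological zeta functions of sums and products of ideals -/

namespace Pool.Agent.Y229

open MvPolynomial Pool.Agent.W574.MO Pool.Agent.W574.SM Pool.Agent.W574.LM Pool.Agent.W574.HS
  Pool.Agent.W574.RO Pool.Agent.W574.CN

theorem C_reg (s c : ℂ) : RatFunc.C c ∈ Reg s :=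
  ⟨Polynomial.C c, 1, by simp, by simp [RatFunc.algebraMap_C]⟩

theorem X_reg (s : ℂ) : (RatFunc.X : RatFunc ℂ) ∈ Reg s :=
  ⟨Polynomial.X, 1, by simp, by simp [RatFunc.algebraMap_X]⟩

theorem XC_eq (α : ℂ) : (RatFunc.X + RatFunc.C α : RatFunc ℂ) =
    algebraMap (Polynomial ℂ) (RatFunc ℂ) (Polynomial.X + Polynomial.C α) := by
  rw [map_add, RatFunc.algebraMap_X, RatFunc.algebraMap_C]

theorem XC_ne (α : ℂ) : (RatFunc.X + RatFunc.C α : RatFunc ℂ) ≠ 0 := by
  rw [XC_eq, Ne, map_eq_zero_iff _ (IsFractionRing.injective (Polynomial ℂ) (RatFunc ℂ))]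
  exact Polynomial.X_add_C_ne_zero α

theorem inv_reg (s α : ℂ) (h : s ≠ -α) : (RatFunc.X + RatFunc.C α : RatFunc ℂ)⁻¹ ∈ Reg s := by
  refine ⟨1, Polynomial.X + Polynomial.C α, ?_, ?_⟩
  · rw [Polynomial.eval_add, Polynomial.eval_X, Polynomial.eval_C]
    intro h0
    exact h (by linear_combination h0)
  · rw [map_one, one_div, XC_eq]

theorem inv_not_reg (α : ℂ) : (RatFunc.X + RatFunc.C α : RatFunc ℂ)⁻¹ ∉ Reg (-α) := by
  rintro ⟨p, q, hq, h⟩
  have hq0 : algebraMap (Polynomial ℂ) (RatFunc ℂ) q ≠ 0 := by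
    rw [Ne, map_eq_zero_iff _ (IsFractionRing.injective (Polynomial ℂ) (RatFunc ℂ))]
    rintro rfl
    exact hq Polynomial.eval_zero
  have h1 : algebraMap (Polynomial ℂ) (RatFunc ℂ) q =
      algebraMap (Polynomial ℂ) (RatFunc ℂ) (p * (Polynomial.X + Polynomial.C α)) := by
    rw [map_mul, ← XC_eq]
    have h2 := XC_ne α
    field_simp at h
    rw [h]
    ring
  have h2 := IsFractionRing.injective (Polynomial ℂ) (RatFunc ℂ) h1
  apply hq
  rw [h2, Polynomial.eval_mul, Polynomial.eval_add, Polynomial.eval_X, Polynomial.eval_C]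
  ring

theorem lterm_reg (s α : ℂ) (k : ℕ) (h : s ≠ -α) : lterm α k ∈ Reg s := by
  rw [lterm, ← inv_pow]
  exact (Reg s).mul_mem (C_reg s _) ((Reg s).pow_mem (inv_reg s α h) _)

theorem lap_pole (v : ℂ × ℕ →₀ ℂ) (p : ℂ × ℕ) (h : p ∈ v.support) : lap v ∉ Reg (-p.1) := by
  classical
  intro hreg
  obtain ⟨p0, hp0, hmax⟩ := Finset.exists_max_image (v.support.filter (fun q => q.1 = p.1))
    (fun q => q.2) ⟨p, Finset.mem_filter.2 ⟨h, rfl⟩⟩
  obtain ⟨hp0s, hp01⟩ := Finset.mem_filter.1 hp0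
  set α := p.1 with hα
  set x : RatFunc ℂ := RatFunc.X + RatFunc.C α with hx
  have hx0 : x ≠ 0 := XC_ne α
  have hxr : x ∈ Reg (-α) := (Reg _).add_mem (X_reg _) (C_reg _ _)
  have h1 : ∀ q ∈ v.support.erase p0,
      x ^ p0.2 * (RatFunc.C (v q) * lterm q.1 q.2) ∈ Reg (-α) := by
    intro q hq
    by_cases hq1 : q.1 = α
    · have h2 : q.2 ≤ p0.2 := hmax q (Finset.mem_filter.2 ⟨Finset.mem_of_mem_erase hq, hq1⟩)
      have h3 : q.2 ≠ p0.2 := fun h3 => Finset.ne_of_mem_erase hq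
        (Prod.ext (hq1.trans hp01.symm) h3)
      obtain ⟨m, hm⟩ : ∃ m, p0.2 = m + (q.2 + 1) := ⟨p0.2 - (q.2 + 1), by omega⟩
      have h4 : x ^ p0.2 * (RatFunc.C (v q) * lterm q.1 q.2) =
          x ^ m * (RatFunc.C (v q) * RatFunc.C (q.2.factorial : ℂ)) := by
        rw [lterm, hq1, ← hx, hm, pow_add]
        field_simp
      rw [h4]
      exact (Reg _).mul_mem ((Reg _).pow_mem hxr _) ((Reg _).mul_mem (C_reg _ _) (C_reg _ _))
    · exact (Reg _).mul_mem ((Reg _).pow_mem hxr _) ((Reg _).mul_mem (C_reg _ _)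
        (lterm_reg _ _ _ fun h2 => hq1 (neg_injective h2.symm)))
  have h2 : x ^ p0.2 * lap v = RatFunc.C (v p0 * (p0.2.factorial : ℂ)) * x⁻¹ +
      ∑ q ∈ v.support.erase p0, x ^ p0.2 * (RatFunc.C (v q) * lterm q.1 q.2) := by
    rw [lap, Finsupp.sum, Finset.mul_sum, ← Finset.add_sum_erase _ _ hp0s]
    congr 1
    rw [lterm, hp01, ← hx, map_mul, pow_succ]
    field_simp
  have h3 : RatFunc.C (v p0 * (p0.2.factorial : ℂ)) * x⁻¹ ∈ Reg (-α) := by
    have h4 := (Reg (-α)).sub_mem ((Reg _).mul_mem ((Reg _).pow_mem hxr p0.2) hreg)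
      (Subring.sum_mem _ h1)
    rw [h2, add_sub_cancel_right] at h4
    exact h4
  have hc : v p0 * (p0.2.factorial : ℂ) ≠ 0 :=
    mul_ne_zero (Finsupp.mem_support_iff.1 hp0s) (Nat.cast_ne_zero.2 (Nat.factorial_ne_zero _))
  have h4 := (Reg (-α)).mul_mem (C_reg (-α) (v p0 * (p0.2.factorial : ℂ))⁻¹) h3
  rw [← mul_assoc, ← map_mul, inv_mul_cancel₀ hc, map_one, one_mul] at h4
  exact inv_not_reg α h4

theorem X_inv_reg (s : ℂ) (h : s ≠ 0) : (RatFunc.X : RatFunc ℂ)⁻¹ ∈ Reg s := by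
  have := inv_reg s 0 (by rwa [neg_zero])
  rwa [map_zero, add_zero] at this

/-- the exponents are poles of the zeta function -/
theorem pole_of_exp (Z : RatFunc ℂ) (v : ℂ × ℕ →₀ ℂ) (hv : 1 - Z = RatFunc.X * lap v)
    (hv0 : ∀ p ∈ v.support, p.1 ≠ 0) (p : ℂ × ℕ) (hp : p ∈ v.support) :
    Z.denom.eval (-p.1) = 0 := by
  by_contra h
  have h1 := mem_Reg_of_denom _ Z h
  have h2 := (Reg _).mul_mem (X_inv_reg (-p.1) (neg_ne_zero.2 (hv0 p hp)))
    ((Reg _).sub_mem (Reg _).one_mem h1)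
  rw [hv, ← mul_assoc, inv_mul_cancel₀ RatFunc.X_ne_zero, one_mul] at h2
  exact lap_pole v p hp h2

theorem lap2_pole (v w : ℂ × ℕ →₀ ℂ) (s : ℂ) (h : (1 - RatFunc.X * lap2 v w).denom.eval s = 0) :
    ∃ p ∈ v.support, ∃ q ∈ w.support, s = -p.1 + -q.1 := by
  by_contra hne
  push Not at hne
  refine Reg_denom s _ ?_ h
  refine (Reg s).sub_mem (Reg s).one_mem ((Reg s).mul_mem (X_reg s) ?_)
  refine Subring.sum_mem _ fun p hp => Subring.sum_mem _ fun q hq => ?_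
  refine (Reg s).mul_mem (C_reg s _) (lterm_reg s _ _ fun h1 => hne p hp q hq ?_)
  rw [h1]
  ring

/-- a notion of forced roots which is compatible with sums and products -/
structure IsForcing (Fo : (A : Fam) → ℂ → Prop) : Prop where
  /-- sums -/
  sum : ∀ (A B : Fam) (α β : ℂ), Fo A α → Fo B β → Fo (A.sum B) (α + β)
  /-- products -/
  mulL : ∀ (A B : Fam) (α : ℂ), Fo A α → (∃ k, B.f k ≠ 0) → Fo (A.mul B) α
  /-- products -/
  mulR : ∀ (A B : Fam) (β : ℂ), Fo B β → (∃ k, A.f k ≠ 0) → Fo (A.mul B) β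
  /-- renaming -/
  equiv : ∀ (A B : Fam) (i : A.σ ≃ B.σ) (k : A.ι ≃ B.ι) (_ : ∀ j, B.f (k j) = rename i (A.f j))
    (α : ℂ), Fo A α → Fo B α

/-- forced roots at the origin -/
def FoL (A : Fam) (α : ℂ) : Prop := SF A.f 0 α

/-- forced roots -/
def FoG (A : Fam) (α : ℂ) : Prop := Forced A.f α

theorem elim_zero {σ τ : Type} : (Sum.elim (0 : σ → ℂ) (0 : τ → ℂ)) = 0 := by
  funext x
  rcases x with x | x <;> rfl

theorem isForcing_local : IsForcing FoL where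
  sum A B α β h1 h2 := by
    classical
    have h := sf_sum A.f B.f 0 0 _ _ h1 h2
    rw [elim_zero] at h
    exact h
  mulL A B α h1 h2 := by
    classical
    have h := sf_mul A.f B.f 0 0 _ h1 h2
    rw [elim_zero] at h
    exact h
  mulR A B α h1 h2 := by
    classical
    have h := sf_mul' A.f B.f 0 0 _ h1 h2
    rw [elim_zero] at h
    exact h
  equiv A B i k h α h1 := by
    classical
    exact sf_equiv i k A.f B.f h 0 _ h1

theorem isForcing_global : IsForcing FoG where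
  sum A B α β h1 h2 := by
    classical
    exact forced_sum A.f B.f _ _ h1 h2
  mulL A B α h1 h2 := by
    classical
    exact fun b hb => h1 b (functionalEq_mul A.f B.f h2 b hb)
  mulR A B α h1 h2 := by
    classical
    exact fun b hb => h1 b (functionalEq_mul' A.f B.f h2 b hb)
  equiv A B i k h α h1 := by
    classical
    exact fun b hb => h1 b (functionalEq_equiv i k A.f B.f h b hb)

/-- **The poles of the topological zeta functions of sums and products of ideals.** -/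
theorem top_closure (Fo : (A : Fam) → ℂ → Prop) (hFo : IsForcing Fo) (T : AddSubmonoid ℂ)
    (At : Fam → RatFunc ℂ → Prop)
    (hAt : ∀ A Z, At A Z → (∃ j, A.f j ≠ 0) ∧
      ∀ s₀ : ℂ, Z.denom.eval s₀ = 0 → ∃ t ∈ T, Fo A (s₀ - t))
    (A : Fam) (Z : RatFunc ℂ) (h : TopSP At A Z) :
    (∃ j, A.f j ≠ 0) ∧ ∀ s₀ : ℂ, Z.denom.eval s₀ = 0 → ∃ t ∈ T, Fo A (s₀ - t) := by
  induction h with
  | atom A Z h => exact hAt A Z h
  | sum A B Z W v w hv hw hv0 hw0 hA hB ihA ihB =>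
    obtain ⟨⟨j, hj⟩, hZ⟩ := ihA
    obtain ⟨-, hW⟩ := ihB
    refine ⟨⟨Sum.inl j, ?_⟩, fun s₀ hs => ?_⟩
    · change rename Sum.inl (A.f j) ≠ 0
      rw [Ne, map_eq_zero_iff _ (rename_injective _ Sum.inl_injective)]
      exact hj
    · obtain ⟨p, hp, q, hq, rfl⟩ := lap2_pole v w s₀ hs
      obtain ⟨t, ht, h1⟩ := hZ _ (pole_of_exp Z v hv hv0 p hp)
      obtain ⟨t', ht', h2⟩ := hW _ (pole_of_exp W w hw hw0 q hq)
      refine ⟨t + t', T.add_mem ht ht', ?_⟩
      have h3 := hFo.sum A B _ _ h1 h2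
      have h4 : -p.1 + -q.1 - (t + t') = (-p.1 - t) + (-q.1 - t') := by ring
      rw [h4]
      exact h3
  | mul A B Z W hA hB ihA ihB =>
    obtain ⟨⟨j, hj⟩, hZ⟩ := ihA
    obtain ⟨⟨k, hk⟩, hW⟩ := ihB
    refine ⟨⟨(j, k), ?_⟩, fun s₀ hs => ?_⟩
    · change (rename Sum.inl (A.f j) * rename Sum.inr (B.f k) : MvPolynomial (A.σ ⊕ B.σ) ℂ) ≠ 0
      refine mul_ne_zero ?_ ?_
      · rw [Ne, map_eq_zero_iff _ (rename_injective _ Sum.inl_injective)]
        exact hj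
      · rw [Ne, map_eq_zero_iff _ (rename_injective _ Sum.inr_injective)]
        exact hk
    · by_cases h1 : Z.denom.eval s₀ = 0
      · obtain ⟨t, ht, h2⟩ := hZ s₀ h1
        exact ⟨t, ht, hFo.mulL A B _ h2 ⟨k, hk⟩⟩
      · by_cases h2 : W.denom.eval s₀ = 0
        · obtain ⟨t, ht, h3⟩ := hW s₀ h2
          exact ⟨t, ht, hFo.mulR A B _ h3 ⟨j, hj⟩⟩
        · exact absurd hs (Reg_denom s₀ _ ((Reg s₀).mul_mem (mem_Reg_of_denom _ _ h1)
            (mem_Reg_of_denom _ _ h2)))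
  | equiv A B i k h Z hA ihA =>
    obtain ⟨⟨j, hj⟩, hZ⟩ := ihA
    refine ⟨⟨k j, ?_⟩, fun s₀ hs => ?_⟩
    · rw [h, Ne, map_eq_zero_iff _ (rename_injective _ i.injective)]
      exact hj
    · obtain ⟨t, ht, h1⟩ := hZ s₀ hs
      exact ⟨t, ht, hFo.equiv A B i k h _ h1⟩

end Pool.Agent.Y229
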