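import Pool.Agent.Y229.LPDefs
import Pool.Agent.W425.GN.Top
import Pool.Agent.W425.ND.Fin1

set_option autoImplicit false

/-! # Classes of ideals with their topological zeta functions -/

namespace Pool.Agent.Y229

open MvPolynomial Pool.Agent.W574.SM Pool.Agent.W574.CN Pool.Agent.W574.RO Pool.Agent.W425.SM
  Pool.Agent.W425.ND Pool.Agent.H628R4.TZ
  Pool.Agent.W425.SV Pool.Agent.W422.GC

/-- `Basic LZ A Z`: `A` generates one of the ideals in the list and `Z` is its (local or global)
topological zeta function; `LZ f Z` says that `Z` is the zeta function of the ideal `(f_j)` of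
`ℂ[x, y]`. -/
inductive Basic (LZ : ∀ r : ℕ, (Fin r → MvPolynomial (Fin 2) ℂ) → RatFunc ℂ → Prop) :
    Fam → RatFunc ℂ → Prop
  /-- the ideal `(x ^ m)` of `ℂ[x]`: `Z = 1 / (1 + m s)` -/
  | power (m : ℕ) (hm : 1 ≤ m) : Basic LZ ⟨Fin 1, Fin 1, fun _ => X 0 ^ m⟩ (fac m 1)
  /-- a non-zero ideal of `ℂ[x, y]` -/
  | plane (r : ℕ) (f : Fin r → MvPolynomial (Fin 2) ℂ) (hf : ∃ j, f j ≠ 0) (Z : RatFunc ℂ)
      (hZ : LZ r f Z) : Basic LZ ⟨Fin 2, Fin r, f⟩ Z
  /-- an ideal of `ℂ[x₀, x₁, x₂]` generated by forms of degree `d > 0`, three of which are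
  algebraically independent (their Jacobian determinant is not zero); see `ConeZeta` for the zeta
  function, which is the same for the germ at the origin -/
  | cone (r : ℕ) (f : Fin r → MvPolynomial (Fin 3) ℂ) (d : ℕ) (hd : 0 < d)
      (hf : ∀ j, (f j).IsHomogeneous d) (e : Fin 3 → Fin r)
      (he : (Matrix.of fun s t => pderiv s (f (e t))).det ≠ 0) (Z : RatFunc ℂ)
      (hZ : ConeZeta f d Z) : Basic LZ ⟨Fin 3, Fin r, f⟩ Z
  /-- an ideal of `ℂ[x₀, ..., xₙ]` generated by forms of degree `d > 0` without a common zero outside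
  the origin, `n + 1` of which are algebraically independent: on the blow-up of the origin, the
  ideal is `O(-d E)`, and `E`, a projective space of dimension `n`, has the numerical data
  `(d, n + 1)` and the Euler characteristic `n + 1`. -/
  | free (n r : ℕ) (f : Fin r → MvPolynomial (Fin (n + 1)) ℂ) (d : ℕ) (hd : 0 < d)
      (hf : ∀ j, (f j).IsHomogeneous d) (h0 : ∀ p, (∀ j, eval p (f j) = 0) → p = 0)
      (e : Fin (n + 1) → Fin r) (he : (Matrix.of fun s t => pderiv s (f (e t))).det ≠ 0) :
      Basic LZ ⟨Fin (n + 1), Fin r, f⟩ (((n + 1 : ℕ) : RatFunc ℂ) * fac d (n + 1))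

/-- `StrongLocal A Z`: `A` generates one of the following germs of ideals at the origin, and `Z` is
its local topological zeta function: the unit ideal; the ideals in `Basic`, with `LocalZeta`
for the ideals of `ℂ[x, y]`; the principal ideals `(g)`, where `g = ∑_j a_j x ^ (v j) + h` is a
polynomial in `N` variables, `h` has coefficients in the field `F` and its exponents lie in the Newton
polyhedron of the `v j ≠ 0`, and the `a_j` are algebraically independent over `F`, with the local
topological zeta function `topZetaGLocal v R`, computed on the embedded resolution which belongs to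
any smooth fan `R` on which the ideal `(x ^ (v j))_j` becomes principal. -/
inductive StrongLocal : Fam → RatFunc ℂ → Prop
  /-- the unit ideal, near the origin -/
  | unit (A : Fam) (j : A.ι) (hj : constantCoeff (A.f j) ≠ 0) : StrongLocal A 1
  /-- the ideals in the list `Basic` -/
  | basic (A : Fam) (Z : RatFunc ℂ) (h : Basic (fun _ f Z => LocalZeta f 0 1 0 1 Z) A Z) :
      StrongLocal A Z
  /-- principal ideals with very general coefficients -/
  | generic (r N : ℕ) (hr : 1 ≤ r) (F : Subfield ℂ) (v : Fin r → Fin N → ℕ)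
      (hv : Function.Injective v) (hv0 : ∀ j, v j ≠ 0) (h : MvPolynomial (Fin N) F)
      (hh : ∀ w ∈ h.support, NP v w) (a : Fin r → ℂ) (ha : AlgebraicIndependent F a)
      (R : SmoothFan N) (hR : Principal v R) :
      StrongLocal ⟨Fin N, Fin 1, fun _ => sparse v a + MvPolynomial.map (algebraMap F ℂ) h⟩
        (topZetaGLocal v R)

/-- `WeakLocal A Z`: as in `StrongLocal`, with in addition all the principal ideals `(g)`, where
`g = ∑_j a_j x ^ (v j)`, `g(0) = 0`, is a polynomial in `N` variables which is nondegenerate with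
respect to its Newton polytope. -/
inductive WeakLocal : Fam → RatFunc ℂ → Prop
  /-- the germs in `StrongLocal` -/
  | strong (A : Fam) (Z : RatFunc ℂ) (h : StrongLocal A Z) : WeakLocal A Z
  /-- nondegenerate polynomials -/
  | nondeg (r N : ℕ) (hr : 1 ≤ r) (v : Fin r → Fin N → ℕ) (a : Fin r → ℂ)
      (hv : Function.Injective v) (hv0 : ∀ j, v j ≠ 0) (hnd : Nondeg v a) (R : SmoothFan N)
      (hR : Principal v R) : WeakLocal ⟨Fin N, Fin 1, fun _ => sparse v a⟩ (topZetaGLocal v R)

/-- `WeakGlobal A Z`: `A` generates one of the following ideals, and `Z` is its global topological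
zeta function: the ideals in `Basic`, with `PlaneZeta` for the ideals of `ℂ[x, y]`; the
principal ideals `(g)`, where `g = ∑_j a_j x ^ (v j)`, `g(0) = 0`, is a polynomial in `N` variables which
is nondegenerate with respect to its Newton polytope, with the global topological zeta function
`topZetaG v R`, computed on the embedded resolution which belongs to any smooth fan `R` on which the
ideal `(x ^ (v j))_j` becomes principal. -/
inductive WeakGlobal : Fam → RatFunc ℂ → Prop
  /-- the ideals in the list `Basic` -/
  | basic (A : Fam) (Z : RatFunc ℂ) (h : Basic (fun _ f Z => PlaneZeta f Z) A Z) : WeakGlobal A Z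
  /-- nondegenerate polynomials -/
  | nondeg (r N : ℕ) (hr : 1 ≤ r) (v : Fin r → Fin N → ℕ) (a : Fin r → ℂ)
      (hv : Function.Injective v) (hv0 : ∀ j, v j ≠ 0) (hnd : Nondeg v a) (R : SmoothFan N)
      (hR : Principal v R) : WeakGlobal ⟨Fin N, Fin 1, fun _ => sparse v a⟩ (topZetaG v R)

end Pool.Agent.Y229
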