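import Pool.Agent.Y229.SP5

set_option autoImplicit false
set_option linter.unusedSectionVars false
set_option linter.unusedVariables false

/-! # Local motivic zeta functions of sums and products of ideals -/

namespace Pool.Agent.Y229

open MvPolynomial Pool.Agent.W574.MO Pool.Agent.W574.SM Pool.Agent.W574.LM Pool.Agent.W574.HS
  Pool.Agent.W574.RO Pool.Agent.W574.CN

variable {M : Type} [CommRing M] {L : Mˣ}

/-- all the functional equations of an ideal at the origin -/
theorem germ_ideal (A : Fam) (Z : PowerSeries M) (h : Germ L A Z) (c : M) :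
    PowerSeries.C c * Z ∈ DenRing L (fun a n => ∀ b : Polynomial ℂ, IsLocalBI A.f b →
      b.eval (-(n : ℂ) / a) = 0) := by
  classical
  obtain ⟨hfin, -, hm⟩ := germ_main A Z h
  have := hfin
  refine (DenRing L _).mul_mem (C_mem _) (denRing_mono (fun a n _ _ h b hb => ?_)
    (mem_of_tail hm))
  exact SF.localBI h b hb

theorem minus_one_univ {σ ι : Type} [Fintype ι] [DecidableEq ι] (f : ι → MvPolynomial σ ℂ)
    (hf : ∃ j, f j ≠ 0) (b : Polynomial ℂ)
    (hb : Pool.Agent.H628R4.TP.IsLocalBFunction (univ f) b) (hfin : Finite σ) :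
    b.eval (-1) = 0 := by
  classical
  obtain ⟨H, P, hH, hP⟩ := algebraic_of_local (univ f) (univ_ne_zero f hf) b hb
  refine minus_one (univ f) H (univ_ne_zero f hf) ?_ b P hP
  rintro ⟨G, rfl⟩
  rw [map_mul, cc_univ, zero_mul] at hH
  exact hH rfl

/-- all the functional equations of `∑ y_j f_j` at the origin -/
theorem germ_form (A : Fam) (Z : PowerSeries M) (h : Germ L A Z) (c : M) :
    PowerSeries.C c * Z * (PowerSeries.X * geo L 1 1) ∈
      DenRing L (fun a n => ∀ b : Polynomial ℂ,
        Pool.Agent.H628R4.TP.IsLocalBFunction (univ A.f) b → b.eval (-(n : ℂ) / a) = 0) := by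
  classical
  obtain ⟨hfin, hne, hm⟩ := germ_main A Z h
  have := hfin
  refine (DenRing L _).mul_mem ((DenRing L _).mul_mem (C_mem _)
    (denRing_mono (fun a n _ _ h b hb => ?_) (mem_of_tail hm)))
    ((DenRing L _).mul_mem X_mem (geo_mem le_rfl le_rfl fun b hb => ?_))
  · exact SF.univ hne h b hb
  · have := minus_one_univ A.f hne b hb hfin
    rw [Nat.cast_one, div_one]
    exact this

end Pool.Agent.Y229
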