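import Pool.Agent.Y229.LP1
import Pool.Agent.Y229.LPAtoms
import Pool.Agent.Y229.SP6

set_option autoImplicit false
set_option linter.unusedSectionVars false
set_option linter.unusedVariables false

/-! # The building blocks: poles and forced roots -/

namespace Pool.Agent.Y229

open MvPolynomial Pool.Agent.W574.MO Pool.Agent.W574.SM Pool.Agent.W574.LM Pool.Agent.W574.HS
  Pool.Agent.W574.RO Pool.Agent.W574.CN Pool.Agent.W425.SM Pool.Agent.W425.SV Pool.Agent.W422.GC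
  Pool.Agent.W425.ND

/-- from sums over finite sets to sums over `Fin L` -/
theorem exists_fin {α β : Type} (t : Finset α) (g : α → β) :
    ∃ (L : ℕ) (e : Fin L → α), ∀ {γ : Type} [AddCommMonoid γ] (F : α → γ),
      ∑ x ∈ t, F x = ∑ i, F (e i) := by
  classical
  refine ⟨t.card, fun i => (t.equivFin.symm i : α), fun F => ?_⟩
  rw [← Finset.sum_coe_sort t F]
  exact (Equiv.sum_comp t.equivFin.symm fun x : t => F (x : α)).symm

section single

variable {σ : Type}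

theorem single_eq (f H : MvPolynomial σ ℂ) (b : Polynomial ℂ)
    (h : IsLocEq H (fun _ : Fin 1 => f) b) :
    ∃ (L : ℕ) (m : Fin L → ℕ) (Q : Fin L → weyl σ), ∀ s : ℕ,
      H * (C (b.eval (s : ℂ)) * f ^ s) =
        ∑ i, ((s : ℂ) ^ m i) • (Q i : Module.End ℂ (MvPolynomial σ ℂ)) (f ^ (s + 1)) := by
  classical
  obtain ⟨S, P, hS, hP⟩ := h
  obtain ⟨L, e, he⟩ := exists_fin (S.sigma fun c => (P c).support)
    (fun x : (_ : Fin 1 → ℤ) × (Fin 1 →₀ ℕ) => x)
  refine ⟨L, fun i => (e i).2 0, fun i => P (e i).1 (e i).2, fun s => ?_⟩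
  have h1 := hP (fun _ => s)
  simp only [Fin.sum_univ_one, Fin.prod_univ_one] at h1
  rw [h1, ← he (fun x => ((s : ℂ) ^ (x.2 0)) •
    (P x.1 x.2 : Module.End ℂ (MvPolynomial σ ℂ)) (f ^ (s + 1))), Finset.sum_sigma]
  refine Finset.sum_congr rfl fun c hc => ?_
  have hc1 : c 0 = 1 := by
    have := hS c hc
    rwa [Fin.sum_univ_one] at this
  rw [applyAt, Finsupp.sum]
  refine Finset.sum_congr rfl fun β _ => ?_
  have h2 : ((s : ℤ) + c 0).toNat = s + 1 := by rw [hc1]; omega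
  rw [Fin.prod_univ_one, hc1, if_neg (by norm_num), Nat.cast_one, map_one, one_mul, ← hc1, h2]

/-- the functional equation of a principal ideal at the origin -/
theorem localB_of_single (f H : MvPolynomial σ ℂ) (b : Polynomial ℂ) (hH : constantCoeff H ≠ 0)
    (h : IsLocEq H (fun _ : Fin 1 => f) b) : Pool.Agent.H628R4.TP.IsLocalBFunction f b := by
  classical
  obtain ⟨L, m, Q, hQ⟩ := single_eq f H b h
  have hu : MvPowerSeries.constantCoeff (H : MvPowerSeries σ ℂ) ≠ 0 := by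
    rw [← MvPowerSeries.coeff_zero_eq_constantCoeff_apply, MvPolynomial.coeff_coe]
    exact hH
  have hinv := MvPowerSeries.inv_mul_cancel (H : MvPowerSeries σ ℂ) hu
  refine ⟨L, m, fun _ => (H : MvPowerSeries σ ℂ)⁻¹, fun i => ⟨(Q i).1, (Q i).2⟩, fun s => ?_⟩
  have h1 := congrArg (fun q : MvPolynomial σ ℂ => (H : MvPowerSeries σ ℂ)⁻¹ *
    (q : MvPowerSeries σ ℂ)) (hQ s)
  simp only [MvPolynomial.coe_mul, MvPolynomial.coe_C] at h1
  rw [← mul_assoc, hinv, one_mul] at h1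
  rw [h1]
  have h2 : ∀ (t : Finset (Fin L)) (g : Fin L → MvPolynomial σ ℂ),
      ((∑ i ∈ t, g i : MvPolynomial σ ℂ) : MvPowerSeries σ ℂ) =
        ∑ i ∈ t, (g i : MvPowerSeries σ ℂ) := fun t g =>
    map_sum (MvPolynomial.coeToMvPowerSeries.ringHom (σ := σ) (R := ℂ)) g t
  rw [h2, Finset.mul_sum]
  refine Finset.sum_congr rfl fun i _ => ?_
  rw [← C_mul', MvPolynomial.coe_mul, MvPolynomial.coe_C]
  ring

/-- the functional equation of a principal ideal -/
theorem isB_of_single (f : MvPolynomial σ ℂ) (b : Polynomial ℂ)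
    (h : IsFunctionalEq (fun _ : Fin 1 => f) b) : Pool.Agent.H628R4.TP.IsBFunction f b := by
  classical
  obtain ⟨L, m, Q, hQ⟩ := single_eq f 1 b (by
    obtain ⟨S, P, hS, hP⟩ := h
    exact ⟨S, P, hS, fun s => by rw [one_mul]; exact hP s⟩)
  refine ⟨∑ i, Finsupp.single (m i) ⟨(Q i).1, (Q i).2⟩, fun s => ?_⟩
  rw [← one_mul (C _ * f ^ s), hQ s, ← Finsupp.sum_finset_sum_index]
  · refine Finset.sum_congr rfl fun i _ => ?_
    rw [Finsupp.sum_single_index]
    exact smul_zero _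
  · intro a
    exact smul_zero _
  · intro a A B
    rw [← smul_add]
    rfl

end single

section

variable {σ ι : Type} [Fintype ι] [DecidableEq ι]

/-- roots modulo natural numbers -/
theorem sf_shift_of_local (f : ι → MvPolynomial σ ℂ) (p : σ → ℂ) (α : ℂ)
    (h : ∀ (H : MvPolynomial σ ℂ) (b : Polynomial ℂ), b ≠ 0 → IsLocEq H f b → eval p H ≠ 0 →
      ∃ i : ℕ, b.eval (α - i) = 0)
    (hB : ∃ b0 : Polynomial ℂ, b0 ≠ 0 ∧ IsFunctionalEq f b0) : ∃ i : ℕ, SF f p (α - i) := by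
  classical
  by_contra hne
  push Not at hne
  set J : Ideal (Polynomial ℂ) :=
    { carrier := {b | ∃ H : MvPolynomial σ ℂ, eval p H ≠ 0 ∧
        mulB (Polynomial.C H * b.map C) (G0 f) ∈ V f 1}
      zero_mem' := ⟨1, by rw [map_one]; exact one_ne_zero, by
        rw [Polynomial.map_zero, mul_zero]
        have : mulB (0 : Polynomial (MvPolynomial σ ℂ)) (G0 f) = 0 := by
          funext s
          rw [mulB, Polynomial.eval_zero, zero_mul]
          rfl
        rw [this]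
        exact Submodule.zero_mem _⟩
      add_mem' := by
        rintro b b' ⟨H, hH, h1⟩ ⟨H', hH', h1'⟩
        refine ⟨H * H', by rw [map_mul]; exact mul_ne_zero hH hH', ?_⟩
        have e : Polynomial.C (H * H') * (b + b').map C =
            Polynomial.C H' * (Polynomial.C H * b.map C) +
              Polynomial.C H * (Polynomial.C H' * b'.map C) := by
          rw [Polynomial.map_add, map_mul]
          ring
        rw [e, mulB_add, mulB_mul (Polynomial.C H') (Polynomial.C H * b.map C),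
          mulB_mul (Polynomial.C H) (Polynomial.C H' * b'.map C)]
        exact Submodule.add_mem _ (mulB_mem f 1 _ _ h1) (mulB_mem f 1 _ _ h1')
      smul_mem' := by
        rintro c b ⟨H, hH, h1⟩
        refine ⟨H, hH, ?_⟩
        have e : Polynomial.C H * (c • b).map C = c.map C * (Polynomial.C H * b.map C) := by
          rw [smul_eq_mul, Polynomial.map_mul]
          ring
        rw [e, mulB_mul]
        exact mulB_mem f 1 _ _ h1 } with hJ
  obtain ⟨g, hg⟩ := (IsPrincipalIdealRing.principal J).principal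
  have hgJ : g ∈ J := by
    rw [hg]
    exact Submodule.mem_span_singleton_self g
  have hdvd : ∀ b ∈ J, g ∣ b := by
    intro b hb
    rw [hg] at hb
    exact Ideal.mem_span_singleton.1 hb
  obtain ⟨b0, hb0, hfe⟩ := hB
  have hb0J : b0 ∈ J := by
    refine ⟨1, by rw [map_one]; exact one_ne_zero, ?_⟩
    rw [map_one, one_mul]
    exact (functionalEq_iff' f b0).1 hfe
  have hg0 : g ≠ 0 := by
    rintro rfl
    exact hb0 (zero_dvd_iff.1 (hdvd b0 hb0J))
  obtain ⟨H, hH, hgV⟩ := hgJ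
  obtain ⟨i, hi⟩ := h H g hg0 ((isLocEq_iff H f g).2 hgV) hH
  refine hne i (sf_of_local f p _ (fun H' b' hb' hH' => ?_) ⟨b0, hb0, hfe⟩)
  exact Polynomial.eval_eq_zero_of_dvd_of_eval_eq_zero
    (hdvd b' ⟨H', hH', (isLocEq_iff H' f b').1 hb'⟩) hi

/-- roots modulo natural numbers, global -/
theorem forced_shift (f : ι → MvPolynomial σ ℂ) (α : ℂ)
    (h : ∀ b : Polynomial ℂ, b ≠ 0 → IsFunctionalEq f b → ∃ i : ℕ, b.eval (α - i) = 0)
    (hB : ∃ b0 : Polynomial ℂ, b0 ≠ 0 ∧ IsFunctionalEq f b0) : ∃ i : ℕ, Forced f (α - i) := by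
  classical
  set J : Ideal (Polynomial ℂ) :=
    { carrier := {b | mulB (b.map C) (G0 f) ∈ V f 1}
      zero_mem' := by
        change mulB ((0 : Polynomial ℂ).map C) (G0 f) ∈ V f 1
        rw [Polynomial.map_zero]
        have : mulB (0 : Polynomial (MvPolynomial σ ℂ)) (G0 f) = 0 := by
          funext s
          rw [mulB, Polynomial.eval_zero, zero_mul]
          rfl
        rw [this]
        exact Submodule.zero_mem _
      add_mem' := by
        intro b b' h1 h1'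
        change mulB ((b + b').map C) (G0 f) ∈ V f 1
        rw [Polynomial.map_add, mulB_add]
        exact Submodule.add_mem _ h1 h1'
      smul_mem' := by
        intro c b h1
        change mulB ((c • b).map C) (G0 f) ∈ V f 1
        rw [smul_eq_mul, Polynomial.map_mul, mulB_mul]
        exact mulB_mem f 1 _ _ h1 } with hJ
  obtain ⟨g, hg⟩ := (IsPrincipalIdealRing.principal J).principal
  have hgJ : g ∈ J := by
    rw [hg]
    exact Submodule.mem_span_singleton_self g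
  have hdvd : ∀ b ∈ J, g ∣ b := by
    intro b hb
    rw [hg] at hb
    exact Ideal.mem_span_singleton.1 hb
  obtain ⟨b0, hb0, hfe⟩ := hB
  have hb0J : b0 ∈ J := (functionalEq_iff' f b0).1 hfe
  have hg0 : g ≠ 0 := by
    rintro rfl
    exact hb0 (zero_dvd_iff.1 (hdvd b0 hb0J))
  obtain ⟨i, hi⟩ := h g hg0 ((functionalEq_iff' f g).2 hgJ)
  refine ⟨i, fun b hb => ?_⟩
  exact Polynomial.eval_eq_zero_of_dvd_of_eval_eq_zero (hdvd b ((functionalEq_iff' f b).1 hb)) hi

end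

/-- a pole of `c / (d s + n)` -/
theorem fac_pole (c : RatFunc ℂ) (hc : ∀ s, c ∈ Reg s) (d n : ℕ) (hd : 1 ≤ d) (s₀ : ℂ)
    (h : (c * fac d n).denom.eval s₀ = 0) : s₀ = -(n : ℂ) / d := by
  by_contra hne
  refine Reg_denom s₀ _ ((Reg s₀).mul_mem (hc s₀) (fac_mem d n s₀ fun h0 => hne ?_)) h
  have hd0 : (d : ℂ) ≠ 0 := Nat.cast_ne_zero.2 (by omega)
  rw [eq_div_iff hd0]
  linear_combination h0

/-- the ideals in the list `Basic` have forced roots, for all notions of forced roots which are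
satisfied for the ideals of the plane and agree for homogeneous ideals -/
theorem basic_poles (Fo : (A : Fam) → ℂ → Prop)
    (hom : ∀ (A : Fam) (d : ℕ), (∀ j, (A.f j).IsHomogeneous d) → ∀ α, Forced A.f α → Fo A α)
    (LZ : ∀ r : ℕ, (Fin r → MvPolynomial (Fin 2) ℂ) → RatFunc ℂ → Prop)
    (hLZ : ∀ (r : ℕ) (f : Fin r → MvPolynomial (Fin 2) ℂ) (Z : RatFunc ℂ), (∃ j, f j ≠ 0) →
      LZ r f Z → ∀ s₀ : ℂ, Z.denom.eval s₀ = 0 → Fo ⟨Fin 2, Fin r, f⟩ s₀)
    (A : Fam) (Z : RatFunc ℂ) (h : Basic LZ A Z) :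
    Finite A.σ ∧ (∃ j, A.f j ≠ 0) ∧ ∀ s₀ : ℂ, Z.denom.eval s₀ = 0 → Fo A s₀ := by
  classical
  cases h with
  | power m hm =>
    refine ⟨inferInstanceAs (Finite (Fin 1)), ⟨0, pow_ne_zero _ (X_ne_zero _)⟩, fun s₀ hs => ?_⟩
    have h1 := fac_pole 1 (fun s => (Reg s).one_mem) m 1 hm s₀ (by rw [one_mul]; exact hs)
    rw [h1]
    exact hom _ m (fun _ => isHomogeneous_X_pow 0 m) _ (forced_power m hm)
  | plane r f hf Z hZ =>
    exact ⟨inferInstanceAs (Finite (Fin 2)), hf, fun s₀ hs => hLZ r f Z hf hZ s₀ hs⟩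
  | cone r f d hd hf e he Z hZ =>
    refine ⟨inferInstanceAs (Finite (Fin 3)), det_exists f e he, fun s₀ hs => ?_⟩
    exact hom _ d hf _ fun b hb => cone_main f d hd hf b hb Z hZ s₀ hs (Or.inr ⟨e, he⟩)
  | free n r f d hd hf h0 e he =>
    refine ⟨inferInstanceAs (Finite (Fin (n + 1))), det_exists f e he, fun s₀ hs => ?_⟩
    have h1 := fac_pole ((n + 1 : ℕ) : RatFunc ℂ) (fun s => by
      have := C_reg s ((n + 1 : ℕ) : ℂ)
      rwa [map_natCast] at this) d (n + 1) hd s₀ hs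
    rw [h1]
    refine hom _ d hf _ fun b hb => ?_
    have h2 := generic_root f d hd hf b hb e he
    push_cast
    exact h2

theorem pole_dvd (b P : Polynomial ℂ) (Z : RatFunc ℂ)
    (h : algebraMap (Polynomial ℂ) (RatFunc ℂ) b * Z = algebraMap (Polynomial ℂ) (RatFunc ℂ) P)
    (s₀ : ℂ) (hs : Z.denom.eval s₀ = 0) : b.eval s₀ = 0 := by
  by_contra hne
  refine Reg_denom s₀ Z ⟨P, b, hne, ?_⟩ hs
  have hb0 : algebraMap (Polynomial ℂ) (RatFunc ℂ) b ≠ 0 := by
    rw [Ne, map_eq_zero_iff _ (IsFractionRing.injective (Polynomial ℂ) (RatFunc ℂ))]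
    rintro rfl
    exact hne Polynomial.eval_zero
  rw [← h]
  field_simp

theorem plane_local (r : ℕ) (f : Fin r → MvPolynomial (Fin 2) ℂ) (Z : RatFunc ℂ)
    (hf : ∃ j, f j ≠ 0) (hZ : LocalZeta f 0 1 0 1 Z) (s₀ : ℂ) (hs : Z.denom.eval s₀ = 0) :
    FoL ⟨Fin 2, Fin r, f⟩ s₀ := by
  classical
  refine sf_of_local f 0 s₀ (fun H b hb hH => ?_) (exists_fe f hf)
  exact point_main f b H hb 0 hH Z (by rw [translate_zero]; exact hZ) s₀ hs

theorem denom_one_eval (s : ℂ) : (1 : RatFunc ℂ).denom.eval s ≠ 0 :=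
  Reg_denom s _ (Reg s).one_mem

theorem strongLocal_poles (A : Fam) (Z : RatFunc ℂ) (h : StrongLocal A Z) :
    (∃ j, A.f j ≠ 0) ∧ ∀ s₀ : ℂ, Z.denom.eval s₀ = 0 → FoL A s₀ := by
  classical
  cases h with
  | unit _ j hj =>
    exact ⟨⟨j, fun h => hj (by rw [h, map_zero])⟩, fun s₀ hs => absurd hs (denom_one_eval s₀)⟩
  | basic _ _ h =>
    exact (basic_poles FoL (fun A d hd α hα => sf_of_homog A.f d hd α hα) _ plane_local A Z h).2
  | generic r N hr F v hv hv0 h hh a ha R hR =>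
    obtain ⟨g, hg, h1⟩ := Pool.Agent.W425.GN.gen_topL hr v hv hv0 h hh
    have hga : aeval a g ≠ 0 := fun h0 => hg (ha (by rw [h0, map_zero]))
    obtain ⟨g', hg', h1'⟩ := Pool.Agent.W425.GN.gen_ne (show 0 < r by omega) v hv h
    have hga' : aeval a g' ≠ 0 := fun h0 => hg' (ha (by rw [h0, map_zero]))
    have hne : (sparse v a + MvPolynomial.map (algebraMap F ℂ) h) ≠ 0 := h1' a hga'
    refine ⟨⟨0, hne⟩, fun s₀ hs => ?_⟩
    refine sf_of_local _ 0 s₀ (fun H b hb hH => ?_) (exists_fe _ ⟨0, hne⟩)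
    obtain ⟨P, hP⟩ := (h1 a hga).2 b (localB_of_single _ H b (by
      rw [MvPolynomial.eval_zero] at hH
      exact hH) hb) R hR
    exact pole_dvd b P _ hP s₀ hs

theorem weakLocal_poles (A : Fam) (Z : RatFunc ℂ) (h : WeakLocal A Z) :
    (∃ j, A.f j ≠ 0) ∧ ∀ s₀ : ℂ, Z.denom.eval s₀ = 0 → ∃ i : ℕ, FoL A (s₀ - i) := by
  classical
  cases h with
  | strong _ _ h =>
    obtain ⟨h1, h2⟩ := strongLocal_poles A Z h
    exact ⟨h1, fun s₀ hs => ⟨0, by rw [Nat.cast_zero, sub_zero]; exact h2 s₀ hs⟩⟩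
  | nondeg r N hr v a hv hv0 hnd R hR =>
    have : NeZero r := ⟨by omega⟩
    have hne : sparse v a ≠ 0 := spa_ne_zero hv a hnd
    refine ⟨⟨0, hne⟩, fun s₀ hs => ?_⟩
    refine sf_shift_of_local _ 0 s₀ (fun H b hb0 hb hH => ?_) (exists_fe _ ⟨0, hne⟩)
    obtain ⟨h1, K, P, hP⟩ := local_of parts hr v a hv hv0 hnd R hR b (localB_of_single _ H b (by
      rw [MvPolynomial.eval_zero] at hH
      exact hH) hb)
    exact pole_of b hb0 h1 _ K P hP s₀ hs

theorem weakGlobal_poles (A : Fam) (Z : RatFunc ℂ) (h : WeakGlobal A Z) :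
    (∃ j, A.f j ≠ 0) ∧ ∀ s₀ : ℂ, Z.denom.eval s₀ = 0 → ∃ i : ℕ, FoG A (s₀ - i) := by
  classical
  cases h with
  | basic _ _ h =>
    obtain ⟨-, h1, h2⟩ := basic_poles FoG (fun A d hd α hα => hα) _
      (fun r f Z hf hZ s₀ hs b hb => plane_main f b hb Z hZ s₀ hs) A Z h
    exact ⟨h1, fun s₀ hs => ⟨0, by rw [Nat.cast_zero, sub_zero]; exact h2 s₀ hs⟩⟩
  | nondeg r N hr v a hv hv0 hnd R hR =>
    have : NeZero r := ⟨by omega⟩
    have hne : sparse v a ≠ 0 := spa_ne_zero hv a hnd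
    refine ⟨⟨0, hne⟩, fun s₀ hs => ?_⟩
    refine forced_shift _ s₀ (fun b hb0 hb => ?_) (exists_fe _ ⟨0, hne⟩)
    obtain ⟨h1, K, P, hP⟩ := global_of parts hr v a hv hv0 hnd R hR b (isB_of_single _ b hb)
    exact pole_of b hb0 h1 _ K P hP s₀ hs

/-- natural numbers in `ℂ` -/
def natC : AddSubmonoid ℂ := AddMonoidHom.mrange (Nat.castAddMonoidHom ℂ)

theorem mem_natC (t : ℂ) : t ∈ natC ↔ ∃ i : ℕ, (i : ℂ) = t := by
  rw [natC, AddMonoidHom.mem_mrange]
  rfl

theorem pole_form (Z' : RatFunc ℂ) (s₀ : ℂ) (hs : (Z' * (RatFunc.X + 1)⁻¹).denom.eval s₀ = 0) :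
    Z'.denom.eval s₀ = 0 ∨ s₀ = -1 := by
  by_contra h
  push Not at h
  refine Reg_denom s₀ _ ((Reg s₀).mul_mem (mem_Reg_of_denom _ _ h.1) ?_) hs
  have := inv_reg s₀ 1 h.2
  rwa [map_one] at this

/-- the strong monodromy conjecture at the origin -/
theorem strong_local (A : Fam) [Finite A.σ] (Z' : RatFunc ℂ) (h : TopSP StrongLocal A Z')
    (b : Polynomial ℂ) (hb : Pool.Agent.H628R4.TP.IsLocalBFunction (univ A.f) b) (s₀ : ℂ)
    (hs : (Z' * (RatFunc.X + 1)⁻¹).denom.eval s₀ = 0) : b.eval s₀ = 0 := by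
  classical
  obtain ⟨hne, h1⟩ := top_closure FoL isForcing_local ⊥ StrongLocal (fun A Z h => by
    obtain ⟨h1, h2⟩ := strongLocal_poles A Z h
    exact ⟨h1, fun s hs => ⟨0, AddSubmonoid.zero_mem _, by rw [sub_zero]; exact h2 s hs⟩⟩) A Z' h
  rcases pole_form Z' s₀ hs with h2 | rfl
  · obtain ⟨t, ht, h3⟩ := h1 s₀ h2
    rw [AddSubmonoid.mem_bot] at ht
    rw [ht, sub_zero] at h3
    exact SF.univ hne h3 b hb
  · exact minus_one_univ A.f hne b hb inferInstance

/-- the weak monodromy conjecture at the origin -/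
theorem weak_local (A : Fam) [Finite A.σ] (Z' : RatFunc ℂ) (h : TopSP WeakLocal A Z')
    (b : Polynomial ℂ) (hb : Pool.Agent.H628R4.TP.IsLocalBFunction (univ A.f) b) (s₀ : ℂ)
    (hs : (Z' * (RatFunc.X + 1)⁻¹).denom.eval s₀ = 0) : ∃ i : ℕ, b.eval (s₀ - i) = 0 := by
  classical
  obtain ⟨hne, h1⟩ := top_closure FoL isForcing_local natC WeakLocal (fun A Z h => by
    obtain ⟨h1, h2⟩ := weakLocal_poles A Z h
    refine ⟨h1, fun s hs => ?_⟩
    obtain ⟨i, hi⟩ := h2 s hs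
    exact ⟨i, (mem_natC _).2 ⟨i, rfl⟩, hi⟩) A Z' h
  rcases pole_form Z' s₀ hs with h2 | rfl
  · obtain ⟨t, ht, h3⟩ := h1 s₀ h2
    obtain ⟨i, rfl⟩ := (mem_natC _).1 ht
    exact ⟨i, SF.univ hne h3 b hb⟩
  · exact ⟨0, by rw [Nat.cast_zero, sub_zero]; exact minus_one_univ A.f hne b hb inferInstance⟩

/-- the weak monodromy conjecture -/
theorem weak_global (A : Fam) (Z' : RatFunc ℂ) (h : TopSP WeakGlobal A Z')
    (b : Polynomial ℂ) (hb : Pool.Agent.H628R4.TP.IsBFunction (univ A.f) b) (s₀ : ℂ)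
    (hs : (Z' * (RatFunc.X + 1)⁻¹).denom.eval s₀ = 0) : ∃ i : ℕ, b.eval (s₀ - i) = 0 := by
  classical
  obtain ⟨hne, h1⟩ := top_closure FoG isForcing_global natC WeakGlobal (fun A Z h => by
    obtain ⟨h1, h2⟩ := weakGlobal_poles A Z h
    refine ⟨h1, fun s hs => ?_⟩
    obtain ⟨i, hi⟩ := h2 s hs
    exact ⟨i, (mem_natC _).2 ⟨i, rfl⟩, hi⟩) A Z' h
  rcases pole_form Z' s₀ hs with h2 | rfl
  · obtain ⟨t, ht, h3⟩ := h1 s₀ h2
    obtain ⟨i, rfl⟩ := (mem_natC _).1 ht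
    exact ⟨i, h3 b (functionalEq_of_univ A.f b hb)⟩
  · refine ⟨0, ?_⟩
    rw [Nat.cast_zero, sub_zero]
    obtain ⟨P, hP⟩ := hb
    exact minus_one (univ A.f) 1 (univ_ne_zero A.f hne) (univ_not_unit A.f) b P fun s => by
      rw [one_mul]
      exact hP s

end Pool.Agent.Y229
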