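import Pool.Agent.Y229.LP2
import Pool.Agent.TH192.DT.Pow

set_option autoImplicit false
set_option linter.unusedSectionVars false
set_option linter.unusedVariables false

/-! # Products of powers of forms -/

namespace Pool.Agent.Y229

open MvPolynomial Pool.Agent.W574.MO Pool.Agent.W574.SM Pool.Agent.W574.LM Pool.Agent.W574.HS
  Pool.Agent.W574.RO Pool.Agent.W574.CN Pool.Agent.TH192.DT

/-- The product `∏ t, I_t ^ a t` of powers of the ideals `I_t = (f_{t, j})_j`, generated by the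
products of one `f_{t, j}` for each `t` and each `l < a t`. -/
noncomputable def powFam {σ T : Type} [Fintype T] [DecidableEq T] {κ : T → Type}
    [∀ t, Fintype (κ t)] (a : T → ℕ) (f : (t : T) → κ t → MvPolynomial σ ℂ) : Fam :=
  ⟨σ, (q : Σ t, Fin (a t)) → κ q.1, prodFam fun q : Σ t, Fin (a t) => f q.1⟩

section

variable {σ T : Type} [Fintype T] [DecidableEq T] {κ : T → Type} [∀ t, Fintype (κ t)]

theorem fe_of_locEq {ι : Type} [Fintype ι] (H : MvPolynomial σ ℂ) (hH : H = 1)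
    (g : ι → MvPolynomial σ ℂ) (b : Polynomial ℂ) (h : IsLocEq H g b) : IsFunctionalEq g b := by
  subst hH
  obtain ⟨S, P', h4, h5⟩ := h
  refine ⟨S, P', h4, fun s => ?_⟩
  rw [← h5 s, one_mul]

theorem powFam_ne (a : T → ℕ) (ha : ∀ t, 1 ≤ a t) (f : (t : T) → κ t → MvPolynomial σ ℂ)
    (h : ∃ j, (powFam a f).f j ≠ 0) : ∀ t, ∃ j, f t j ≠ 0 := by
  obtain ⟨j, hj⟩ := h
  intro t
  have h1 : ∏ q : Σ t, Fin (a t), f q.1 (j q) ≠ 0 := hj
  exact ⟨_, Finset.prod_ne_zero_iff.1 h1 ⟨t, ⟨0, ha t⟩⟩ (Finset.mem_univ _)⟩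

theorem prod_fac_pole (a : T → ℕ) (ha : ∀ t, 1 ≤ a t) (Z' : RatFunc ℂ) (s₀ : ℂ)
    (hs : (Z' * ∏ t, fac (a t) 1).denom.eval s₀ = 0) :
    Z'.denom.eval s₀ = 0 ∨ ∃ t, s₀ = -(1 + ((0 : ℕ) : ℂ)) / a t := by
  by_contra h
  push Not at h
  refine Reg_denom s₀ _ ((Reg s₀).mul_mem (mem_Reg_of_denom _ _ h.1)
    (Subring.prod_mem _ fun t _ => fac_mem _ _ _ fun h0 => h.2 t ?_)) hs
  have hd0 : (a t : ℂ) ≠ 0 := Nat.cast_ne_zero.2 (by have := ha t; omega)
  rw [eq_div_iff hd0]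
  push_cast at h0 ⊢
  linear_combination h0

/-- **Products of powers of forms: the global weak conjecture, with all twists.** -/
theorem weak_global_pow [Finite σ] (a : T → ℕ) (ha : ∀ t, 1 ≤ a t) [Nonempty T]
    (f : (t : T) → κ t → MvPolynomial σ ℂ) (Z' : RatFunc ℂ) (h : TopSP WeakGlobal (powFam a f) Z')
    (b : Polynomial ℂ) (hb : Pool.Agent.H628R4.TP.IsBFunction (powProd a f) b)
    (s₀ : ℂ) (hs : (Z' * ∏ t, fac (a t) 1).denom.eval s₀ = 0) : ∃ i : ℕ, b.eval (s₀ - i) = 0 := by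
  classical
  have : Fintype σ := Fintype.ofFinite σ
  obtain ⟨hne, h1⟩ := top_closure FoG isForcing_global natC WeakGlobal (fun A Z h => by
    obtain ⟨h1, h2⟩ := weakGlobal_poles A Z h
    refine ⟨h1, fun s hs => ?_⟩
    obtain ⟨i, hi⟩ := h2 s hs
    exact ⟨i, (mem_natC _).2 ⟨i, rfl⟩, hi⟩) _ Z' h
  have hf := powFam_ne a ha f hne
  rcases prod_fac_pole a ha Z' s₀ hs with h2 | ⟨t, rfl⟩
  · obtain ⟨u, hu, h3⟩ := h1 s₀ h2
    obtain ⟨i, rfl⟩ := (mem_natC _).1 hu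
    refine ⟨i, h3 b ?_⟩
    obtain ⟨P, hP⟩ := hb
    obtain ⟨t0⟩ := (inferInstance : Nonempty T)
    exact fe_of_locEq (hat 1 0) (by rw [hat_one, if_pos rfl]) _ b
      (locEq_of_powProd a f t0 (by have := ha t0; omega) b 1 P fun s => by
        rw [one_mul]
        exact hP s)
  · refine ⟨0, ?_⟩
    have h2 := (powData_global a f hf b hb).strict t 0 (by have := ha t; omega)
    simpa using h2

/-- **Products of powers of forms at the origin: the strong conjecture.** -/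
theorem strong_local_pow [Finite σ] (a : T → ℕ) (ha : ∀ t, 1 ≤ a t) [Nonempty T]
    (f : (t : T) → κ t → MvPolynomial σ ℂ) (Z' : RatFunc ℂ) (h : TopSP StrongLocal (powFam a f) Z')
    (b : Polynomial ℂ) (hb : Pool.Agent.H628R4.TP.IsLocalBFunction (powProd a f) b)
    (s₀ : ℂ) (hs : (Z' * ∏ t, fac (a t) 1).denom.eval s₀ = 0) : b.eval s₀ = 0 := by
  classical
  have : Fintype σ := Fintype.ofFinite σ
  obtain ⟨hne, h1⟩ := top_closure FoL isForcing_local ⊥ StrongLocal (fun A Z h => by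
    obtain ⟨h1, h2⟩ := strongLocal_poles A Z h
    exact ⟨h1, fun s hs => ⟨0, AddSubmonoid.zero_mem _, by rw [sub_zero]; exact h2 s hs⟩⟩) _ Z' h
  have hf := powFam_ne a ha f hne
  have hP := powData_local a f hf b hb
  rcases prod_fac_pole a ha Z' s₀ hs with h2 | ⟨t, rfl⟩
  · obtain ⟨u, hu, h3⟩ := h1 s₀ h2
    rw [AddSubmonoid.mem_bot] at hu
    rw [hu, sub_zero] at h3
    obtain ⟨t0⟩ := (inferInstance : Nonempty T)
    obtain ⟨H, hH, hloc⟩ := hP.ideal ⟨t0, by have := ha t0; omega⟩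
    exact SF.locEq h3 H b hloc (by rw [MvPolynomial.eval_zero]; exact hH)
  · exact hP.strict t 0 (by have := ha t; omega)

/-- **Products of powers of forms at the origin: the weak conjecture.** -/
theorem weak_local_pow [Finite σ] (a : T → ℕ) (ha : ∀ t, 1 ≤ a t) [Nonempty T]
    (f : (t : T) → κ t → MvPolynomial σ ℂ) (Z' : RatFunc ℂ) (h : TopSP WeakLocal (powFam a f) Z')
    (b : Polynomial ℂ) (hb : Pool.Agent.H628R4.TP.IsLocalBFunction (powProd a f) b)
    (s₀ : ℂ) (hs : (Z' * ∏ t, fac (a t) 1).denom.eval s₀ = 0) : ∃ i : ℕ, b.eval (s₀ - i) = 0 := by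
  classical
  have : Fintype σ := Fintype.ofFinite σ
  obtain ⟨hne, h1⟩ := top_closure FoL isForcing_local natC WeakLocal (fun A Z h => by
    obtain ⟨h1, h2⟩ := weakLocal_poles A Z h
    refine ⟨h1, fun s hs => ?_⟩
    obtain ⟨i, hi⟩ := h2 s hs
    exact ⟨i, (mem_natC _).2 ⟨i, rfl⟩, hi⟩) _ Z' h
  have hf := powFam_ne a ha f hne
  have hP := powData_local a f hf b hb
  rcases prod_fac_pole a ha Z' s₀ hs with h2 | ⟨t, rfl⟩
  · obtain ⟨u, hu, h3⟩ := h1 s₀ h2
    obtain ⟨i, rfl⟩ := (mem_natC _).1 hu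
    obtain ⟨t0⟩ := (inferInstance : Nonempty T)
    obtain ⟨H, hH, hloc⟩ := hP.ideal ⟨t0, by have := ha t0; omega⟩
    exact ⟨i, SF.locEq h3 H b hloc (by rw [MvPolynomial.eval_zero]; exact hH)⟩
  · refine ⟨0, ?_⟩
    have h2 := hP.strict t 0 (by have := ha t; omega)
    simpa using h2

end

end Pool.Agent.Y229
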