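import Pool.Agent.Y231.N4.RC
import Pool.Agent.TH216.LX.N1

/-!
# Nondegenerate polynomials in four variables: from the vertices to all exponents

The certificates for roots (`NonB`, `CircP`, `PntP`) on a facet of the Newton polyhedron pass from the
family `v` of the vertices to the family `m` of all exponents.
-/

set_option autoImplicit false

namespace Pool.Agent.Y229.N4W

open Pool.Agent.Y231.N4
open Pool.Agent.W425.MM (NonB NB)
open Pool.Agent.W426.SM (gord face IsRay)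
open Pool.Agent.TH216.LX (nonB_of)

variable {R r N : ℕ}

/-- `v` is a subfamily of `m`, and all `m j` are in the Newton polyhedron of the `v i`. -/
structure Sub (m : Fin R → Fin N → ℕ) (v : Fin r → Fin N → ℕ) (ι : Fin r → Fin R) : Prop where
  inj : Function.Injective ι
  eq : ∀ i, m (ι i) = v i
  hull : ∀ j, ∃ l : Fin r → ℝ, (∀ i, 0 ≤ l i) ∧ ∑ i, l i = 1 ∧
    ∀ x, ∑ i, l i * (v i x : ℝ) ≤ (m j x : ℝ)

variable {m : Fin R → Fin N → ℕ} {v : Fin r → Fin N → ℕ} {ι : Fin r → Fin R}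

/-- extension by zero -/
noncomputable def pu (ι : Fin r → Fin R) (s : Fin r → ℚ) : Fin R → ℚ := Function.extend ι s 0

lemma pu_in (hS : Sub m v ι) (s : Fin r → ℚ) (i : Fin r) : pu ι s (ι i) = s i :=
  hS.inj.extend_apply _ _ _

lemma pu_out (s : Fin r → ℚ) (j : Fin R) (hj : ∀ i, ι i ≠ j) : pu ι s j = 0 :=
  Function.extend_apply' _ _ _ (fun ⟨i, hi⟩ => hj i hi)

lemma sumR (hS : Sub m v ι) {w : Fin R → ℚ} (hw : ∀ j, (∀ i, ι i ≠ j) → w j = 0)
    (g : Fin R → ℚ) : ∑ j, w j * g j = ∑ i, w (ι i) * g (ι i) := by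
  classical
  rw [← Finset.sum_image (s := Finset.univ) (g := ι) (f := fun j => w j * g j)
    (fun i _ i' _ h => hS.inj h)]
  symm
  refine Finset.sum_subset (Finset.subset_univ _) fun j _ hj => ?_
  rw [hw j (fun i hi => hj (Finset.mem_image.2 ⟨i, Finset.mem_univ i, hi⟩)), zero_mul]

lemma sum_pu (hS : Sub m v ι) (s : Fin r → ℚ) (g : Fin R → ℚ) :
    ∑ j, pu ι s j * g j = ∑ i, s i * g (ι i) := by
  rw [sumR hS (fun j hj => pu_out s j hj)]
  exact Finset.sum_congr rfl fun i _ => by rw [pu_in hS]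

/-- the image of a set of indices -/
def im (hS : Sub m v ι) (D : Finset (Fin r)) : Finset (Fin R) := D.map ⟨ι, hS.inj⟩

lemma mem_im (hS : Sub m v ι) {D : Finset (Fin r)} {i : Fin r} : ι i ∈ im hS D ↔ i ∈ D := by
  unfold im
  simp only [Finset.mem_map, Function.Embedding.coeFn_mk]
  exact ⟨fun ⟨i', h1, h2⟩ => hS.inj h2 ▸ h1, fun h => ⟨i, h, rfl⟩⟩

lemma of_im (hS : Sub m v ι) {D : Finset (Fin r)} {j : Fin R} (hj : j ∈ im hS D) :
    ∃ i ∈ D, ι i = j := by
  unfold im at hj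
  simpa only [Finset.mem_map, Function.Embedding.coeFn_mk] using hj

lemma off_im (hS : Sub m v ι) {D : Finset (Fin r)} {w : Fin R → ℚ}
    (hw : ∀ j, j ∉ im hS D → w j = 0) : ∀ j, (∀ i, ι i ≠ j) → w j = 0 := fun j hj =>
  hw j fun h => by
    obtain ⟨i, -, hi⟩ := of_im hS h
    exact hj i hi

/-- the orders agree -/
lemma gord_sub (hr : 0 < r) (hS : Sub m v ι) (a : Fin N → ℕ) : gord m a = gord v a := by
  have hR : 0 < R := lt_of_le_of_lt (Nat.zero_le _) (ι ⟨0, hr⟩).2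
  refine le_antisymm ?_ ?_
  · obtain ⟨i, hi⟩ := Pool.Agent.W803.SM.exists_gord hr v a
    rw [← hi, ← hS.eq]
    exact Pool.Agent.W803.SM.gord_le m a _
  · obtain ⟨j, hj⟩ := Pool.Agent.W803.SM.exists_gord hR m a
    obtain ⟨l, h1, h2, h3⟩ := hS.hull j
    rw [← hj]
    have h4 : (gord v a : ℝ) ≤ ((∑ x, a x * m j x : ℕ) : ℝ) := by
      calc (gord v a : ℝ) = ∑ i, l i * (gord v a : ℝ) := by rw [← Finset.sum_mul, h2, one_mul]
        _ ≤ ∑ i, l i * ((∑ x, a x * v i x : ℕ) : ℝ) := Finset.sum_le_sum fun i _ =>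
          mul_le_mul_of_nonneg_left (by exact_mod_cast Pool.Agent.W803.SM.gord_le v a i) (h1 i)
        _ = ∑ x, (a x : ℝ) * ∑ i, l i * (v i x : ℝ) := by
          push_cast
          simp only [Finset.mul_sum]
          rw [Finset.sum_comm]
          exact Finset.sum_congr rfl fun x _ => Finset.sum_congr rfl fun i _ => by ring
        _ ≤ ∑ x, (a x : ℝ) * (m j x : ℝ) := Finset.sum_le_sum fun x _ =>
          mul_le_mul_of_nonneg_left (h3 x) (by positivity)
        _ = _ := by push_cast; rfl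
    exact_mod_cast h4

lemma face_sub (hr : 0 < r) (hS : Sub m v ι) (a : Fin N → ℕ) (i : Fin r) :
    face m a (ι i) ↔ face v a i := by
  unfold face
  rw [gord_sub hr hS, hS.eq]

lemma htA_sub (hS : Sub m v ι) (a : Fin N → ℕ) (i : Fin r) : htA m a (ι i) = htA v a i := by
  unfold htA
  rw [hS.eq]

/-- a point of the face is above a convex combination of the vertices on the face -/
lemma on_face (hr : 0 < r) (hS : Sub m v ι) (a : Fin N → ℕ) (j : Fin R) (hj : face m a j) :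
    ∃ l : Fin r → ℝ, (∀ i, 0 ≤ l i) ∧ ∑ i, l i = 1 ∧ (∀ i, l i ≠ 0 → face v a i) ∧
      (∀ x, a x ≠ 0 → ∑ i, l i * (v i x : ℝ) = (m j x : ℝ)) ∧
      ∀ x, ∑ i, l i * (v i x : ℝ) ≤ (m j x : ℝ) := by
  obtain ⟨l, h1, h2, h3⟩ := hS.hull j
  have hj' : ((∑ x, a x * m j x : ℕ) : ℝ) = gord v a := by
    rw [← gord_sub hr hS]
    exact_mod_cast hj
  have e1 : ∑ i, l i * ((∑ x, a x * v i x : ℕ) : ℝ) = ∑ x, (a x : ℝ) * ∑ i, l i * (v i x : ℝ) := by
    push_cast
    simp only [Finset.mul_sum]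
    rw [Finset.sum_comm]
    exact Finset.sum_congr rfl fun x _ => Finset.sum_congr rfl fun i _ => by ring
  have e2 : (gord v a : ℝ) = ∑ i, l i * (gord v a : ℝ) := by rw [← Finset.sum_mul, h2, one_mul]
  have l1 : ∀ i, 0 ≤ l i * (((∑ x, a x * v i x : ℕ) : ℝ) - gord v a) := fun i =>
    mul_nonneg (h1 i) (sub_nonneg.2 (by exact_mod_cast Pool.Agent.W803.SM.gord_le v a i))
  have l2 : ∀ x, 0 ≤ (a x : ℝ) * ((m j x : ℝ) - ∑ i, l i * (v i x : ℝ)) := fun x =>
    mul_nonneg (by positivity) (sub_nonneg.2 (h3 x))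
  have s1 : ∑ i, l i * (((∑ x, a x * v i x : ℕ) : ℝ) - gord v a) =
      ∑ x, (a x : ℝ) * ∑ i, l i * (v i x : ℝ) - gord v a := by
    rw [← e1]
    simp only [mul_sub, Finset.sum_sub_distrib]
    rw [← e2]
  have s2 : ∑ x, (a x : ℝ) * ((m j x : ℝ) - ∑ i, l i * (v i x : ℝ)) =
      gord v a - ∑ x, (a x : ℝ) * ∑ i, l i * (v i x : ℝ) := by
    rw [← hj']
    push_cast
    simp only [mul_sub, Finset.sum_sub_distrib]
  have t1 : 0 ≤ ∑ i, l i * (((∑ x, a x * v i x : ℕ) : ℝ) - gord v a) :=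
    Finset.sum_nonneg fun i _ => l1 i
  have t2 : 0 ≤ ∑ x, (a x : ℝ) * ((m j x : ℝ) - ∑ i, l i * (v i x : ℝ)) :=
    Finset.sum_nonneg fun x _ => l2 x
  have z1 : ∑ i, l i * (((∑ x, a x * v i x : ℕ) : ℝ) - gord v a) = 0 := by linarith
  have z2 : ∑ x, (a x : ℝ) * ((m j x : ℝ) - ∑ i, l i * (v i x : ℝ)) = 0 := by linarith
  refine ⟨l, h1, h2, fun i hi => ?_, fun x hx => ?_, h3⟩
  · have h4 := (Finset.sum_eq_zero_iff_of_nonneg fun i _ => l1 i).1 z1 i (Finset.mem_univ i)
    rcases mul_eq_zero.1 h4 with h5 | h5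
    · exact absurd h5 hi
    · unfold face
      have h6 : ((∑ x, a x * v i x : ℕ) : ℝ) = gord v a := by linarith
      exact_mod_cast h6
  · have h4 := (Finset.sum_eq_zero_iff_of_nonneg fun x _ => l2 x).1 z2 x (Finset.mem_univ x)
    rcases mul_eq_zero.1 h4 with h5 | h5
    · exact absurd (by exact_mod_cast h5) hx
    · linarith

lemma htA_real (v : Fin r → Fin N → ℕ) (a : Fin N → ℕ) (i : Fin r) :
    ((htA v a i : ℚ) : ℝ) = ∑ x, if a x = 0 then (v i x : ℝ) else 0 := by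
  unfold htA
  push_cast
  refine Finset.sum_congr rfl fun x _ => ?_
  split_ifs <;> simp

/-- linear inequalities pass to all the points of the face -/
lemma ext_ineq (hr : 0 < r) (hS : Sub m v ι) (a : Fin N → ℕ) (A : ℚ) (hA : 0 ≤ A)
    (w : {x // a x ≠ 0} → ℚ)
    (h : ∀ i, face v a i → 0 ≤ A * htA v a i + ∑ x, w x * (v i x.1 : ℚ)) (j : Fin R)
    (hj : face m a j) : 0 ≤ A * htA m a j + ∑ x, w x * (m j x.1 : ℚ) := by
  obtain ⟨l, h1, h2, h3, h4, h5⟩ := on_face hr hS a j hj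
  have hR : ∀ i, 0 ≤ l i * ((A : ℝ) * (htA v a i : ℝ) + ∑ x, (w x : ℝ) * (v i x.1 : ℝ)) := by
    intro i
    by_cases hi : l i = 0
    · rw [hi, zero_mul]
    · refine mul_nonneg (h1 i) ?_
      have := h i (h3 i hi)
      exact_mod_cast this
  have hsum := Finset.sum_nonneg fun (i : Fin r) (_ : i ∈ Finset.univ) => hR i
  have e1 : ∑ i, l i * ((A : ℝ) * (htA v a i : ℝ) + ∑ x, (w x : ℝ) * (v i x.1 : ℝ)) =
      (A : ℝ) * ∑ i, l i * (htA v a i : ℝ) + ∑ x : {x // a x ≠ 0}, (w x : ℝ) * (m j x.1 : ℝ) := by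
    simp only [mul_add, Finset.sum_add_distrib]
    congr 1
    · rw [Finset.mul_sum]
      exact Finset.sum_congr rfl fun i _ => by ring
    · simp only [Finset.mul_sum]
      rw [Finset.sum_comm]
      refine Finset.sum_congr rfl fun x _ => ?_
      rw [← h4 x.1 x.2, Finset.mul_sum]
      exact Finset.sum_congr rfl fun i _ => by ring
  have e2 : ∑ i, l i * (htA v a i : ℝ) ≤ (htA m a j : ℝ) := by
    simp only [htA_real]
    simp only [Finset.mul_sum]
    rw [Finset.sum_comm]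
    refine Finset.sum_le_sum fun x _ => ?_
    by_cases hx : a x = 0
    · simp only [if_pos hx]
      exact h5 x
    · simp only [if_neg hx, mul_zero, Finset.sum_const_zero]
      exact le_rfl
  rw [e1] at hsum
  have hA' : (0 : ℝ) ≤ A := by exact_mod_cast hA
  have h6 : (0 : ℝ) ≤ (A : ℝ) * (htA m a j : ℝ) + ∑ x : {x // a x ≠ 0}, (w x : ℝ) * (m j x.1 : ℝ) :=
    le_trans hsum (add_le_add_left (mul_le_mul_of_nonneg_left e2 hA') _)
  exact_mod_cast h6


/-! ### Dual functionals -/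

section
variable {a : Fin N → ℕ} {D : Finset (Fin r)}

/-- the rows of the independent set -/
def rw' (v : Fin r → Fin N → ℕ) (a : Fin N → ℕ) : Fin r → {x // a x ≠ 0} → ℚ :=
  fun j x => (v j x.1 : ℚ)

/-- the data of a basis of the face -/
structure Bas (v : Fin r → Fin N → ℕ) (a : Fin N → ℕ) (D : Finset (Fin r))
    (f : Fin r → {x // a x ≠ 0} → ℚ) : Prop where
  dual : ∀ j ∈ D, ∀ j' ∈ D, ∑ x, f j x * rw' v a j' x = if j' = j then 1 else 0
  full : ∀ l, ∀ x, ∑ j, cf (rw' v a) f D l j * rw' v a j x = rw' v a l x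

lemma exists_bas (hcard : D.card = (Finset.univ.filter fun i => a i ≠ 0).card)
    (hind : ∀ w : Fin r → ℚ, (∀ j, j ∉ D → w j = 0) →
      (∀ i, a i ≠ 0 → ∑ j, w j * (v j i : ℚ) = 0) → ∀ j, w j = 0) :
    ∃ f, Bas v a D f := by
  classical
  have hind' : ∀ w : Fin r → ℚ, (∀ j, j ∉ D → w j = 0) →
      (∀ i, ∑ j, w j * rw' v a j i = 0) → ∀ j, w j = 0 :=
    fun w hw h => hind w hw fun i hi => h ⟨i, hi⟩
  obtain ⟨f, hf⟩ := dualF (rw' v a) D hind'
  refine ⟨f, hf, fun l x => cf_full (rw' v a) f D ?_ hind' hf l x⟩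
  rw [hcard, Fintype.card_subtype]

lemma Bas.coef {f : Fin r → {x // a x ≠ 0} → ℚ} (hB : Bas v a D f) {α : Fin r → ℚ}
    (hα : ∀ j, j ∉ D → α j = 0) {y : Fin N → ℚ}
    (h : ∀ i, a i ≠ 0 → ∑ j, α j * (v j i : ℚ) = y i) (j : Fin r) (hj : j ∈ D) :
    α j = ∑ x, f j x * y x.1 := by
  classical
  have e1 : ∑ x, f j x * y x.1 = ∑ j', α j' * ∑ x, f j x * rw' v a j' x := by
    simp only [Finset.mul_sum]
    rw [Finset.sum_comm]
    refine Finset.sum_congr rfl fun x _ => ?_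
    rw [← h x.1 x.2, Finset.mul_sum]
    exact Finset.sum_congr rfl fun j' _ => by unfold rw'; ring
  rw [e1, Finset.sum_eq_single j]
  · rw [hB.dual j hj j hj, if_pos rfl, mul_one]
  · intro j' _ hne
    by_cases hj' : j' ∈ D
    · rw [hB.dual j hj j' hj', if_neg hne, mul_zero]
    · rw [hα j' hj', zero_mul]
  · exact fun h => absurd (Finset.mem_univ _) h

/-- the functional with the values `t` -/
noncomputable def fu (f : Fin r → {x // a x ≠ 0} → ℚ) (D : Finset (Fin r)) (t : Fin r → ℚ) :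
    {x // a x ≠ 0} → ℚ := fun x => ∑ j ∈ D, t j * f j x

lemma Bas.fu {f : Fin r → {x // a x ≠ 0} → ℚ} (hB : Bas v a D f) {α : Fin r → ℚ}
    (hα : ∀ j, j ∉ D → α j = 0) {y : Fin N → ℚ}
    (h : ∀ i, a i ≠ 0 → ∑ j, α j * (v j i : ℚ) = y i) (t : Fin r → ℚ) :
    ∑ j, α j * t j = ∑ x, N4W.fu f D t x * y x.1 := by
  classical
  have e1 : ∑ j, α j * t j = ∑ j ∈ D, α j * t j := by
    symm
    refine Finset.sum_subset (Finset.subset_univ _) fun j _ hj => ?_
    rw [hα j hj, zero_mul]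
  rw [e1]
  unfold N4W.fu
  simp only [Finset.sum_mul]
  rw [Finset.sum_comm]
  refine Finset.sum_congr rfl fun j hj => ?_
  rw [hB.coef hα h j hj, Finset.sum_mul]
  exact Finset.sum_congr rfl fun x _ => by ring

end

/-- the lower hull condition, for the vertices, in terms of the functional -/
lemma low_fu {a : Fin N → ℕ} {D : Finset (Fin r)} {f : Fin r → {x // a x ≠ 0} → ℚ}
    (hB : Bas v a D f)
    (hL : ∀ l, face v a l → ∀ α : Fin r → ℚ, (∀ j, j ∉ D → α j = 0) →
      (∀ i, a i ≠ 0 → ∑ j, α j * (v j i : ℚ) = (v l i : ℚ)) →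
      ∑ j, α j * htA v a j ≤ htA v a l) (i : Fin r) (hi : face v a i) :
    ∑ x, fu f D (htA v a) x * (v i x.1 : ℚ) ≤ htA v a i := by
  have h0 : ∀ j, j ∉ D → cf (rw' v a) f D i j = 0 := fun j hj => cf_off _ _ _ _ _ hj
  have h1 : ∀ x, a x ≠ 0 → ∑ j, cf (rw' v a) f D i j * (v j x : ℚ) = (v i x : ℚ) :=
    fun x hx => hB.full i ⟨x, hx⟩
  rw [← hB.fu h0 h1]
  exact hL i hi _ h0 h1

/-- the coefficients of a combination of the points of the image of `D` -/
lemma coefR (hS : Sub m v ι) {a : Fin N → ℕ} {D : Finset (Fin r)} {l : Fin R} {α : Fin R → ℚ}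
    (hα : ∀ j, j ∉ im hS D → α j = 0)
    (h : ∀ i, a i ≠ 0 → ∑ j, α j * (m j i : ℚ) = (m l i : ℚ)) :
    (∀ j, j ∉ D → α (ι j) = 0) ∧ ∀ i, a i ≠ 0 → ∑ j, α (ι j) * (v j i : ℚ) = (m l i : ℚ) := by
  refine ⟨fun j hj => hα _ fun h' => hj ((mem_im hS).1 h'), fun i hi => ?_⟩
  rw [← h i hi, sumR hS (off_im hS hα)]
  exact Finset.sum_congr rfl fun j _ => by rw [hS.eq]

/-- the lower hull condition, for all the exponents -/
lemma low_sub (hr : 0 < r) (hS : Sub m v ι) {a : Fin N → ℕ} {D : Finset (Fin r)}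
    {f : Fin r → {x // a x ≠ 0} → ℚ} (hB : Bas v a D f)
    (hL : ∀ l, face v a l → ∀ α : Fin r → ℚ, (∀ j, j ∉ D → α j = 0) →
      (∀ i, a i ≠ 0 → ∑ j, α j * (v j i : ℚ) = (v l i : ℚ)) →
      ∑ j, α j * htA v a j ≤ htA v a l) :
    ∀ l, face m a l → ∀ α : Fin R → ℚ, (∀ j, j ∉ im hS D → α j = 0) →
      (∀ i, a i ≠ 0 → ∑ j, α j * (m j i : ℚ) = (m l i : ℚ)) →
      ∑ j, α j * htA m a j ≤ htA m a l := by
  intro l hl α hα h
  obtain ⟨h1, h2⟩ := coefR hS hα h
  have h3 := ext_ineq hr hS a 1 zero_le_one (fun x => -fu f D (htA v a) x) (fun i hi => by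
    have := low_fu hB hL i hi
    simp only [neg_mul, Finset.sum_neg_distrib]
    linarith) l hl
  rw [sumR hS (off_im hS hα)]
  have h4 : ∑ i, α (ι i) * htA m a (ι i) = ∑ i, α (ι i) * htA v a i :=
    Finset.sum_congr rfl fun i _ => by rw [htA_sub hS]
  rw [h4, hB.fu h1 h2]
  simp only [neg_mul, Finset.sum_neg_distrib] at h3
  linarith

/-- independence passes to the image -/
lemma ind_sub (hS : Sub m v ι) {a : Fin N → ℕ} {D : Finset (Fin r)}
    (hind : ∀ w : Fin r → ℚ, (∀ j, j ∉ D → w j = 0) →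
      (∀ i, a i ≠ 0 → ∑ j, w j * (v j i : ℚ) = 0) → ∀ j, w j = 0) :
    ∀ w : Fin R → ℚ, (∀ j, j ∉ im hS D → w j = 0) →
      (∀ i, a i ≠ 0 → ∑ j, w j * (m j i : ℚ) = 0) → ∀ j, w j = 0 := by
  classical
  intro w hw h j
  by_cases hj : ∃ i, ι i = j
  · obtain ⟨i, rfl⟩ := hj
    refine hind (fun i => w (ι i)) (fun i hi => hw _ fun h' => hi ((mem_im hS).1 h'))
      (fun x hx => ?_) i
    rw [← h x hx, sumR hS (off_im hS hw)]
    exact Finset.sum_congr rfl fun j _ => by rw [hS.eq]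
  · exact off_im hS hw j (fun i hi => hj ⟨i, hi⟩)

lemma card_im (hS : Sub m v ι) (D : Finset (Fin r)) : (im hS D).card = D.card :=
  Finset.card_map _

lemma face_im (hr : 0 < r) (hS : Sub m v ι) {a : Fin N → ℕ} {D : Finset (Fin r)}
    (h : ∀ j ∈ D, face v a j) : ∀ j ∈ im hS D, face m a j := by
  intro j hj
  obtain ⟨i, hi, rfl⟩ := of_im hS hj
  exact (face_sub hr hS a i).2 (h i hi)

/-- a simplex which is not `B1` -/
theorem nonB_sub (hr : 0 < r) (hS : Sub m v ι) {a : Fin N → ℕ} (h : NonB v True a) :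
    NonB m True a := by
  classical
  obtain ⟨J, hcard, hf, hli, hNB, hloc⟩ := h
  have hind : ∀ w : Fin r → ℚ, (∀ j, j ∉ J → w j = 0) →
      (∀ i, a i ≠ 0 → ∑ j, w j * (v j i : ℚ) = 0) → ∀ j, w j = 0 := by
    intro w hw h j
    by_cases hj : j ∈ J
    · rw [Fintype.linearIndependent_iff] at hli
      refine hli (fun j : J => w j.1) ?_ ⟨j, hj⟩
      funext i
      rw [Finset.sum_apply, Pi.zero_apply, ← h i.1 i.2]
      simp only [Pi.smul_apply, smul_eq_mul]
      rw [Finset.sum_coe_sort J (fun j => w j * (v j i.1 : ℚ))]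
      refine Finset.sum_subset (Finset.subset_univ _) fun j _ hj => ?_
      rw [hw j hj, zero_mul]
    · exact hw j hj
  obtain ⟨f, hB⟩ := exists_bas hcard hind
  refine nonB_of m a (im hS J) (by rw [card_im, hcard]) (face_im hr hS hf) (ind_sub hS hind)
    (fun i hi h => hNB i hi ?_) ?_
  · obtain ⟨j0, hj0, h1, h2⟩ := h
    obtain ⟨i0, hi0, rfl⟩ := of_im hS hj0
    refine ⟨i0, hi0, by rw [← hS.eq]; exact h1, fun j hj hne => ?_⟩
    rw [← hS.eq]
    exact h2 _ ((mem_im hS).2 hj) fun h' => hne (hS.inj h')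
  · intro l hl c hc h
    exact low_sub hr hS hB (fun l hl α hα h => hloc trivial l hl α hα h) l hl c hc h

lemma negI_zero : ¬ NegI 0 := by
  rintro ⟨k, hk, h⟩
  have : (k : ℚ) = 0 := by linarith
  rw [Nat.cast_eq_zero] at this
  omega

/-- a circuit -/
theorem circ_sub (hr : 0 < r) (hS : Sub m v ι) {a : Fin N → ℕ} (h : CircP v a) : CircP m a := by
  classical
  obtain ⟨D, k, s, c, G, hk, hcard, hf, hfk, hind, hL, hs0, hs1, hc0, hck, hcr, hneg, hG, hlt,
    hlast⟩ := h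
  obtain ⟨f, hB⟩ := exists_bas hcard hind
  have hlow := fun i hi => low_fu hB hL i hi
  -- the height of `k`
  set Δ : ℚ := -∑ i, c i * htA v a i with hΔ
  have hΔ0 : 0 ≤ Δ := by
    have h1 : ∀ g : Fin r → ℚ, ∑ i, c i * g i = ∑ i, (if i = k then 0 else c i) * g i - g k := by
      intro g
      have h2 : ∀ i, c i * g i = (if i = k then 0 else c i) * g i - (if i = k then g k else 0) := by
        intro i
        by_cases hi : i = k
        · rw [hi, if_pos rfl, if_pos rfl, hck]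
          ring
        · rw [if_neg hi, if_neg hi]
          ring
      rw [Finset.sum_congr rfl fun i _ => h2 i, Finset.sum_sub_distrib]
      simp
    have h3 := hL k hfk (fun i => if i = k then 0 else c i) (fun j hj => by
      by_cases hjk : j = k
      · rw [if_pos hjk]
      · rw [if_neg hjk]
        exact hc0 j hj hjk) (fun i hi => by
      have := hcr i hi
      rw [h1] at this
      linarith)
    rw [hΔ, h1]
    linarith
  refine ⟨im hS D, ι k, pu ι s, pu ι c, im hS G, fun h => hk ((mem_im hS).1 h),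
    by rw [card_im, hcard], face_im hr hS hf, (face_sub hr hS a k).2 hfk, ind_sub hS hind,
    low_sub hr hS hB hL, fun j hj => ?_, fun i hi => ?_, fun j hj hjk => ?_, ?_, fun i hi => ?_,
    fun j hj => ?_, fun j hj => ?_, ?_, ?_⟩
  · by_cases hj' : ∃ i, ι i = j
    · obtain ⟨i, rfl⟩ := hj'
      rw [pu_in hS]
      exact hs0 i fun h => hj ((mem_im hS).2 h)
    · exact pu_out s j fun i hi => hj' ⟨i, hi⟩
  · rw [sum_pu hS, ← hs1 i hi]
    exact Finset.sum_congr rfl fun j _ => by rw [hS.eq]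
  · by_cases hj' : ∃ i, ι i = j
    · obtain ⟨i, rfl⟩ := hj'
      rw [pu_in hS]
      exact hc0 i (fun h => hj ((mem_im hS).2 h)) fun h => hjk (by rw [h])
    · exact pu_out c j fun i hi => hj' ⟨i, hi⟩
  · rw [pu_in hS, hck]
  · rw [sum_pu hS, ← hcr i hi]
    exact Finset.sum_congr rfl fun j _ => by rw [hS.eq]
  · by_cases hj' : ∃ i, ι i = j
    · obtain ⟨i, rfl⟩ := hj'
      rw [pu_in hS] at hj ⊢
      exact hneg i hj
    · rw [pu_out s j fun i hi => hj' ⟨i, hi⟩] at hj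
      exact absurd hj negI_zero
  · obtain ⟨i, hi, rfl⟩ := of_im hS hj
    rw [pu_in hS]
    exact hG i hi
  · have e1 : (Finset.univ.filter fun j => NegI (pu ι s j) ∧ j ∉ im hS G) =
        im hS (Finset.univ.filter fun j => NegI (s j) ∧ j ∉ G) := by
      ext j
      constructor
      · intro h
        obtain ⟨-, h1, h2⟩ := Finset.mem_filter.1 h
        by_cases hj' : ∃ i, ι i = j
        · obtain ⟨i, rfl⟩ := hj'
          rw [pu_in hS] at h1
          rw [mem_im] at h2 ⊢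
          exact Finset.mem_filter.2 ⟨Finset.mem_univ _, h1, h2⟩
        · rw [pu_out s j fun i hi => hj' ⟨i, hi⟩] at h1
          exact absurd h1 negI_zero
      · intro h
        obtain ⟨i, hi, rfl⟩ := of_im hS h
        obtain ⟨-, h1, h2⟩ := Finset.mem_filter.1 hi
        refine Finset.mem_filter.2 ⟨Finset.mem_univ _, ?_, ?_⟩
        · rw [pu_in hS]
          exact h1
        · rw [mem_im]
          exact h2
    have e2 : ((im hS G).filter fun j => pu ι s j = 0) = im hS (G.filter fun j => s j = 0) := by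
      ext j
      constructor
      · intro h
        obtain ⟨h1, h2⟩ := Finset.mem_filter.1 h
        obtain ⟨i, hi, rfl⟩ := of_im hS h1
        rw [pu_in hS] at h2
        rw [mem_im]
        exact Finset.mem_filter.2 ⟨hi, h2⟩
      · intro h
        obtain ⟨i, hi, rfl⟩ := of_im hS h
        obtain ⟨h1, h2⟩ := Finset.mem_filter.1 hi
        refine Finset.mem_filter.2 ⟨(mem_im hS).2 h1, ?_⟩
        rw [pu_in hS]
        exact h2
    rw [e1, e2, card_im, card_im]
    exact hlt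
  · intro l hl α hα h j hj hjk hαj
    obtain ⟨i, hi, rfl⟩ := of_im hS hj
    obtain ⟨h1, h2⟩ := coefR hS hα h
    have hik : i ≠ k := fun h => hjk (by rw [h])
    have hci := hG i hi
    have hiD : i ∈ D := by
      by_contra hcon
      rw [hc0 i hcon hik] at hci
      exact lt_irrefl _ hci
    have e1 : ∑ j, pu ι c j * htA m a j = ∑ j, c j * htA v a j := by
      rw [sum_pu hS]
      exact Finset.sum_congr rfl fun j _ => by rw [htA_sub hS]
    have e2 : ∑ j, α j * htA m a j = ∑ x, fu f D (htA v a) x * (m l x.1 : ℚ) := by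
      rw [sumR hS (off_im hS hα), ← hB.fu h1 h2]
      exact Finset.sum_congr rfl fun i _ => by rw [htA_sub hS]
    have e3 : α (ι i) = ∑ x, f i x * (m l x.1 : ℚ) := hB.coef h1 h2 i hiD
    rw [e1, e2, pu_in hS, ← hΔ]
    have key := ext_ineq hr hS a (-c i) (by linarith)
      (fun x => c i * fu f D (htA v a) x + Δ * f i x) (fun i' hi' => by
        have h3 := hlow i' hi'
        have h0 : ∀ j, j ∉ D → cf (rw' v a) f D i' j = 0 := fun j hj => cf_off _ _ _ _ _ hj
        have h4 : ∀ x, a x ≠ 0 → ∑ j, cf (rw' v a) f D i' j * (v j x : ℚ) = (v i' x : ℚ) :=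
          fun x hx => hB.full i' ⟨x, hx⟩
        have h5 : cf (rw' v a) f D i' i = ∑ x, f i x * (v i' x.1 : ℚ) := cf_on _ _ _ _ _ hiD
        have h6 : ∑ j, cf (rw' v a) f D i' j * htA v a j =
            ∑ x, fu f D (htA v a) x * (v i' x.1 : ℚ) := hB.fu h0 h4 _
        have e4 : ∑ x : {x // a x ≠ 0}, (c i * fu f D (htA v a) x + Δ * f i x) * (v i' x.1 : ℚ) =
            c i * ∑ x, fu f D (htA v a) x * (v i' x.1 : ℚ) + Δ * ∑ x, f i x * (v i' x.1 : ℚ) := by
          rw [Finset.mul_sum, Finset.mul_sum, ← Finset.sum_add_distrib]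
          exact Finset.sum_congr rfl fun x _ => by ring
        rw [e4]
        by_cases h7 : 0 ≤ ∑ x, f i x * (v i' x.1 : ℚ)
        · have h8 := mul_nonneg hΔ0 h7
          have h9 := mul_nonneg (neg_nonneg.2 hci.le) (sub_nonneg.2 h3)
          linarith
        · have h8 := hlast i' hi' _ h0 h4 i hi hik (by rw [h5]; exact not_le.1 h7)
          rw [h6, h5] at h8
          linarith) l hl
    have e4 : ∑ x : {x // a x ≠ 0}, (c i * fu f D (htA v a) x + Δ * f i x) * (m l x.1 : ℚ) =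
        c i * ∑ x, fu f D (htA v a) x * (m l x.1 : ℚ) + Δ * ∑ x, f i x * (m l x.1 : ℚ) := by
      rw [Finset.mul_sum, Finset.mul_sum, ← Finset.sum_add_distrib]
      exact Finset.sum_congr rfl fun x _ => by ring
    rw [e4, ← e3] at key
    linarith

/-- a point -/
theorem pnt_sub (hr : 0 < r) (hS : Sub m v ι) {a : Fin N → ℕ} (h : PntP v a) : PntP m a := by
  classical
  obtain ⟨E, s, w, κ, hf, hw, hE, hall, hind, hs0, hs1, hneg⟩ := h
  refine ⟨im hS E, pu ι s, w, κ, face_im hr hS hf, hw, fun j hj => ?_, fun j hj => ?_,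
    fun c hc h j => ?_, fun j hj => ?_, fun i hi => ?_, fun j => ?_⟩
  · obtain ⟨i, hi, rfl⟩ := of_im hS hj
    rw [hS.eq]
    exact hE i hi
  · obtain ⟨l, h1, h2, h3, h4, h5⟩ := on_face hr hS a j hj
    have k1 : (κ : ℝ) ≤ ∑ i, l i * ∑ x, (w x : ℝ) * (v i x : ℝ) := by
      calc (κ : ℝ) = ∑ i, l i * (κ : ℝ) := by rw [← Finset.sum_mul, h2, one_mul]
        _ ≤ _ := Finset.sum_le_sum fun i _ => by
          by_cases hi : l i = 0
          · rw [hi, zero_mul, zero_mul]
          · refine mul_le_mul_of_nonneg_left ?_ (h1 i)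
            exact_mod_cast hall i (h3 i hi)
    have k2 : ∑ i, l i * ∑ x, (w x : ℝ) * (v i x : ℝ) =
        ∑ x, (w x : ℝ) * ∑ i, l i * (v i x : ℝ) := by
      simp only [Finset.mul_sum]
      rw [Finset.sum_comm]
      exact Finset.sum_congr rfl fun x _ => Finset.sum_congr rfl fun i _ => by ring
    have k3 : ∑ x, (w x : ℝ) * ∑ i, l i * (v i x : ℝ) ≤ ∑ x, (w x : ℝ) * (m j x : ℝ) := by
      refine Finset.sum_le_sum fun x _ => ?_
      by_cases hx : a x = 0
      · exact mul_le_mul_of_nonneg_left (h5 x) (by exact_mod_cast (hw x hx).le)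
      · rw [h4 x hx]
    have k4 : (κ : ℝ) ≤ ((∑ x, w x * (m j x : ℚ) : ℚ) : ℝ) := by
      push_cast
      linarith
    exact_mod_cast k4
  · by_cases hj : ∃ i, ι i = j
    · obtain ⟨i, rfl⟩ := hj
      refine hind (fun i => c (ι i)) (fun i hi => hc _ fun h' => hi ((mem_im hS).1 h'))
        (fun x => ?_) i
      rw [← h x, sumR hS (off_im hS hc)]
      exact Finset.sum_congr rfl fun j _ => by rw [hS.eq]
    · exact off_im hS hc j (fun i hi => hj ⟨i, hi⟩)
  · by_cases hj' : ∃ i, ι i = j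
    · obtain ⟨i, rfl⟩ := hj'
      rw [pu_in hS]
      exact hs0 i fun h => hj ((mem_im hS).2 h)
    · exact pu_out s j fun i hi => hj' ⟨i, hi⟩
  · rw [sum_pu hS, ← hs1 i hi]
    exact Finset.sum_congr rfl fun j _ => by rw [hS.eq]
  · by_cases hj' : ∃ i, ι i = j
    · obtain ⟨i, rfl⟩ := hj'
      rw [pu_in hS]
      exact hneg i
    · rw [pu_out s j fun i hi => hj' ⟨i, hi⟩]
      exact negI_zero

end Pool.Agent.Y229.N4W
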