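import Pool.Agent.W574.RO.Main
import Pool.Agent.W574.HS.LocalForm
import Pool.Agent.W425.GN.Univ
import Pool.Agent.W193.GN.B1L

set_option autoImplicit false
set_option linter.unusedSectionVars false

/-! # Functional equations with coefficients `B(x, s)`: roots which are forced at a point -/

namespace Pool.Agent.Y229

open MvPolynomial Pool.Agent.W574.SM Pool.Agent.W574.HS Pool.Agent.W574.LM Pool.Agent.W574.RO

section

variable {σ τ ι κ : Type} [Fintype ι] [Fintype κ] [DecidableEq ι] [DecidableEq κ]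

/-- multiplication by `B(x, ∑ s_j)` -/
noncomputable def mulB (B : Polynomial (MvPolynomial σ ℂ)) (F : AF σ ι) : AF σ ι :=
  fun s => B.eval (C ((∑ j, s j : ℕ) : ℂ)) * F s

theorem mulB_add (B B' : Polynomial (MvPolynomial σ ℂ)) (F : AF σ ι) :
    mulB (B + B') F = mulB B F + mulB B' F := by
  funext s
  rw [mulB, Pi.add_apply, mulB, mulB, Polynomial.eval_add, add_mul]

theorem mulB_mul (B B' : Polynomial (MvPolynomial σ ℂ)) (F : AF σ ι) :
    mulB (B * B') F = mulB B (mulB B' F) := by
  funext s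
  rw [mulB, mulB, mulB, Polynomial.eval_mul, mul_assoc]

theorem mulB_smul (a : ℂ) (B : Polynomial (MvPolynomial σ ℂ)) (F : AF σ ι) :
    mulB (a • B) F = a • mulB B F := by
  funext s
  rw [mulB, Pi.smul_apply, mulB, Polynomial.eval_smul, smul_mul_assoc]

theorem mulB_neg (B : Polynomial (MvPolynomial σ ℂ)) (F : AF σ ι) :
    mulB (-B) F = -mulB B F := by
  funext s
  rw [mulB, Pi.neg_apply, mulB, Polynomial.eval_neg, neg_mul]

theorem mulB_sub (B B' : Polynomial (MvPolynomial σ ℂ)) (F : AF σ ι) :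
    mulB (B - B') F = mulB B F - mulB B' F := by
  rw [sub_eq_add_neg, mulB_add, mulB_neg, sub_eq_add_neg]

theorem mulB_one (F : AF σ ι) : mulB 1 F = F := by
  funext s
  rw [mulB, Polynomial.eval_one, one_mul]

/-- the linear map `B ↦ B(x, ∑ s) F` -/
noncomputable def mulBL (F : AF σ ι) : Polynomial (MvPolynomial σ ℂ) →ₗ[ℂ] AF σ ι where
  toFun B := mulB B F
  map_add' b b' := mulB_add b b' F
  map_smul' a b := mulB_smul a b F

theorem mulB_linear (B : Polynomial (MvPolynomial σ ℂ)) (a : ℂ) (F G : AF σ ι) :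
    mulB B (F + G) = mulB B F + mulB B G ∧ mulB B (a • F) = a • mulB B F := by
  constructor
  · funext s
    rw [Pi.add_apply, mulB, mulB, mulB, Pi.add_apply, mul_add]
  · funext s
    rw [Pi.smul_apply, mulB, mulB, Pi.smul_apply, mul_smul_comm]

theorem mulP_mem (f : ι → MvPolynomial σ ℂ) (a : ℤ) (u : MvPolynomial σ ℂ) (F : AF σ ι)
    (hF : F ∈ V f a) : mulB (Polynomial.C u) F ∈ V f a := by
  classical
  induction hF using Submodule.span_induction with
  | mem F h =>
    obtain ⟨P, c, hc, rfl⟩ := h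
    refine Submodule.subset_span ⟨P.mapRange (fun Q => (⟨_, mulLeft_memW u⟩ : weyl σ) * Q)
      (by simp), c, hc, ?_⟩
    funext s
    rw [mulB, Polynomial.eval_C, gen, gen, applyAt, applyAt,
      Finsupp.sum_mapRange_index (fun β => by simp), Finsupp.sum, Finsupp.sum, Finset.mul_sum]
    refine Finset.sum_congr rfl fun β _ => ?_
    rw [mul_smul_comm]
    rfl
  | zero =>
    have : mulB (Polynomial.C u) (0 : AF σ ι) = 0 := by
      funext s
      rw [mulB, Pi.zero_apply, mul_zero]
    rw [this]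
    exact Submodule.zero_mem _
  | add F G _ _ hF hG =>
    rw [(mulB_linear _ 0 F G).1]
    exact Submodule.add_mem _ hF hG
  | smul r F _ hF =>
    rw [(mulB_linear _ r F F).2]
    exact Submodule.smul_mem _ _ hF

/-- multiplication of the coefficients by `s_j` -/
noncomputable def shj (j : ι) (P : (ι →₀ ℕ) →₀ weyl σ) : (ι →₀ ℕ) →₀ weyl σ :=
  P.mapDomain fun β => β + Finsupp.single j 1

theorem applyAt_shj (j : ι) (P : (ι →₀ ℕ) →₀ weyl σ) (s : ι → ℕ) (g : MvPolynomial σ ℂ) :
    applyAt (shj j P) s g = (s j : ℂ) • applyAt P s g := by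
  classical
  rw [shj, applyAt, applyAt, Finsupp.sum_mapDomain_index (fun β => by simp) (fun β A B => by
    rw [← smul_add]; rfl), Finsupp.smul_sum]
  refine Finsupp.sum_congr fun β _ => ?_
  rw [smul_smul]
  congr 1
  have h1 : ∀ i, (s i : ℂ) ^ ((β + Finsupp.single j 1 : ι →₀ ℕ) i) =
      (s i : ℂ) ^ β i * (if i = j then (s i : ℂ) else 1) := by
    intro i
    rw [Finsupp.add_apply, pow_add]
    congr 1
    by_cases h : i = j
    · subst h
      rw [Finsupp.single_eq_same, if_pos rfl, pow_one]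
    · rw [Finsupp.single_eq_of_ne h, if_neg h, pow_zero]
  rw [Finset.prod_congr rfl fun i _ => h1 i, Finset.prod_mul_distrib, Finset.prod_ite_eq',
    if_pos (Finset.mem_univ j), mul_comm]

theorem mulS_mem (f : ι → MvPolynomial σ ℂ) (a : ℤ) (F : AF σ ι)
    (hF : F ∈ V f a) : mulB Polynomial.X F ∈ V f a := by
  classical
  induction hF using Submodule.span_induction with
  | mem F h =>
    obtain ⟨P, c, hc, rfl⟩ := h
    have : mulB Polynomial.X (gen f P c) = ∑ j, gen f (shj j P) c := by
      funext s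
      rw [mulB, Polynomial.eval_X, Finset.sum_apply]
      simp only [gen, applyAt_shj]
      rw [← Finset.sum_smul, C_mul', Nat.cast_sum]
    rw [this]
    exact Submodule.sum_mem _ fun j _ => gen_mem f _ _ hc
  | zero =>
    have : mulB Polynomial.X (0 : AF σ ι) = 0 := by
      funext s
      rw [mulB, Pi.zero_apply, mul_zero]
    rw [this]
    exact Submodule.zero_mem _
  | add F G _ _ hF hG =>
    rw [(mulB_linear _ 0 F G).1]
    exact Submodule.add_mem _ hF hG
  | smul r F _ hF =>
    rw [(mulB_linear _ r F F).2]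
    exact Submodule.smul_mem _ _ hF

theorem mulB_mem (f : ι → MvPolynomial σ ℂ) (a : ℤ) (B : Polynomial (MvPolynomial σ ℂ))
    (F : AF σ ι) (hF : F ∈ V f a) : mulB B F ∈ V f a := by
  induction B using Polynomial.induction_on with
  | C u => exact mulP_mem f a u F hF
  | add p q hp hq =>
    rw [mulB_add]
    exact Submodule.add_mem _ hp hq
  | monomial n u h =>
    have : mulB (Polynomial.C u * Polynomial.X ^ (n + 1)) F =
        mulB Polynomial.X (mulB (Polynomial.C u * Polynomial.X ^ n) F) := by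
      rw [← mulB_mul, pow_succ]
      congr 1
      ring
    rw [this]
    exact mulS_mem f a _ h

/-- `B(p, α) = 0` for all functional equations `B(x, s) ∏ f_j ^ s_j ∈ V f 1` -/
def SF (f : ι → MvPolynomial σ ℂ) (p : σ → ℂ) (α : ℂ) : Prop :=
  ∀ B : Polynomial (MvPolynomial σ ℂ), mulB B (G0 f) ∈ V f 1 → eval p (B.eval (C α)) = 0

theorem eval_mapC (b : Polynomial ℂ) (a : ℂ) :
    (b.map (C : ℂ →+* MvPolynomial σ ℂ)).eval (C a) = C (b.eval a) := by
  rw [Polynomial.eval_map, Polynomial.eval₂_at_apply]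

theorem isLocEq_iff (H : MvPolynomial σ ℂ) (f : ι → MvPolynomial σ ℂ) (b : Polynomial ℂ) :
    IsLocEq H f b ↔ mulB (Polynomial.C H * b.map C) (G0 f) ∈ V f 1 := by
  have e : ∀ s, mulB (Polynomial.C H * b.map C) (G0 f) s =
      H * (C (b.eval ((∑ j, s j : ℕ) : ℂ)) * ∏ j, f j ^ s j) := by
    intro s
    rw [mulB, Polynomial.eval_mul, Polynomial.eval_C, eval_mapC, mul_assoc]
    rfl
  constructor
  · rintro ⟨S, P, h1, h2⟩
    refine mem_of_std f 1 _ ⟨S, P, h1, fun s => ?_⟩
    rw [e, h2]
    rfl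
  · intro h
    obtain ⟨S, P, h1, h2⟩ := std_of_mem f 1 _ h
    refine ⟨S, P, h1, fun s => ?_⟩
    rw [← e, h2]
    rfl

theorem functionalEq_iff' (f : ι → MvPolynomial σ ℂ) (b : Polynomial ℂ) :
    IsFunctionalEq f b ↔ mulB (b.map C) (G0 f) ∈ V f 1 := by
  rw [functionalEq_iff]
  have : mulb b (G0 f) = mulB (b.map C) (G0 f) := by
    funext s
    rw [mulb, mulB, eval_mapC]
  rw [this]

theorem SF.locEq {f : ι → MvPolynomial σ ℂ} {p : σ → ℂ} {α : ℂ} (h : SF f p α)
    (H : MvPolynomial σ ℂ) (b : Polynomial ℂ) (hb : IsLocEq H f b) (hH : eval p H ≠ 0) :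
    b.eval α = 0 := by
  have h1 := h _ ((isLocEq_iff H f b).1 hb)
  rw [Polynomial.eval_mul, Polynomial.eval_C, eval_mapC, map_mul, eval_C] at h1
  exact (mul_eq_zero.1 h1).resolve_left hH

/-- from the ordinary functional equations with a polynomial unit to the general ones -/
theorem sf_of_local (f : ι → MvPolynomial σ ℂ) (p : σ → ℂ) (α : ℂ)
    (h : ∀ (H : MvPolynomial σ ℂ) (b : Polynomial ℂ), IsLocEq H f b → eval p H ≠ 0 →
      b.eval α = 0)
    (hB : ∃ b0 : Polynomial ℂ, b0 ≠ 0 ∧ IsFunctionalEq f b0) : SF f p α := by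
  classical
  intro B hB1
  by_contra hne
  obtain ⟨b0, hb0, hfe⟩ := hB
  obtain ⟨b1, hb1, hnd⟩ := Polynomial.exists_eq_pow_rootMultiplicity_mul_and_not_dvd b0 hb0 α
  set k := b0.rootMultiplicity α with hk
  have hroot : b1.eval α ≠ 0 := fun h0 => hnd (Polynomial.dvd_iff_isRoot.2 h0)
  obtain ⟨B', hB'⟩ : (Polynomial.X - Polynomial.C (C α : MvPolynomial σ ℂ)) ∣
      B - Polynomial.C (B.eval (C α)) := by
    rw [Polynomial.dvd_iff_isRoot, Polynomial.IsRoot, Polynomial.eval_sub, Polynomial.eval_C,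
      sub_self]
  have hstep : ∀ j : ℕ, j ≤ k → ∃ H : MvPolynomial σ ℂ, eval p H ≠ 0 ∧
      mulB (Polynomial.C H * ((Polynomial.X - Polynomial.C α) ^ (k - j) * b1).map C) (G0 f) ∈
        V f 1 := by
    intro j
    induction j with
    | zero =>
      intro _
      refine ⟨1, by rw [map_one]; exact one_ne_zero, ?_⟩
      rw [map_one, one_mul, Nat.sub_zero, ← hb1]
      exact (functionalEq_iff' f b0).1 hfe
    | succ j ih =>
      intro hj
      obtain ⟨H, hH, hV⟩ := ih (by omega)
      refine ⟨B.eval (C α) * H, by rw [map_mul]; exact mul_ne_zero hne hH, ?_⟩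
      obtain ⟨i, hi⟩ : ∃ i, k - j = i + 1 := ⟨k - j - 1, by omega⟩
      have hi' : k - (j + 1) = i := by omega
      rw [hi'] 
      rw [hi] at hV
      have h1 : mulB (Polynomial.C H * ((Polynomial.X - Polynomial.C α) ^ i * b1).map C)
          (mulB B (G0 f)) ∈ V f 1 := mulB_mem f 1 _ _ hB1
      have h2 := mulB_mem f 1 B' _ hV
      have h3 : mulB (Polynomial.C (B.eval (C α) * H) *
          ((Polynomial.X - Polynomial.C α) ^ i * b1).map C) (G0 f) =
          mulB (Polynomial.C H * ((Polynomial.X - Polynomial.C α) ^ i * b1).map C)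
            (mulB B (G0 f)) - mulB B' (mulB (Polynomial.C H *
              ((Polynomial.X - Polynomial.C α) ^ (i + 1) * b1).map C) (G0 f)) := by
        rw [← mulB_mul, ← mulB_mul, ← mulB_sub]
        congr 1
        have h4 : B = Polynomial.C (B.eval (C α)) +
            (Polynomial.X - Polynomial.C (C α : MvPolynomial σ ℂ)) * B' := by
          rw [← hB']
          ring
        conv_rhs => rw [h4]
        simp only [Polynomial.map_mul, Polynomial.map_pow, Polynomial.map_sub, Polynomial.map_X,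
          Polynomial.map_C, map_mul]
        ring
      rw [h3]
      exact Submodule.sub_mem _ h1 h2
  obtain ⟨H, hH, hV⟩ := hstep k le_rfl
  rw [Nat.sub_self, pow_zero, one_mul] at hV
  exact hroot (h H b1 ((isLocEq_iff H f b1).2 hV) hH)

end

end Pool.Agent.Y229
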