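import Pool.Agent.Y229.SP1
import Pool.Agent.W574.MO.Homog

set_option autoImplicit false
set_option linter.unusedSectionVars false

/-! # Roots which are forced at a point: sums and products of ideals in disjoint variables -/

namespace Pool.Agent.Y229

open MvPolynomial Pool.Agent.W574.SM Pool.Agent.W574.HS Pool.Agent.W574.LM Pool.Agent.W574.RO

section

variable {σ τ ι κ : Type} [Fintype ι] [Fintype κ] [DecidableEq ι] [DecidableEq κ]

/-- a functional which detects the value at `(q, β)` -/
theorem exists_functionalB (g : κ → MvPolynomial τ ℂ) (q : τ → ℂ) (β : ℂ) (hβ : SF g q β) :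
    ∃ φ : AF τ κ →ₗ[ℂ] ℂ, (∀ v ∈ V g 1, φ v = 0) ∧
      ∀ B : Polynomial (MvPolynomial τ ℂ), φ (mulB B (G0 g)) = eval q (B.eval (C β)) := by
  classical
  set ev : Polynomial (MvPolynomial τ ℂ) →ₗ[ℂ] ℂ :=
    { toFun := fun B => eval q (B.eval (C β))
      map_add' := fun B B' => by rw [Polynomial.eval_add, map_add]
      map_smul' := fun a B => by
        rw [Polynomial.eval_smul, RingHom.id_apply, smul_eval, smul_eq_mul] } with hev
  set W : Submodule ℂ (AF τ κ) := V g 1 ⊔
    (Submodule.map (mulBL (G0 g)) (LinearMap.ker ev)) with hW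
  have h1 : G0 g ∉ W := by
    intro h
    obtain ⟨v, hv, w, hw, e⟩ := Submodule.mem_sup.1 h
    obtain ⟨B, hB, rfl⟩ := hw
    have h2 : mulB (1 - B) (G0 g) ∈ V g 1 := by
      rw [mulB_sub, mulB_one]
      have h7 : v = G0 g - mulB B (G0 g) := eq_sub_of_add_eq e
      rw [← h7]
      exact hv
    have h3 := hβ _ h2
    have h4 : eval q (B.eval (C β)) = 0 := hB
    rw [Polynomial.eval_sub, Polynomial.eval_one, map_sub, map_one, h4, sub_zero] at h3
    exact one_ne_zero h3
  obtain ⟨ψ, hψ, hle⟩ := Submodule.exists_le_ker_of_notMem h1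
  refine ⟨(ψ (G0 g))⁻¹ • ψ, fun v hv => ?_, fun B => ?_⟩
  · rw [LinearMap.smul_apply, LinearMap.mem_ker.1 (hle (Submodule.mem_sup_left hv)), smul_zero]
  · set c : ℂ := eval q (B.eval (C β)) with hc
    have h2 : mulB B (G0 g) = c • G0 g + mulB (B - Polynomial.C (C c)) (G0 g) := by
      rw [mulB_sub]
      have : mulB (Polynomial.C (C c)) (G0 g) = c • G0 g := by
        funext s
        rw [mulB, Polynomial.eval_C, C_mul', Pi.smul_apply]
      rw [this]
      abel
    have h3 : ψ (mulB (B - Polynomial.C (C c)) (G0 g)) = 0 := by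
      refine LinearMap.mem_ker.1 (hle (Submodule.mem_sup_right ⟨_, ?_, rfl⟩))
      change eval q ((B - Polynomial.C (C c)).eval (C β)) = 0
      rw [Polynomial.eval_sub, Polynomial.eval_C, map_sub, eval_C, ← hc, sub_self]
    rw [h2, map_add, LinearMap.smul_apply, LinearMap.smul_apply, h3, smul_zero, add_zero, map_smul,
      smul_eq_mul, smul_eq_mul]
    field_simp

theorem span_tensor (u : MvPolynomial (σ ⊕ τ) ℂ) : u ∈ Submodule.span ℂ
    {w : MvPolynomial (σ ⊕ τ) ℂ | ∃ (a : MvPolynomial σ ℂ) (b : MvPolynomial τ ℂ),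
      w = rename Sum.inl a * rename Sum.inr b} := by
  induction u using MvPolynomial.induction_on with
  | C a => exact Submodule.subset_span ⟨C a, 1, by simp⟩
  | add p q hp hq => exact Submodule.add_mem _ hp hq
  | mul_X p i hp =>
    induction hp using Submodule.span_induction with
    | mem w h =>
      obtain ⟨a, b, rfl⟩ := h
      rcases i with i | i
      · exact Submodule.subset_span ⟨a * X i, b, by rw [map_mul, rename_X]; ring⟩
      · exact Submodule.subset_span ⟨a, b * X i, by rw [map_mul, rename_X]; ring⟩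
    | zero =>
      rw [zero_mul]
      exact Submodule.zero_mem _
    | add u v _ _ hu hv =>
      rw [add_mul]
      exact Submodule.add_mem _ hu hv
    | smul r u _ hu =>
      rw [smul_mul_assoc]
      exact Submodule.smul_mem _ _ hu

/-- substitution of `q` for the second variables and of `s + β` for `s` -/
noncomputable def Bsh (q : τ → ℂ) (β : ℂ) (B : Polynomial (MvPolynomial (σ ⊕ τ) ℂ)) :
    Polynomial (MvPolynomial σ ℂ) :=
  (B.map ((evy q : MvPolynomial (σ ⊕ τ) ℂ →ₐ[ℂ] MvPolynomial σ ℂ) :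
    MvPolynomial (σ ⊕ τ) ℂ →+* MvPolynomial σ ℂ)).comp (Polynomial.X + Polynomial.C (C β))

theorem evy_C (q : τ → ℂ) (a : ℂ) : evy (σ := σ) q (C a) = C a := by
  rw [evy, aeval_C]
  rfl

theorem eval_mapE (y : τ → ℂ) (B : Polynomial (MvPolynomial (σ ⊕ τ) ℂ)) (a : ℂ) :
    (B.map ((evy y : MvPolynomial (σ ⊕ τ) ℂ →ₐ[ℂ] MvPolynomial σ ℂ) :
      MvPolynomial (σ ⊕ τ) ℂ →+* MvPolynomial σ ℂ)).eval (C a) = evy y (B.eval (C a)) := by
  have h : (C a : MvPolynomial σ ℂ) = ((evy y : MvPolynomial (σ ⊕ τ) ℂ →ₐ[ℂ] MvPolynomial σ ℂ) :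
      MvPolynomial (σ ⊕ τ) ℂ →+* MvPolynomial σ ℂ) (C a) := (evy_C y a).symm
  rw [Polynomial.eval_map, h, Polynomial.eval₂_at_apply]
  rfl

theorem Bsh_eval (q : τ → ℂ) (β : ℂ) (B : Polynomial (MvPolynomial (σ ⊕ τ) ℂ)) (α : ℂ) :
    (Bsh q β B).eval (C α) = evy q (B.eval (C (α + β))) := by
  rw [Bsh, Polynomial.eval_comp, Polynomial.eval_add, Polynomial.eval_X, Polynomial.eval_C,
    ← map_add, eval_mapE]

theorem slice_G (f : ι → MvPolynomial σ ℂ) (g : κ → MvPolynomial τ ℂ) (q : τ → ℂ) (β : ℂ)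
    (φ : AF τ κ →ₗ[ℂ] ℂ)
    (hφ : ∀ B : Polynomial (MvPolynomial τ ℂ), φ (mulB B (G0 g)) = eval q (B.eval (C β)))
    (B : Polynomial (MvPolynomial (σ ⊕ τ) ℂ)) (m : σ →₀ ℕ) (s : ι → ℕ) :
    slice φ m s (mulB B (G0 (sumf f g))) = coeff m (mulB (Bsh q β B) (G0 f) s) := by
  classical
  induction B using Polynomial.induction_on' with
  | add p p' hp hp' =>
    rw [mulB_add, map_add, hp, hp']
    have : Bsh q β (p + p') = Bsh q β p + Bsh q β p' := by
      rw [Bsh, Polynomial.map_add, Polynomial.add_comp]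
      rfl
    rw [this, mulB_add, Pi.add_apply, coeff_add]
  | monomial n u =>
    have hu := span_tensor u
    induction hu using Submodule.span_induction with
    | mem w h =>
      obtain ⟨a, b, rfl⟩ := h
      have h1 : slice φ m s (mulB (Polynomial.monomial n (rename Sum.inl a * rename Sum.inr b))
          (G0 (sumf f g))) = coeff m (a * G0 f s) * φ (mulB (Polynomial.C b * (Polynomial.X +
            Polynomial.C (C ((∑ j, s j : ℕ) : ℂ))) ^ n) (G0 g)) := by
        rw [← smul_eq_mul (coeff m (a * G0 f s)), ← map_smul φ]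
        change φ _ = φ _
        congr 1
        funext t
        rw [Pi.smul_apply, mulB, mulB, Polynomial.eval_monomial, Polynomial.eval_mul,
          Polynomial.eval_pow, Polynomial.eval_add, Polynomial.eval_X, Polynomial.eval_C,
          Polynomial.eval_C, G0_sumf, Fintype.sum_sum_type]
        simp only [Sum.elim_inl, Sum.elim_inr]
        change cof m (rename Sum.inl a * rename Sum.inr b * C (((∑ j, s j + ∑ k, t k : ℕ) : ℂ)) ^ n *
          (rename Sum.inl (G0 f s) * rename Sum.inr (G0 g t))) = _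
        have h2 : rename Sum.inl a * rename Sum.inr b * C (((∑ j, s j + ∑ k, t k : ℕ) : ℂ)) ^ n *
            (rename Sum.inl (G0 f s) * rename Sum.inr (G0 g t)) =
            rename (Sum.inl : σ → σ ⊕ τ) (a * G0 f s) *
              rename Sum.inr (b * (C ((∑ k, t k : ℕ) : ℂ) + C ((∑ j, s j : ℕ) : ℂ)) ^ n *
                G0 g t) := by
          rw [map_mul, map_mul, map_mul, map_pow, map_add, rename_C, rename_C, ← map_add,
            add_comm ((∑ k, t k : ℕ) : ℂ), ← Nat.cast_add]
          ring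
        rw [h2, cof_mul]
      rw [h1, hφ, Bsh, Polynomial.map_monomial, Polynomial.monomial_comp]
      have h3 : ((evy q : MvPolynomial (σ ⊕ τ) ℂ →ₐ[ℂ] MvPolynomial σ ℂ) :
          MvPolynomial (σ ⊕ τ) ℂ →+* MvPolynomial σ ℂ) (rename Sum.inl a * rename Sum.inr b) =
            C (eval q b) * a := by
        change evy q _ = _
        rw [map_mul, evy_inl, evy_inr, mul_comm]
      have h4 : mulB (Polynomial.C (C (eval q b) * a) * (Polynomial.X + Polynomial.C (C β)) ^ n)
          (G0 f) s = C (eval q b * (β + ((∑ j, s j : ℕ) : ℂ)) ^ n) * (a * G0 f s) := by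
        rw [mulB, Polynomial.eval_mul, Polynomial.eval_pow, Polynomial.eval_C, Polynomial.eval_add,
          Polynomial.eval_X, Polynomial.eval_C, map_mul, map_pow, map_add]
        ring
      rw [h3, h4, coeff_C_mul, Polynomial.eval_mul, Polynomial.eval_pow, Polynomial.eval_C,
        Polynomial.eval_add, Polynomial.eval_X, Polynomial.eval_C, map_mul, map_pow, map_add,
        eval_C, eval_C]
      ring
    | zero =>
      rw [map_zero]
      have h1 : Bsh q β (0 : Polynomial (MvPolynomial (σ ⊕ τ) ℂ)) = 0 := by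
        rw [Bsh, Polynomial.map_zero, Polynomial.zero_comp]
      have h2 : mulB (0 : Polynomial (MvPolynomial (σ ⊕ τ) ℂ)) (G0 (sumf f g)) = 0 := by
        funext s
        rw [mulB, Polynomial.eval_zero, zero_mul]
        rfl
      rw [h1, h2, map_zero, mulB, Polynomial.eval_zero, zero_mul, coeff_zero]
    | add u v _ _ hu hv =>
      rw [map_add, mulB_add, map_add, hu, hv]
      have : Bsh q β (Polynomial.monomial n u + Polynomial.monomial n v) =
          Bsh q β (Polynomial.monomial n u) + Bsh q β (Polynomial.monomial n v) := by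
        rw [Bsh, Polynomial.map_add, Polynomial.add_comp]
        rfl
      rw [this, mulB_add, Pi.add_apply, coeff_add]
    | smul r u _ hu =>
      have h1 : Polynomial.monomial n (r • u) = r • Polynomial.monomial n u := by
        rw [Polynomial.smul_monomial]
      have h2 : Bsh q β (r • Polynomial.monomial n u) = r • Bsh q β (Polynomial.monomial n u) := by
        rw [Bsh, Bsh, ← h1, Polynomial.map_monomial, Polynomial.map_monomial,
          Polynomial.monomial_comp, Polynomial.monomial_comp]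
        have h3 : ((evy q : MvPolynomial (σ ⊕ τ) ℂ →ₐ[ℂ] MvPolynomial σ ℂ) :
          MvPolynomial (σ ⊕ τ) ℂ →+* MvPolynomial σ ℂ) (r • u) = r •
            ((evy q : MvPolynomial (σ ⊕ τ) ℂ →ₐ[ℂ] MvPolynomial σ ℂ) :
          MvPolynomial (σ ⊕ τ) ℂ →+* MvPolynomial σ ℂ) u := map_smul (evy q) r u
        rw [h3, ← Polynomial.smul_C, smul_mul_assoc]
      rw [h1, mulB_smul, map_smul, hu, h2, mulB_smul, Pi.smul_apply, coeff_smul]

/-- **Sums of ideals in disjoint variables.** -/
theorem sf_sum (f : ι → MvPolynomial σ ℂ) (g : κ → MvPolynomial τ ℂ) (p : σ → ℂ) (q : τ → ℂ)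
    (α β : ℂ) (hα : SF f p α) (hβ : SF g q β) : SF (sumf f g) (Sum.elim p q) (α + β) := by
  classical
  intro B hB
  obtain ⟨φ, hφ1, hφ2⟩ := exists_functionalB g q β hβ
  obtain ⟨w, hw, e⟩ := slice_V f g φ hφ1 _ hB
  have h1 : mulB (Bsh q β B) (G0 f) = w := by
    funext s
    ext m
    rw [← e, slice_G f g q β φ hφ2]
  have h2 := hα (Bsh q β B) (by rw [h1]; exact hw)
  rw [Bsh_eval] at h2
  rw [← h2, evy]
  have h3 : ∀ u : MvPolynomial (σ ⊕ τ) ℂ, eval (Sum.elim p q) u =
      eval p (aeval (Sum.elim X fun i => C (q i)) u) := by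
    intro u
    induction u using MvPolynomial.induction_on with
    | C a => rw [eval_C, aeval_C]; exact (eval_C a).symm
    | add u v hu hv => rw [map_add, map_add, map_add, hu, hv]
    | mul_X u i hu =>
      rw [map_mul, map_mul, map_mul, hu, aeval_X, eval_X]
      rcases i with i | i
      · rw [Sum.elim_inl, Sum.elim_inl, eval_X]
      · rw [Sum.elim_inr, Sum.elim_inr, eval_C]
  exact h3 _

end

end Pool.Agent.Y229
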