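import Pool.Agent.Y229.SP2

set_option autoImplicit false
set_option linter.unusedSectionVars false

/-! # Roots which are forced at a point: products, homogeneous ideals, Bernstein's theorem -/

namespace Pool.Agent.Y229

open MvPolynomial Pool.Agent.W574.SM Pool.Agent.W574.HS Pool.Agent.W574.LM Pool.Agent.W574.RO

section

variable {σ τ ι κ : Type} [Fintype ι] [Fintype κ] [DecidableEq ι] [DecidableEq κ]

theorem eval_evy (p : σ → ℂ) (q : τ → ℂ) (u : MvPolynomial (σ ⊕ τ) ℂ) :
    eval p (evy q u) = eval (Sum.elim p q) u := by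
  rw [evy]
  induction u using MvPolynomial.induction_on with
  | C a => rw [eval_C, aeval_C]; exact eval_C a
  | add u v hu hv => rw [map_add, map_add, map_add, hu, hv]
  | mul_X u i hu =>
    rw [map_mul, map_mul, map_mul, hu, aeval_X, eval_X]
    rcases i with i | i
    · rw [Sum.elim_inl, Sum.elim_inl, eval_X]
    · rw [Sum.elim_inr, Sum.elim_inr, eval_C]

/-- **Products of ideals in disjoint variables, first factor.** -/
theorem sf_mul (f : ι → MvPolynomial σ ℂ) (g : κ → MvPolynomial τ ℂ) (p : σ → ℂ) (q : τ → ℂ)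
    (α : ℂ) (hα : SF f p α) (hg : ∃ k, g k ≠ 0) : SF (mulf f g) (Sum.elim p q) α := by
  classical
  intro B hB
  by_contra hne
  obtain ⟨k0, hk0⟩ := hg
  set r : MvPolynomial τ ℂ :=
    aeval (Sum.elim (fun i => C (p i)) X : σ ⊕ τ → MvPolynomial τ ℂ) (B.eval (C α)) with hr
  have hre : ∀ y : τ → ℂ, eval y r = eval (Sum.elim p y) (B.eval (C α)) := by
    intro y
    rw [hr]
    generalize B.eval (C α) = u
    induction u using MvPolynomial.induction_on with
    | C a => rw [eval_C, aeval_C]; exact eval_C a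
    | add u v hu hv => rw [map_add, map_add, map_add, hu, hv]
    | mul_X u i hu =>
      rw [map_mul, map_mul, map_mul, hu, aeval_X, eval_X]
      rcases i with i | i
      · rw [Sum.elim_inl, Sum.elim_inl, eval_C]
      · rw [Sum.elim_inr, Sum.elim_inr, eval_X]
  have hr0 : r ≠ 0 := by
    intro h0
    apply hne
    rw [← hre q, h0, map_zero]
  obtain ⟨y, hy⟩ : ∃ y : τ → ℂ, eval y (r * g k0) ≠ 0 := by
    by_contra h
    push Not at h
    exact (mul_ne_zero hr0 hk0) (MvPolynomial.funext fun y => by rw [h, map_zero])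
  rw [map_mul] at hy
  have hy1 := left_ne_zero_of_mul hy
  have hy2 := right_ne_zero_of_mul hy
  have h := res_V f g k0 y hy2 1 _ hB
  have e : Res k0 y (eval y (g k0)) (mulB B (G0 (mulf f g))) =
      mulB (B.map ((evy y : MvPolynomial (σ ⊕ τ) ℂ →ₐ[ℂ] MvPolynomial σ ℂ) :
        MvPolynomial (σ ⊕ τ) ℂ →+* MvPolynomial σ ℂ)) (G0 f) := by
    funext t
    rw [mulB, eval_mapE]
    change ((eval y (g k0)) ^ (∑ j, t j))⁻¹ • evy y (B.eval (C ((∑ j, ext0 k0 t j : ℕ) : ℂ)) *
      ∏ p, mulf f g p ^ ext0 k0 t p) = evy y (B.eval (C ((∑ j, t j : ℕ) : ℂ))) * ∏ j, f j ^ t j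
    have h1 : ∏ p, mulf f g p ^ ext0 k0 t p = rename Sum.inl (∏ j, f j ^ t j) *
        rename Sum.inr (g k0 ^ (∑ j, t j)) := by
      rw [Fintype.prod_prod_type, map_prod, map_pow, ← Finset.prod_pow_eq_pow_sum,
        ← Finset.prod_mul_distrib]
      refine Finset.prod_congr rfl fun j _ => ?_
      rw [Finset.prod_eq_single k0]
      · rw [ext0, if_pos rfl, mulf, mul_pow, map_pow]
      · intro k _ hk
        rw [ext0, if_neg hk, pow_zero]
      · intro h; exact absurd (Finset.mem_univ _) h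
    rw [sum_ext0, h1, map_mul, map_mul, evy_inl, evy_inr, map_pow]
    rw [mul_comm (∏ j, f j ^ t j), C_mul', mul_smul_comm, smul_smul, inv_mul_cancel₀
      (pow_ne_zero _ hy2), one_smul]
  rw [e] at h
  have h2 := hα _ h
  rw [eval_mapE, eval_evy, ← hre] at h2
  exact hy1 h2

theorem sf_equiv {σ' ι' : Type} [Fintype ι'] [DecidableEq ι'] (e : σ ≃ σ') (k : ι ≃ ι')
    (f : ι → MvPolynomial σ ℂ) (f' : ι' → MvPolynomial σ' ℂ)
    (h : ∀ j, f' (k j) = rename e (f j)) (p : σ' → ℂ) (α : ℂ) (hα : SF f (p ∘ e) α) :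
    SF f' p α := by
  intro B hB
  have h1 := TR_V e k f f' h 1 _ hB
  set ρ : MvPolynomial σ' ℂ →+* MvPolynomial σ ℂ :=
    (rename e.symm : MvPolynomial σ' ℂ →ₐ[ℂ] MvPolynomial σ ℂ).toRingHom with hρ
  have hev : ∀ a : ℂ, (B.map ρ).eval (C a) = rename e.symm (B.eval (C a)) := by
    intro a
    have h5 : (C a : MvPolynomial σ ℂ) = ρ (C a) := (rename_C _ a).symm
    rw [Polynomial.eval_map, h5, Polynomial.eval₂_at_apply]
    rfl
  have h2 : TR e k (mulB B (G0 f')) = mulB (B.map ρ) (G0 f) := by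
    funext s
    rw [mulB, hev]
    change rename e.symm (B.eval (C ((∑ j, s (k.symm j) : ℕ) : ℂ)) *
      ∏ j, f' j ^ s (k.symm j)) = _
    have hs : ∑ j, s (k.symm j) = ∑ j, s j := k.symm.sum_comp s
    have hp : ∏ j, f' j ^ s (k.symm j) = rename e (∏ j, f j ^ s j) := by
      rw [map_prod, ← k.prod_comp]
      refine Finset.prod_congr rfl fun j _ => ?_
      rw [Equiv.symm_apply_apply, h, map_pow]
    rw [hs, hp, map_mul, rename_rename]
    simp only [Equiv.symm_comp_self, rename_id_apply]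
    rfl
  rw [h2] at h1
  have h3 := hα _ h1
  rw [hev, eval_rename] at h3
  have h4 : (p ∘ e) ∘ e.symm = p := by
    funext x
    simp
  rwa [h4] at h3

/-- **Products of ideals in disjoint variables, second factor.** -/
theorem sf_mul' (f : ι → MvPolynomial σ ℂ) (g : κ → MvPolynomial τ ℂ) (p : σ → ℂ) (q : τ → ℂ)
    (α : ℂ) (hα : SF g q α) (hf : ∃ k, f k ≠ 0) : SF (mulf f g) (Sum.elim p q) α := by
  refine sf_equiv (Equiv.sumComm τ σ) (Equiv.prodComm κ ι) (mulf g f) (mulf f g) (fun x => ?_) _ α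
    ?_
  · rw [mulf, mulf, map_mul, rename_rename, rename_rename, mul_comm]
    rfl
  · have h1 : (Sum.elim p q ∘ (Equiv.sumComm τ σ)) = Sum.elim q p := by
      funext x
      rcases x with x | x <;> rfl
    rw [h1]
    exact sf_mul g f q p α hα hf

theorem cc_eval (B : Polynomial (MvPolynomial σ ℂ)) (a : ℂ) :
    constantCoeff (B.eval (C a)) = (B.map (constantCoeff : MvPolynomial σ ℂ →+* ℂ)).eval a := by
  have h5 : a = (constantCoeff : MvPolynomial σ ℂ →+* ℂ) (C a) := by rw [constantCoeff_C]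
  conv_rhs => rw [Polynomial.eval_map, h5, Polynomial.eval₂_at_apply]

theorem gterm_homog (f : ι → MvPolynomial σ ℂ) (d : ℕ) (hf : ∀ j, (f j).IsHomogeneous d)
    (c : ι → ℤ) (hc : ∑ j, c j = 1) (s : ι → ℕ) :
    (gterm f c s).IsHomogeneous (d * ∑ j, s j + d) := by
  classical
  by_cases hz : ∃ j, c j < 0 ∧ (s j : ℤ) + c j < 0
  · obtain ⟨j, h1, h2⟩ := hz
    have h3 : (∏ j, (if c j < 0 then (s j).choose (-c j).toNat else 1)) = 0 := by
      refine Finset.prod_eq_zero (Finset.mem_univ j) ?_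
      rw [if_pos h1]
      exact Nat.choose_eq_zero_of_lt (by omega)
    rw [gterm, h3, Nat.cast_zero, map_zero, zero_mul]
    exact isHomogeneous_zero _ _ _
  · push Not at hz
    have h1 : ∀ j, 0 ≤ (s j : ℤ) + c j := by
      intro j
      by_cases h : c j < 0
      · exact hz j h
      · omega
    have h2 : (∏ j, f j ^ ((s j : ℤ) + c j).toNat).IsHomogeneous
        (∑ j, d * ((s j : ℤ) + c j).toNat) :=
      IsHomogeneous.prod _ _ _ fun j _ => (hf j).pow _
    have h3 : ∑ j, d * ((s j : ℤ) + c j).toNat = d * ∑ j, s j + d := by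
      rw [← Finset.mul_sum]
      have : ∑ j, ((s j : ℤ) + c j).toNat = ∑ j, s j + 1 := by
        have h4 : ((∑ j, ((s j : ℤ) + c j).toNat : ℕ) : ℤ) = ((∑ j, s j + 1 : ℕ) : ℤ) := by
          push_cast
          rw [← hc, ← Finset.sum_add_distrib]
          refine Finset.sum_congr rfl fun j _ => ?_
          exact Int.toNat_of_nonneg (h1 j)
        exact_mod_cast h4
      rw [this, mul_add, mul_one]
    rw [h3] at h2
    have h5 := (isHomogeneous_C σ ((∏ j, (if c j < 0 then (s j).choose (-c j).toNat else 1) : ℕ) :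
      ℂ)).mul h2
    rw [zero_add] at h5
    exact h5

/-- **For a homogeneous ideal the roots which are forced globally are forced at the origin.** -/
theorem sf_of_homog (f : ι → MvPolynomial σ ℂ) (d : ℕ) (hf : ∀ j, (f j).IsHomogeneous d)
    (α : ℂ) (h : Forced f α) : SF f 0 α := by
  classical
  intro B hB
  obtain ⟨S, P, hS, hP⟩ := std_of_mem f 1 _ hB
  choose R hR1 hR2 using fun (c : ι → ℤ) (β : ι →₀ ℕ) =>
    Pool.Agent.W574.MO.exists_comp (P c β).1 (P c β).2 (-(d : ℤ))
  set b : Polynomial ℂ := B.map (constantCoeff : MvPolynomial σ ℂ →+* ℂ) with hb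
  have hfe : IsFunctionalEq f b := by
    refine ⟨S, fun c => Finsupp.onFinset (P c).support (fun β => if β ∈ (P c).support then
      (⟨R c β, hR1 c β⟩ : weyl σ) else 0) (fun β hβ => by
        by_contra h
        exact hβ (if_neg h)), hS, fun s => ?_⟩
    have h1 := congrArg (homogeneousComponent (d * ∑ j, s j)) (hP s)
    have hG : (G0 f s).IsHomogeneous (d * ∑ j, s j) := by
      have h2 : (∏ j, f j ^ s j).IsHomogeneous (∑ j, d * s j) :=
        IsHomogeneous.prod _ _ _ fun j _ => (hf j).pow _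
      rw [← Finset.mul_sum] at h2
      exact h2
    rw [mulB, Pool.Agent.W574.MO.comp_mul _ _ _ hG, cc_eval, map_sum] at h1
    change C (b.eval ((∑ j, s j : ℕ) : ℂ)) * G0 f s = _
    rw [h1]
    refine Finset.sum_congr rfl fun c hc => ?_
    rw [gen, applyAt, applyAt, Finsupp.sum, map_sum]
    rw [Finsupp.onFinset_sum]
    · refine Finset.sum_congr rfl fun β hβ => ?_
      rw [map_smul, if_pos hβ]
      congr 1
      exact hR2 c β (d * ∑ j, s j + d) (d * ∑ j, s j) _ (gterm_homog f d hf c (hS c hc) s)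
        (by push_cast; ring)
    · intro β
      simp
  have h2 := h b hfe
  rw [← h2, hb, ← cc_eval, MvPolynomial.eval_zero]

end

end Pool.Agent.Y229
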