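import Pool.Agent.Y229.SP3

set_option autoImplicit false
set_option linter.unusedSectionVars false

/-! # Bernstein's theorem for ideals; functional equations with formal power series -/

namespace Pool.Agent.Y229

open MvPolynomial Pool.Agent.W574.SM Pool.Agent.W574.HS Pool.Agent.W574.LM Pool.Agent.W574.RO

section

variable {σ ι : Type} [Fintype ι] [DecidableEq ι]

theorem bfunction_equiv {τ : Type} (e : σ ≃ τ) (F : MvPolynomial σ ℂ) (b : Polynomial ℂ)
    (h : Pool.Agent.H628R4.TP.IsBFunction (rename e F) b) :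
    Pool.Agent.H628R4.TP.IsBFunction F b := by
  classical
  obtain ⟨P, hP⟩ := h
  choose R0 hR0 using fun m : ℕ => weyl_conj e (P m).1 (P m).2
  obtain ⟨R, hR⟩ : ∃ R : ℕ → Pool.Agent.H628R4.TP.weylS σ, ∀ m p,
      (R m : Module.End ℂ (MvPolynomial σ ℂ)) p =
        rename e.symm ((P m : Module.End ℂ (MvPolynomial τ ℂ)) (rename e p)) :=
    ⟨fun m => ⟨(R0 m).1, (R0 m).2⟩, fun m p => hR0 m p⟩
  refine ⟨Finsupp.onFinset P.support (fun m => if m ∈ P.support then R m else 0) (fun m hm => by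
        by_contra h
        exact hm (if_neg h)), fun s => ?_⟩
  have h1 := congrArg (rename e.symm) (hP s)
  have hre : ∀ p : MvPolynomial σ ℂ, rename e.symm (rename e p) = p := fun p => by
    rw [rename_rename]; simp
  rw [map_mul, map_pow, rename_C, hre, Finsupp.sum, map_sum] at h1
  rw [h1, Finsupp.onFinset_sum]
  · refine Finset.sum_congr rfl fun m hm => ?_
    rw [map_smul, if_pos hm, ← map_pow]
    congr 1
    exact (hR m _).symm
  · intro m
    simp

/-- **Bernstein's theorem for ideals** (Budur, Mustata and Saito). -/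
theorem exists_fe [Finite σ] (f : ι → MvPolynomial σ ℂ) (hf : ∃ j, f j ≠ 0) :
    ∃ b : Polynomial ℂ, b ≠ 0 ∧ IsFunctionalEq f b := by
  classical
  obtain ⟨n, ⟨e⟩⟩ := Finite.exists_equiv_fin (ι ⊕ σ)
  have hF : rename e (univ f) ≠ 0 := by
    rw [Ne, map_eq_zero_iff _ (rename_injective _ e.injective)]
    exact univ_ne_zero f hf
  obtain ⟨b, hb, P, hP⟩ := Pool.Agent.W425.GN.bernstein (rename e (univ f)) hF
  have h1 := (Pool.Agent.W193.GN.b1L Pool.Agent.W425.GN.pA1 Pool.Agent.W425.GN.pA5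
    (rename e (univ f)) b 1).2 ⟨P, fun s => by rw [one_mul]; exact hP s⟩
  obtain ⟨Q, hQ⟩ := h1
  refine ⟨b, hb, functionalEq_of_univ f b (bfunction_equiv e _ b ⟨Q, fun s => ?_⟩)⟩
  rw [← hQ s, one_mul]

/-- `flat` for infinitely many equations -/
theorem flatInf [Finite σ] {L S : Type} [Fintype L] (h : S → MvPolynomial σ ℂ)
    (g : L → S → MvPolynomial σ ℂ) (a : L → MvPowerSeries σ ℂ)
    (hh : ∀ d, (h d : MvPowerSeries σ ℂ) = ∑ i, a i * (g i d : MvPowerSeries σ ℂ)) :
    ∃ (H : MvPolynomial σ ℂ) (c : L → MvPolynomial σ ℂ), constantCoeff H ≠ 0 ∧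
      ∀ d, H * h d = ∑ i, c i * g i d := by
  classical
  set v : S → (Option L → MvPolynomial σ ℂ) := fun s o => o.elim (h s) (fun i => g i s) with hv
  have hfg : (Submodule.span (MvPolynomial σ ℂ) (Set.range v)).FG := IsNoetherian.noetherian _
  rw [Submodule.fg_span_iff_fg_span_finset_subset] at hfg
  obtain ⟨T, hT, hspan⟩ := hfg
  choose t ht using fun w : T => hT w.2
  obtain ⟨H, c, hH, hc⟩ := flat (D := T.card) (fun d => h (t (T.equivFin.symm d)))
    (fun i d => g i (t (T.equivFin.symm d))) a (fun d => hh _)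
  refine ⟨H, c, hH, ?_⟩
  have key : ∀ w ∈ Submodule.span (MvPolynomial σ ℂ) (Set.range v),
      H * w none = ∑ i, c i * w (some i) := by
    intro w hw
    rw [hspan] at hw
    induction hw using Submodule.span_induction with
    | mem w hw =>
      have h1 := hc (T.equivFin ⟨w, hw⟩)
      simp only [Equiv.symm_apply_apply] at h1
      have h2 : v (t ⟨w, hw⟩) = w := ht ⟨w, hw⟩
      have h3 : w none = h (t ⟨w, hw⟩) := (congrFun h2 none).symm
      have h4 : ∀ i, w (some i) = g i (t ⟨w, hw⟩) := fun i => (congrFun h2 (some i)).symm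
      rw [h3, h1]
      refine Finset.sum_congr rfl fun i _ => ?_
      rw [h4]
    | zero => simp
    | add x y _ _ hx hy =>
      rw [Pi.add_apply, mul_add, hx, hy, ← Finset.sum_add_distrib]
      refine Finset.sum_congr rfl fun i _ => ?_
      rw [Pi.add_apply, mul_add]
    | smul r x _ hx =>
      rw [Pi.smul_apply, smul_eq_mul, mul_left_comm, hx, Finset.mul_sum]
      refine Finset.sum_congr rfl fun i _ => ?_
      rw [Pi.smul_apply, smul_eq_mul]
      ring
  intro d
  exact key (v d) (Submodule.subset_span ⟨d, rfl⟩)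

/-- The functional equation of Budur, Mustata and Saito for the ideal `(f_j)`, with differential
operators with formal power series coefficients at the origin:
`b(∑ s_j) ∏ f_j ^ s_j = ∑_l q_l(s) ∏_j binom(s_j, - c_(l, j)) a_l Q_l ∏ f_j ^ (s_j + c_(l, j))`, where
`∑_j c_(l, j) = 1`, the `q_l` are polynomials, the `a_l` are formal power series and the `Q_l` are in the
Weyl algebra. The equation is stated for all `s ∈ ℕ ^ ι`. -/
def IsLocalBI {σ ι : Type} [Fintype ι] (f : ι → MvPolynomial σ ℂ) (b : Polynomial ℂ) : Prop :=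
  ∃ (L : ℕ) (c : Fin L → ι → ℤ) (q : Fin L → MvPolynomial ι ℂ)
    (a : Fin L → MvPowerSeries σ ℂ) (Q : Fin L → Pool.Agent.H628R4.TP.weylS σ),
    (∀ l, ∑ j, c l j = 1) ∧
    ∀ s : ι → ℕ,
      MvPowerSeries.C (b.eval ((∑ j, s j : ℕ) : ℂ)) *
          ((∏ j, f j ^ s j : MvPolynomial σ ℂ) : MvPowerSeries σ ℂ) =
        ∑ l, MvPowerSeries.C (eval (fun j => (s j : ℂ)) (q l) *
            ∏ j, ((s j).choose (-(c l j)).toNat : ℂ)) *
          (a l * (((Q l : Module.End ℂ (MvPolynomial σ ℂ))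
            (∏ j, f j ^ ((s j : ℤ) + c l j).toNat) : MvPolynomial σ ℂ) : MvPowerSeries σ ℂ))

theorem locEq_of_local [Finite σ] (f : ι → MvPolynomial σ ℂ) (b : Polynomial ℂ)
    (hb : IsLocalBI f b) : ∃ H : MvPolynomial σ ℂ, constantCoeff H ≠ 0 ∧ IsLocEq H f b := by
  classical
  obtain ⟨L, c, q, a, Q, hc, hQ⟩ := hb
  set g : Fin L → (ι → ℕ) → MvPolynomial σ ℂ := fun l s =>
    C (eval (fun j => (s j : ℂ)) (q l)) * (Q l : Module.End ℂ (MvPolynomial σ ℂ)) (gterm f (c l) s)
    with hg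
  obtain ⟨H, u, hH, hu⟩ := flatInf (fun s : ι → ℕ => C (b.eval ((∑ j, s j : ℕ) : ℂ)) *
    ∏ j, f j ^ s j) g a (by
      intro s
      have h1 := hQ s
      rw [← MvPolynomial.coe_C, ← MvPolynomial.coe_mul] at h1
      rw [h1]
      refine Finset.sum_congr rfl fun l _ => ?_
      have h2 : (∏ j, ((s j).choose (-(c l j)).toNat : ℂ)) =
          ((∏ j, (if c l j < 0 then (s j).choose (-(c l j)).toNat else 1) : ℕ) : ℂ) := by
        push_cast
        refine Finset.prod_congr rfl fun j _ => ?_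
        by_cases h : c l j < 0
        · rw [if_pos h]
        · rw [if_neg h]
          have : (-(c l j)).toNat = 0 := by omega
          rw [this, Nat.choose_zero_right, Nat.cast_one]
      have h3 : (g l s : MvPolynomial σ ℂ) = C (eval (fun j => (s j : ℂ)) (q l) *
          ∏ j, ((s j).choose (-(c l j)).toNat : ℂ)) * (Q l : Module.End ℂ (MvPolynomial σ ℂ))
            (∏ j, f j ^ ((s j : ℤ) + c l j).toNat) := by
        rw [hg]
        simp only
        have hCm : ∀ (x : ℂ) (p : MvPolynomial σ ℂ), C x * p = x • p := fun x p => C_mul'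
        rw [gterm, hCm _ (∏ j, f j ^ ((s j : ℤ) + c l j).toNat), map_smul, h2, map_mul,
          mul_assoc, hCm ((∏ j, (if c l j < 0 then (s j).choose (-(c l j)).toNat else 1) :
            ℕ) : ℂ)]
      rw [h3, MvPolynomial.coe_mul, MvPolynomial.coe_C]
      ring)
  refine ⟨H, hH, (isLocEq_iff H f b).2 ?_⟩
  have h5 : mulB (Polynomial.C H * b.map C) (G0 f) = ∑ l, gen f (tens (q l)
      ((⟨_, mulLeft_memW (u l)⟩ : weyl σ) * (⟨(Q l).1, (Q l).2⟩ : weyl σ))) (c l) := by
    funext s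
    have h6 := hu s
    rw [mulB, Polynomial.eval_mul, Polynomial.eval_C, eval_mapC, mul_assoc]
    change H * (C (b.eval ((∑ j, s j : ℕ) : ℂ)) * ∏ j, f j ^ s j) = _
    rw [h6, Finset.sum_apply]
    refine Finset.sum_congr rfl fun l _ => ?_
    rw [gen, applyAt_tens, hg]
    simp only
    rw [C_mul', mul_smul_comm]
    rfl
  rw [h5]
  exact Submodule.sum_mem _ fun l _ => gen_mem f _ _ (hc l)

theorem SF.localBI [Finite σ] {f : ι → MvPolynomial σ ℂ} {α : ℂ} (h : SF f 0 α)
    (b : Polynomial ℂ) (hb : IsLocalBI f b) : b.eval α = 0 := by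
  obtain ⟨H, hH, hloc⟩ := locEq_of_local f b hb
  exact h.locEq H b hloc (by rw [MvPolynomial.eval_zero]; exact hH)

/-- hypersurfaces `∑ y_j f_j` -/
theorem SF.univ [Finite σ] {f : ι → MvPolynomial σ ℂ} (hf : ∃ j, f j ≠ 0) {α : ℂ}
    (h : SF f 0 α) (b : Polynomial ℂ)
    (hb : Pool.Agent.H628R4.TP.IsLocalBFunction (Pool.Agent.W574.HS.univ f) b) :
    b.eval α = 0 := by
  classical
  obtain ⟨H, P, hH, hP⟩ := algebraic_of_local (Pool.Agent.W574.HS.univ f) (univ_ne_zero f hf) b hb
  refine h.locEq _ b (locEq_of_univ f b H P hP) ?_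
  rw [MvPolynomial.eval_zero, cc_hat]
  exact hH

end

end Pool.Agent.Y229
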