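import Pool.Agent.W574.RO.Defs

set_option autoImplicit false

/-! # Germs of ideals: sums and products in disjoint sets of variables

`M` is a commutative ring with a unit `L`. The main example is `M = K₀(Var_ℂ)[1/L]`, the
Grothendieck ring of complex varieties, localized at the class `L` of the affine line.

The local motivic zeta function at the origin of an ideal `I` of the polynomial ring in `n`
variables is `∫_{φ(0) = 0} T^(ord φ^* I) dμ`, the integral over the arcs `φ` with the origin
`φ(0) = 0`. If `μ` is normalized such that the set of all arcs of the affine space has the volume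
`1`, then the arcs with the origin `0` have the volume `L⁻ⁿ`; below we use `L^n` times this
integral, i.e. the arcs with the origin `0` have the volume `1`. -/

namespace Pool.Agent.Y229

open MvPolynomial Pool.Agent.W574.SM Pool.Agent.W574.MO Pool.Agent.W574.CN Pool.Agent.W574.RO

variable {M : Type} [CommRing M]

/-- `Z = u₀ + ∑_i w_i (L - 1) L⁻¹ T^(m_i) / (1 - L⁻¹ T^(m_i)) + ∑_{P ∈ S} Z_P`, as in `PlaneMot`,
where `u₀ + ∑_i w_i + |S| = tot`: the contribution to `∑_I [E_I°] ∏_{i ∈ I} (...)` of a subset with
the class `tot` of the plane. The `m_i` are the multiplicities of curves `C_i` in the zero locus of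
the ideal, `Z_P` is the contribution of the point `P`, computed by a sequence of blow-ups of
points, see `MotLocal`; `u₀` is the class of the part of the subset outside the zero locus, and
`w_i` the class of the part on the curve `C_i` outside `S`. -/
def PlaneTot {ι : Type} (L : Mˣ) (f : ι → MvPolynomial (Fin 2) ℂ) (tot : M) (Z : PowerSeries M) :
    Prop :=
  ∃ (u₀ : M) (r : ℕ) (h : Fin r → MvPolynomial (Fin 2) ℂ) (m : Fin r → ℕ) (w : Fin r → M)
    (S : Finset (Fin 2 → ℂ)) (ZP : (Fin 2 → ℂ) → PowerSeries M),
    (∀ i, IsCurve f (h i) (m i)) ∧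
    (∀ P ∈ S, MotLocal L (fun j => translate P (f j)) 0 1 0 1 (ZP P)) ∧
    u₀ + ∑ i, w i + (S.card : M) = tot ∧
    Z = PowerSeries.C u₀ + ∑ i, PowerSeries.C (w i) * mf L (m i) 1 + ∑ P ∈ S, ZP P

/-- The sum `Z_J = ∑_I [E_I°] ∏_{i ∈ I} (L - 1) L^(-ν_i) T^(N_i) / (1 - L^(-ν_i) T^(N_i))` over the
strata of the projective plane for a log resolution of the ideal sheaf `J` which the forms `f_j`
of the same degree in `x₀, x₁, x₂` define: the sum of the contributions of the points with
`x₀ ≠ 0` (an affine plane), of the points with `x₀ = 0`, `x₁ ≠ 0` (an affine line), and of the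
point `x₀ = x₁ = 0`; see `deh` for the dehomogenized polynomials. -/
def ProjVol {ι : Type} (L : Mˣ) (f : ι → MvPolynomial (Fin 3) ℂ) (Z : PowerSeries M) : Prop :=
  ∃ Z₀ Z₁ Z₂ : PowerSeries M,
    PlaneTot L (fun j => deh 0 (f j)) ((L : M) ^ 2) Z₀ ∧
    PlaneTot L (fun j => deh 1 (f j)) (L : M) Z₁ ∧
    PlaneTot L (fun j => deh 2 (f j)) 1 Z₂ ∧ Z = Z₀ + Z₁ + Z₂

/-- `Germ L A Z`: the ideal `I` generated by the family `A` is obtained by sums and products in
disjoint sets of variables from ideals of the following four kinds, and `Z` is its local motivic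
zeta function at the origin, normalized such that the arcs with the origin `0` have the volume `1`:
powers `(x ^ m)`; ideals of `ℂ[x, y]`; ideals of `ℂ[x₀, x₁, x₂]` which are generated by forms of the
same degree; ideals of `ℂ[x₀, ..., xₙ]` which are generated by forms of the same degree without a
common zero outside the origin. -/
inductive Germ (L : Mˣ) : Fam → PowerSeries M → Prop
  /-- the unit ideal, near the origin -/
  | unit (A : Fam) (hA : Finite A.σ) (j : A.ι) (hj : constantCoeff (A.f j) ≠ 0) : Germ L A 1
  /-- the ideal `(x ^ m)` of `ℂ[x]`: the volume of `ord x = k` is `(1 - L⁻¹) L^(1 - k)`, `k ≥ 1`, so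
  that `Z = (L - 1) L⁻¹ T^m / (1 - L⁻¹ T^m)` -/
  | power (m : ℕ) (hm : 1 ≤ m) : Germ L ⟨Fin 1, Fin 1, fun _ => X 0 ^ m⟩ (mf L m 1)
  /-- a non-zero ideal of `ℂ[x, y]`; see `MotLocal` for its zeta function, which is computed by
  blowing up points -/
  | plane (r : ℕ) (f : Fin r → MvPolynomial (Fin 2) ℂ) (hf : ∃ j, f j ≠ 0) (Z : PowerSeries M)
      (hZ : MotLocal L f 0 1 0 1 Z) : Germ L ⟨Fin 2, Fin r, f⟩ Z
  /-- an ideal of `ℂ[x₀, x₁, x₂]` generated by forms of degree `d > 0`, three of which are
  algebraically independent (their Jacobian determinant is not zero). The blow-up of the origin is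
  the total space of the line bundle `O(-1)` over the projective plane, on which the ideal is
  `O(-d E)` times the pull-back of `J`, see `ProjVol`; `E` has the numerical data `(d, 3)`. -/
  | cone (r : ℕ) (f : Fin r → MvPolynomial (Fin 3) ℂ) (d : ℕ) (hd : 0 < d)
      (hf : ∀ j, (f j).IsHomogeneous d) (e : Fin 3 → Fin r)
      (he : (Matrix.of fun s t => pderiv s (f (e t))).det ≠ 0) (Z : PowerSeries M)
      (hZ : ProjVol L f Z) : Germ L ⟨Fin 3, Fin r, f⟩ (Z * mf L d 3)
  /-- an ideal of `ℂ[x₀, ..., xₙ]` generated by forms of degree `d > 0` without a common zero outside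
  the origin, `n + 1` of which are algebraically independent: on the blow-up of the origin, the
  ideal is `O(-d E)`, and `E`, a projective space of dimension `n`, has the numerical data
  `(d, n + 1)`. -/
  | free (n r : ℕ) (f : Fin r → MvPolynomial (Fin (n + 1)) ℂ) (d : ℕ) (hd : 0 < d)
      (hf : ∀ j, (f j).IsHomogeneous d) (h0 : ∀ p, (∀ j, eval p (f j) = 0) → p = 0)
      (e : Fin (n + 1) → Fin r) (he : (Matrix.of fun s t => pderiv s (f (e t))).det ≠ 0) :
      Germ L ⟨Fin (n + 1), Fin r, f⟩
        (PowerSeries.C (∑ i ∈ Finset.range (n + 1), (L : M) ^ i) * mf L d (n + 1))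
  /-- the sum of two ideals in disjoint sets of variables: `ord` is the minimum of the orders -/
  | sum (A B : Fam) (Z W : PowerSeries M) (hA : Germ L A Z) (hB : Germ L B W) :
      Germ L (A.sum B) (sumSeries Z W)
  /-- the product of two ideals in disjoint sets of variables: the orders are added -/
  | mul (A B : Fam) (Z W : PowerSeries M) (hA : Germ L A Z) (hB : Germ L B W) :
      Germ L (A.mul B) (Z * W)
  /-- the variables and the generators may be indexed differently -/
  | equiv (A B : Fam) (i : A.σ ≃ B.σ) (k : A.ι ≃ B.ι) (h : ∀ j, B.f (k j) = rename i (A.f j))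
      (Z : PowerSeries M) (hA : Germ L A Z) : Germ L B Z

end Pool.Agent.Y229
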