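import Pool.Agent.Y229.SP4
import Pool.Agent.Y229.SPDefs
import Pool.Agent.W574.MO.Cone

set_option autoImplicit false
set_option linter.unusedSectionVars false
set_option linter.unusedVariables false

/-! # The denominators of the local motivic zeta functions of sums and products of ideals -/

namespace Pool.Agent.Y229

open MvPolynomial Pool.Agent.W574.MO Pool.Agent.W574.SM Pool.Agent.W574.LM Pool.Agent.W574.HS
  Pool.Agent.W574.RO Pool.Agent.W574.CN

section point

variable {ι : Type} [Fintype ι] [DecidableEq ι]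

/-- the denominators which belong to roots which are forced at the point `p` -/
def KS {σ ι : Type} [Fintype ι] (f : ι → MvPolynomial σ ℂ) (p : σ → ℂ) (a n : ℕ) : Prop :=
  SF f p (-(n : ℂ) / a)

/-- the same with `H b(s)`, `H(p) ≠ 0` -/
def KL {σ ι : Type} [Fintype ι] (f : ι → MvPolynomial σ ℂ) (p : σ → ℂ) (a n : ℕ) : Prop :=
  ∀ (H : MvPolynomial σ ℂ) (b : Polynomial ℂ), IsLocEq H f b → eval p H ≠ 0 →
    b.eval (-(n : ℂ) / a) = 0

theorem point_local {M : Type} [CommRing M] (L : Mˣ) (f : ι → MvPolynomial (Fin 2) ℂ)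
    (P : Fin 2 → ℂ) (Z : PowerSeries M)
    (hZ : MotLocal L (fun j => translate P (f j)) 0 1 0 1 Z) :
    tail 1 Z ∈ DenRing L (KL f P) := by
  classical
  obtain ⟨Z0, hZ0, rfl⟩ := exists_univ L hZ
  rw [← Phi_tail]
  apply Phi_mem
  apply tail_mem_of_val
  · obtain ⟨s, hs, Q, hQ⟩ := exists_denom (mem_all LL hZ0 le_rfl le_rfl)
    refine descent (KL f P) Z0 s (fun p hp => ⟨(hs p hp).1, (hs p hp).2.1⟩) ?_ Q hQ
    intro a n ha hn hne
    have hac : (a : ℂ) ≠ 0 := Nat.cast_ne_zero.2 (by omega)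
    obtain ⟨H, b, hb, hH, hbn⟩ : ∃ (H : MvPolynomial (Fin 2) ℂ) (b : Polynomial ℂ),
        IsLocEq H f b ∧ eval P H ≠ 0 ∧ b.eval (-(n : ℂ) / a) ≠ 0 := by
      by_contra h
      push Not at h
      exact hne h
    obtain ⟨c0, m0, c1, m1, _, _, h1⟩ := local_mainM LL f b H hb
      (-(n : ℂ) / a) hbn hZ0 (inv_initialL H f P hH _)
    rw [mf_zero, mul_one, mul_one] at h1
    have h2 := (DenRing LL (Kn (-(n : ℂ) / a))).add_mem
      ((DenRing LL (Kn (-(n : ℂ) / a))).add_mem h1 m1) m0
    rw [sub_add_cancel, sub_add_cancel] at h2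
    refine Subring.closure_mono (Set.union_subset_union_right _ ?_) h2
    rintro u ⟨a', n', ha', hn', hK, hu⟩
    refine ⟨a', n', ha', hn', ?_, hu⟩
    intro h3
    apply hK
    have h4 : (n : ℂ) * a' = n' * a := by exact_mod_cast h3
    field_simp
    linear_combination -h4
  · have := val_local hZ0 le_rfl le_rfl (fun _ => rfl) (fun _ => rfl)
    rwa [div_self (lf_ne 1 le_rfl), one_mul] at this

theorem point_sf {M : Type} [CommRing M] (L : Mˣ) (f : ι → MvPolynomial (Fin 2) ℂ)
    (hf : ∃ j, f j ≠ 0) (P : Fin 2 → ℂ) (Z : PowerSeries M)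
    (hZ : MotLocal L (fun j => translate P (f j)) 0 1 0 1 Z) :
    tail 1 Z ∈ DenRing L (KS f P) :=
  denRing_mono (fun _ _ _ _ h => sf_of_local f P _ h (exists_fe f hf)) (point_local L f P Z hZ)

theorem translate_zero (f : ι → MvPolynomial (Fin 2) ℂ) :
    (fun j => translate 0 (f j)) = f := by
  funext j
  have h6 : (translate 0 : MvPolynomial (Fin 2) ℂ →ₐ[ℂ] MvPolynomial (Fin 2) ℂ)
      = AlgHom.id ℂ _ := by
    ext1 i
    change aeval (fun i => X i + C ((0 : Fin 2 → ℂ) i)) (X i : MvPolynomial (Fin 2) ℂ) = _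
    rw [aeval_X]
    simp
  rw [h6]
  rfl

end point

variable {M : Type} [CommRing M] {L : Mˣ}

/-- a subset of the plane -/
theorem tot_tail {ι : Type} [Fintype ι] [DecidableEq ι] (f : ι → MvPolynomial (Fin 2) ℂ) (tot : M)
    (Z : PowerSeries M) (hZ : PlaneTot L f tot Z) : tail tot Z ∈ DenRing L (KF f) := by
  obtain ⟨u₀, r', h, m, w, S, ZP, hC, hP, htot, rfl⟩ := hZ
  have e : tot = u₀ + ∑ i, w i * 1 + ∑ P ∈ S, (1 : M) := by
    rw [Finset.sum_congr rfl fun i _ => mul_one (w i), Finset.sum_const, nsmul_eq_mul,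
      mul_one, htot]
  rw [e, tail_add, tail_add, tail_sum, tail_sum]
  refine (DenRing L _).add_mem ((DenRing L _).add_mem ?_ ?_) ?_
  · rw [tail_C]
    exact C_mem _
  · refine Subring.sum_mem _ fun i _ => ?_
    rw [tail_C_mul]
    refine (DenRing L _).mul_mem (C_mem _) (tail_mf_mem (m i) (hC i).2.1 ?_)
    intro b hb
    have := curve_root f b hb (h i) (m i) (hC i)
    rw [Nat.cast_one]
    exact this
  · exact Subring.sum_mem _ fun P hPS => point_forced L f P (ZP P) (hP P hPS)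

theorem forced_deh {ι : Type} [Fintype ι] [DecidableEq ι] (i : Fin 3)
    (f : ι → MvPolynomial (Fin 3) ℂ) (d : ℕ) (hf : ∀ j, (f j).IsHomogeneous d) (a n : ℕ)
    (h : KF (fun j => deh i (f j)) a n) : KF f a n :=
  fun b hb => h b (functionalEq_deh i f d hf b hb)

/-- the tail of the series of a cone -/
theorem tail_cone (k : ℕ) (W Z : PowerSeries M) (d : ℕ) (hd : 1 ≤ d)
    (hW : W = tail (∑ i ∈ Finset.range k, (L : M) ^ i) Z) :
    tail 1 (Z * mf L d k) =
      geo L d k * (∑ i ∈ Finset.range d, PowerSeries.X ^ i) + W * mf L d k := by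
  symm
  apply eq_tail
  have h1 := geom_sum_mul (PowerSeries.X : PowerSeries M) d
  have h2 := geo_mul L hd k
  have h3 := tail_eq (∑ i ∈ Finset.range k, (L : M) ^ i) Z
  rw [← hW] at h3
  rw [mf_pos L hd, map_one]
  have h4 : (qq L d k : PowerSeries M) = PowerSeries.C (((L⁻¹ ^ k : Mˣ) : M)) * PowerSeries.X ^ d :=
    rfl
  have h5 : (PowerSeries.C ((L : M) - 1) : PowerSeries M) *
      PowerSeries.C (((L⁻¹ ^ k : Mˣ) : M)) *
        PowerSeries.C (∑ i ∈ Finset.range k, (L : M) ^ i) =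
        1 - PowerSeries.C (((L⁻¹ ^ k : Mˣ) : M)) := by
    rw [← map_mul, ← map_mul, ← map_one (PowerSeries.C (R := M)), ← map_sub]
    congr 1
    have h6 : ((L⁻¹ ^ k : Mˣ) : M) * (L : M) ^ k = 1 := by
      rw [← Units.val_pow_eq_pow_val, ← Units.val_mul, ← mul_pow, inv_mul_cancel, one_pow,
        Units.val_one]
    have h7 := geom_sum_mul (L : M) k
    linear_combination h6 + ((L⁻¹ ^ k : Mˣ) : M) * h7
  rw [h4] at h2 ⊢
  set q := (PowerSeries.C (((L⁻¹ ^ k : Mˣ) : M)) : PowerSeries M) with hq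
  set l := (PowerSeries.C ((L : M) - 1) : PowerSeries M) with hl
  set c := (PowerSeries.C (∑ i ∈ Finset.range k, (L : M) ^ i) : PowerSeries M) with hc
  set g := geo L d k with hg
  set x := (PowerSeries.X : PowerSeries M) with hx
  linear_combination (-g) * h1 + (l * q * x ^ d * g) * h3 + h2 + (x ^ d * g) * h5

theorem det_exists {n r : ℕ} (f : Fin r → MvPolynomial (Fin (n + 1)) ℂ) (e : Fin (n + 1) → Fin r)
    (he : (Matrix.of fun s t => pderiv s (f (e t))).det ≠ 0) : ∃ j, f j ≠ 0 := by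
  by_contra h0
  push Not at h0
  apply he
  have : (Matrix.of fun s t => pderiv s (f (e t)) : Matrix (Fin (n + 1)) (Fin (n + 1)) _) = 0 := by
    ext s t
    rw [Matrix.of_apply, h0, map_zero, Matrix.zero_apply]
  rw [this, Matrix.det_zero]

/-- **The denominators of the local motivic zeta functions of sums and products of ideals.** -/
theorem germ_main (A : Fam) (Z : PowerSeries M) (h : Germ L A Z) :
    Finite A.σ ∧ (∃ j, A.f j ≠ 0) ∧ tail 1 Z ∈ DenRing L (KS A.f 0) := by
  classical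
  induction h with
  | unit A hA j hj =>
    refine ⟨hA, ⟨j, fun h => hj (by rw [h, map_zero])⟩, ?_⟩
    have : tail 1 (1 : PowerSeries M) = 1 := by
      have := tail_C (1 : M)
      rwa [map_one] at this
    rw [this]
    exact (DenRing L _).one_mem
  | power m hm =>
    refine ⟨inferInstanceAs (Finite (Fin 1)), ⟨0, pow_ne_zero _ (X_ne_zero _)⟩, ?_⟩
    refine tail_mf_mem m hm ?_
    exact sf_of_homog _ m (fun _ => isHomogeneous_X_pow 0 m) _ (forced_power m hm)
  | plane r f hf Z hZ =>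
    refine ⟨inferInstanceAs (Finite (Fin 2)), hf, ?_⟩
    have h1 := point_sf L f hf 0 Z (by rw [translate_zero]; exact hZ)
    exact h1
  | cone r f d hd hf e he Z hZ =>
    refine ⟨inferInstanceAs (Finite (Fin 3)), det_exists f e he, ?_⟩
    obtain ⟨Z₀, Z₁, Z₂, h0, h1, h2, rfl⟩ := hZ
    have hP : ∑ i ∈ Finset.range 3, (L : M) ^ i = (L : M) ^ 2 + L + 1 := by
      rw [Finset.sum_range_succ, Finset.sum_range_succ, Finset.sum_range_succ,
        Finset.sum_range_zero]
      ring
    rw [tail_cone 3 _ _ d hd rfl, hP]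
    have hroot : Forced f (-((3 : ℕ) : ℂ) / d) := by
      intro b hb
      have h2 := generic_root f d hd hf b hb e he
      have h3 : -(((2 : ℕ) : ℂ) + 1) / d = -((3 : ℕ) : ℂ) / d := by push_cast; ring
      rw [← h3]
      exact h2
    have hS : KS f 0 d 3 := sf_of_homog f d hf _ hroot
    refine (DenRing L _).add_mem ((DenRing L _).mul_mem (geo_mem hd (by norm_num) hS)
      (X_pow_sum_mem d)) ((DenRing L _).mul_mem ?_ (mf_mem (by norm_num) fun _ => hS))
    refine denRing_mono (K := KF f) (fun a n _ _ h => sf_of_homog f d hf _ h) ?_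
    rw [tail_add, tail_add]
    refine (DenRing L _).add_mem ((DenRing L _).add_mem ?_ ?_) ?_
    · exact denRing_mono (fun a n _ _ h => forced_deh 0 f d hf a n h) (tot_tail _ _ _ h0)
    · exact denRing_mono (fun a n _ _ h => forced_deh 1 f d hf a n h) (tot_tail _ _ _ h1)
    · exact denRing_mono (fun a n _ _ h => forced_deh 2 f d hf a n h) (tot_tail _ _ _ h2)
  | free n r f d hd hf h0 e he =>
    refine ⟨inferInstanceAs (Finite (Fin (n + 1))), det_exists f e he, ?_⟩
    rw [tail_cone (n + 1) _ _ d hd rfl, tail_C]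
    have hroot : Forced f (-((n + 1 : ℕ) : ℂ) / d) := by
      intro b hb
      have h2 := generic_root f d hd hf b hb e he
      push_cast
      exact h2
    have hS : KS f 0 d (n + 1) := sf_of_homog f d hf _ hroot
    exact (DenRing L _).add_mem ((DenRing L _).mul_mem (geo_mem hd (by omega) hS)
      (X_pow_sum_mem d)) ((DenRing L _).mul_mem (C_mem _) (mf_mem (by omega) fun _ => hS))
  | sum A B Z W hA hB ihA ihB =>
    obtain ⟨fA, ⟨j, hj⟩, hZ⟩ := ihA
    obtain ⟨fB, -, hW⟩ := ihB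
    have := fA
    have := fB
    refine ⟨inferInstanceAs (Finite (A.σ ⊕ B.σ)), ⟨Sum.inl j, ?_⟩, ?_⟩
    · change rename Sum.inl (A.f j) ≠ 0
      rw [Ne, map_eq_zero_iff _ (rename_injective _ Sum.inl_injective)]
      exact hj
    · rw [tail_min]
      refine had_mem hZ hW fun a n a' n' l ha hn hK ha' hn' hK' hl hal hal' => ?_
      have h1 := sf_sum A.f B.f 0 0 _ _ hK hK'
      have h2 : (-(n : ℂ) / a) + (-(n' : ℂ) / a') =
          -((n * (l / a) + n' * (l / a') : ℕ) : ℂ) / l := by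
        obtain ⟨k, rfl⟩ := hal
        obtain ⟨k', hk'⟩ := hal'
        have e1 : a * k / a = k := Nat.mul_div_cancel_left k (by omega)
        have e2 : a * k / a' = k' := by rw [hk']; exact Nat.mul_div_cancel_left k' (by omega)
        rw [e1, e2]
        have ha0 : (a : ℂ) ≠ 0 := Nat.cast_ne_zero.2 (by omega)
        have ha0' : (a' : ℂ) ≠ 0 := Nat.cast_ne_zero.2 (by omega)
        have hk0 : ((a * k : ℕ) : ℂ) ≠ 0 := Nat.cast_ne_zero.2 (by omega)
        have hk1 : (a : ℂ) * k = a' * k' := by exact_mod_cast hk'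
        push_cast at hk0 ⊢
        rw [div_add_div _ _ ha0 ha0', div_eq_div_iff (mul_ne_zero ha0 ha0') hk0]
        linear_combination (-(a : ℂ) * n') * hk1
      have h3 : (Sum.elim (0 : A.σ → ℂ) (0 : B.σ → ℂ)) = 0 := by
        funext x
        rcases x with x | x <;> rfl
      rw [h2, h3] at h1
      exact h1
  | mul A B Z W hA hB ihA ihB =>
    obtain ⟨fA, ⟨j, hj⟩, hZ⟩ := ihA
    obtain ⟨fB, ⟨k, hk⟩, hW⟩ := ihB
    have := fA
    have := fB
    have h3 : (Sum.elim (0 : A.σ → ℂ) (0 : B.σ → ℂ)) = 0 := by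
      funext x
      rcases x with x | x <;> rfl
    refine ⟨inferInstanceAs (Finite (A.σ ⊕ B.σ)), ⟨(j, k), ?_⟩, ?_⟩
    · change (rename Sum.inl (A.f j) * rename Sum.inr (B.f k) : MvPolynomial (A.σ ⊕ B.σ) ℂ) ≠ 0
      refine mul_ne_zero ?_ ?_
      · rw [Ne, map_eq_zero_iff _ (rename_injective _ Sum.inl_injective)]
        exact hj
      · rw [Ne, map_eq_zero_iff _ (rename_injective _ Sum.inr_injective)]
        exact hk
    · refine tail_mul_mem (denRing_mono (fun a n _ _ h => ?_) hZ)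
        (denRing_mono (fun a n _ _ h => ?_) hW)
      · have h1 := sf_mul A.f B.f 0 0 _ h ⟨k, hk⟩
        rw [h3] at h1
        exact h1
      · have h1 := sf_mul' A.f B.f 0 0 _ h ⟨j, hj⟩
        rw [h3] at h1
        exact h1
  | equiv A B i k h Z hA ihA =>
    obtain ⟨fA, ⟨j, hj⟩, hZ⟩ := ihA
    have := fA
    refine ⟨Finite.of_equiv _ i, ⟨k j, ?_⟩, denRing_mono (fun a n _ _ hS => ?_) hZ⟩
    · rw [h, Ne, map_eq_zero_iff _ (rename_injective _ i.injective)]
      exact hj
    · exact sf_equiv i k A.f B.f h 0 _ hS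

end Pool.Agent.Y229
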